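import Mathlib

/-!
# Two-valued levels: the walk

Abstract plane model of the rectangles around a fixed rectangle `e`.
Nodes `(α, β)`: label `e + α h - β s`; displacement `F e α β` of the abscissa,
`G e α β` of the ordinate.
-/

namespace Pool.Agent.H42.Tie

/-- abstract data -/
structure Dat where
  N : ℤ
  p : ℤ
  q : ℤ
  h : ℤ
  s : ℤ
  m : ℤ
  W : ℤ
  D : ℤ
  L : ℤ
  a : ℤ
  E : ℤ
  hN : N = p * q
  hp : 0 < p
  hq : 0 < q
  hm : 1 ≤ m
  h1 : m * s < h
  h2 : h < (m + 1) * s
  s1 : 1 ≤ s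
  hW : 0 < W
  hWs : W < q * s
  hqW : q < W
  hD : 0 < D
  hL : 0 < L - D
  sp : s < p
  cL : N ∣ a * ((E * h) % p) - L
  cW : N ∣ a * ((E * s) % p) + W
  cD : N ∣ a * p - D

namespace Dat

variable (A : Dat)

def ix (k : ℤ) : ℤ := (A.E * k) % A.p
def U (k : ℤ) : ℤ := A.a * A.ix k
def V (k : ℤ) : ℤ := A.U k + A.q * k
def c : ℤ := A.ix A.h
def t : ℤ := A.ix A.s
def lab (e α β : ℤ) : ℤ := e + α * A.h - β * A.s
/-- number of turns of the class -/
def fl (e α β : ℤ) : ℤ := (A.ix e + α * A.c - β * A.t) / A.p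
def F (e α β : ℤ) : ℤ := α * A.L + β * A.W - A.D * A.fl e α β
def G (e α β : ℤ) : ℤ := A.F e α β + A.q * (α * A.h - β * A.s)

theorem ix_nonneg (k : ℤ) : 0 ≤ A.ix k := Int.emod_nonneg _ A.hp.ne'
theorem ix_lt (k : ℤ) : A.ix k < A.p := Int.emod_lt_of_pos _ A.hp
theorem N_pos : 0 < A.N := by rw [A.hN]; exact mul_pos A.hp A.hq

theorem ix_lab (e α β : ℤ) :
    A.ix (A.lab e α β) = A.ix e + α * A.c - β * A.t - A.p * A.fl e α β := by
  have h1 := Int.emod_add_mul_ediv (A.ix e + α * A.c - β * A.t) A.p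
  have h2 : A.ix (A.lab e α β) = (A.ix e + α * A.c - β * A.t) % A.p := by
    unfold c t ix lab
    rw [show A.E * (e + α * A.h - β * A.s) = A.E * e + α * (A.E * A.h) - β * (A.E * A.s) by ring]
    rw [Int.sub_emod, Int.add_emod, Int.mul_emod α, Int.mul_emod β]
    conv_rhs => rw [Int.sub_emod, Int.add_emod, Int.mul_emod α, Int.mul_emod β]
    simp
  rw [h2]
  unfold fl
  omega

theorem fl_add (e α β α' β' : ℤ) :
    A.fl e (α + α') (β + β') = A.fl e α β + A.fl (A.lab e α β) α' β' := by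
  have h := A.ix_lab e α β
  have hp := A.hp
  conv_rhs => rw [fl, fl]
  rw [h]
  rw [show A.ix e + α * A.c - β * A.t - A.p * A.fl e α β + α' * A.c - β' * A.t
    = A.ix e + (α + α') * A.c - (β + β') * A.t + A.p * (-A.fl e α β) by ring,
    Int.add_mul_ediv_left _ _ hp.ne']
  unfold fl
  ring

theorem F_add (e α β α' β' : ℤ) :
    A.F e (α + α') (β + β') = A.F e α β + A.F (A.lab e α β) α' β' := by
  unfold F
  rw [A.fl_add]
  ring

theorem G_add (e α β α' β' : ℤ) :
    A.G e (α + α') (β + β') = A.G e α β + A.G (A.lab e α β) α' β' := by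
  unfold G
  rw [A.F_add]
  ring

theorem F_cong (e α β : ℤ) : A.N ∣ A.U (A.lab e α β) - A.U e - A.F e α β := by
  unfold U
  rw [A.ix_lab]
  obtain ⟨x, hx⟩ := A.cL
  obtain ⟨y, hy⟩ := A.cW
  obtain ⟨z, hz⟩ := A.cD
  have e1 : A.c = (A.E * A.h) % A.p := rfl
  have e2 : A.t = (A.E * A.s) % A.p := rfl
  rw [← e1] at hx
  rw [← e2] at hy
  unfold F
  exact ⟨α * x - β * y - A.fl e α β * z, by linear_combination α * hx - β * hy - A.fl e α β * hz⟩

theorem V_lab (e α β : ℤ) : A.V (A.lab e α β) - A.V e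
    = A.U (A.lab e α β) - A.U e + A.q * (α * A.h - β * A.s) := by
  unfold V lab; ring

theorem G_cong (e α β : ℤ) : A.N ∣ A.V (A.lab e α β) - A.V e - A.G e α β := by
  have := A.F_cong e α β
  rw [A.V_lab]
  unfold G
  rwa [show A.U (A.lab e α β) - A.U e + A.q * (α * A.h - β * A.s)
    - (A.F e α β + A.q * (α * A.h - β * A.s)) = A.U (A.lab e α β) - A.U e - A.F e α β by ring]

theorem F_zero (e : ℤ) : A.F e 0 0 = 0 := by
  have h0 := A.ix_nonneg e
  have h1 := A.ix_lt e
  unfold F fl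
  rw [show A.ix e + 0 * A.c - 0 * A.t = A.ix e by ring, Int.ediv_eq_zero_of_lt h0 h1]
  ring

theorem X_step (e : ℤ) : A.F e 1 0 = A.L ∨ A.F e 1 0 = A.L - A.D := by
  have h0 := A.ix_nonneg e
  have h1 := A.ix_lt e
  have c0 : 0 ≤ A.c := A.ix_nonneg _
  have c1 : A.c < A.p := A.ix_lt _
  have hp := A.hp
  unfold F fl
  rw [show A.ix e + 1 * A.c - 0 * A.t = A.ix e + A.c by ring]
  by_cases hc : A.ix e + A.c < A.p
  · left; rw [Int.ediv_eq_zero_of_lt (by omega) hc]; ring
  · right
    have : (A.ix e + A.c) / A.p = 1 := by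
      rw [Int.ediv_eq_iff_of_pos hp]; constructor <;> nlinarith
    rw [this]; ring

theorem Z_step (e : ℤ) : (A.F e 0 1 = A.W ∧ A.t ≤ A.ix e) ∨ (A.F e 0 1 = A.W + A.D ∧
    A.ix e < A.t) := by
  have h0 := A.ix_nonneg e
  have h1 := A.ix_lt e
  have c0 : 0 ≤ A.t := A.ix_nonneg _
  have c1 : A.t < A.p := A.ix_lt _
  have hp := A.hp
  unfold F fl
  rw [show A.ix e + 0 * A.c - 1 * A.t = A.ix e - A.t by ring]
  by_cases hc : A.t ≤ A.ix e
  · left; rw [Int.ediv_eq_zero_of_lt (by omega) (by omega)]; exact ⟨by ring, hc⟩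
  · right
    have : (A.ix e - A.t) / A.p = -1 := by
      rw [Int.ediv_eq_iff_of_pos hp]; constructor <;> nlinarith
    rw [this]; exact ⟨by ring, by omega⟩

theorem X_pos (e : ℤ) : 0 < A.F e 1 0 := by
  have := A.hL; have := A.hD
  rcases A.X_step e with h | h <;> rw [h] <;> omega

theorem Z_pos (e : ℤ) : A.W ≤ A.F e 0 1 := by
  have := A.hD
  rcases A.Z_step e with h | h <;> rw [h.1] <;> omega

theorem F_succX (e α β : ℤ) : A.F e α β < A.F e (α + 1) β := by
  have h1 := A.F_add e α β 1 0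
  rw [add_zero] at h1
  have := A.X_pos (A.lab e α β)
  omega

theorem F_succZ (e α β : ℤ) : A.F e α β + A.W ≤ A.F e α (β + 1) := by
  have h1 := A.F_add e α β 0 1
  rw [add_zero] at h1
  have := A.Z_pos (A.lab e α β)
  omega

theorem F_monoX (e β α : ℤ) (n : ℕ) : A.F e α β ≤ A.F e (α + n) β := by
  induction n with
  | zero => simp
  | succ n ih =>
    have h1 := A.F_succX e (α + n) β
    push_cast
    rw [← add_assoc]
    linarith

theorem F_monoZ (e α β : ℤ) (n : ℕ) : A.F e α β + n * A.W ≤ A.F e α (β + n) := by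
  induction n with
  | zero => simp
  | succ n ih =>
    have h1 := A.F_succZ e α (β + n)
    push_cast
    rw [← add_assoc]
    linarith

theorem F_leX (e β : ℤ) {α α' : ℤ} (hα : α ≤ α') : A.F e α β ≤ A.F e α' β := by
  have h1 := A.F_monoX e β α (α' - α).toNat
  rwa [Int.toNat_of_nonneg (by omega), add_sub_cancel] at h1

theorem G_succX (e α β : ℤ) : A.G e α β + 1 ≤ A.G e (α + 1) β := by
  have h1 := A.F_succX e α β
  have hW := A.hW
  have hq := A.hq
  have hh : 0 < A.h := by have := A.h1; have := A.hm; have := A.s1; nlinarith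
  have : 0 < A.q * A.h := mul_pos hq hh
  unfold G
  rw [show A.q * ((α + 1) * A.h - β * A.s) = A.q * (α * A.h - β * A.s) + A.q * A.h by ring]
  omega

theorem G_monoX (e β α : ℤ) (n : ℕ) : A.G e α β + n ≤ A.G e (α + n) β := by
  induction n with
  | zero => simp
  | succ n ih =>
    have h1 := A.G_succX e (α + n) β
    push_cast
    rw [show α + ((n : ℤ) + 1) = α + n + 1 by ring]
    linarith

theorem G_leX (e β : ℤ) {α α' : ℤ} (hα : α ≤ α') : A.G e α β + (α' - α) ≤ A.G e α' β := by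
  have h1 := A.G_monoX e β α (α' - α).toNat
  rwa [Int.toNat_of_nonneg (by omega), add_sub_cancel] at h1

/-- the first node above height `0` -/
theorem exists_first (e β : ℤ) : ∃ α, A.G e (α - 1) β ≤ 0 ∧ 0 < A.G e α β := by
  have h1 : ∃ α, 0 < A.G e α β := by
    refine ⟨(1 - A.G e 0 β).toNat, ?_⟩
    have := A.G_monoX e β 0 (1 - A.G e 0 β).toNat
    rw [zero_add] at this
    have h2 := Int.self_le_toNat (1 - A.G e 0 β)
    omega
  have h2 : ∀ α, 0 < A.G e α β → -|A.G e 0 β| - 1 ≤ α := by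
    intro α hα
    by_contra hc
    have h3 : α ≤ 0 := by have := abs_nonneg (A.G e 0 β); omega
    have := A.G_leX e β h3
    have := le_abs_self (A.G e 0 β)
    omega
  obtain ⟨α, hα, hmin⟩ := Int.exists_least_of_bdd (P := fun α => 0 < A.G e α β) ⟨_, h2⟩ h1
  refine ⟨α, ?_, hα⟩
  by_contra hc
  have := hmin (α - 1) (not_le.1 hc)
  omega


/-- the facts about flatness and the level order -/
structure Ok : Prop where
  inU : ∀ k j, A.N ∣ A.U k - A.U j → A.p ∣ k - j
  inV : ∀ k j, A.N ∣ A.V k - A.V j → A.p ∣ k - j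
  C1 : ∀ e, A.F e 1 A.m + A.q * (A.h - A.m * A.s) < A.N
  C2 : ∀ e, A.F e 2 (A.m + 1) < A.N
  C3 : ∀ e, A.F e 1 0 + A.q * A.h < A.N
  B1 : ∀ i e k, 0 < (A.U e - A.U i) % A.N →
    (A.U e - A.U i) % A.N < (A.U (i + A.h - A.s) - A.U i) % A.N → i - A.s < k → k < i →
    0 < (A.V e - A.V k) % A.N → (A.V e - A.V k) % A.N < (A.V (k + A.h) - A.V k) % A.N → False
  ht : 0 < A.t
  lev : ∀ j, 0 < (A.V (j + 1) - A.V j) % A.N → (A.V (j + 1) - A.V j) % A.N < A.q * A.h →
    A.W ≤ (A.U (j + 1) - A.U j) % A.N ∧ (A.U (j + 1) - A.U j) % A.N ≤ A.N - A.W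
  cop : IsCoprime A.s A.h

variable {A}

theorem emod_of {N x y : ℤ} (h : N ∣ x - y) (h0 : 0 ≤ y) (h1 : y < N) : x % N = y := by
  have h2 : x % N = y % N := (Int.emod_eq_emod_iff_emod_sub_eq_zero).2 (Int.emod_eq_zero_of_dvd h)
  rw [h2, Int.emod_eq_of_lt h0 h1]

namespace Ok

theorem s_h (_o : A.Ok) : A.s < A.h := by
  have := A.h1; have := A.hm; have := A.s1; nlinarith

theorem F1m (o : A.Ok) (e : ℤ) : A.F e 1 A.m + A.q * (A.h - A.m * A.s) < A.N := o.C1 e

theorem F1m' (o : A.Ok) (e : ℤ) : A.F e 1 A.m < A.N := by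
  have h1 := o.F1m e
  have h3 := A.h1
  have h5 := A.hq
  have : 0 < A.q * (A.h - A.m * A.s) := mul_pos h5 (by omega)
  omega

theorem F11 (o : A.Ok) (e : ℤ) : A.F e 1 1 < A.N := by
  have h1 := o.F1m' e
  have hm := A.hm
  have h2 := A.F_monoZ e 1 1 (A.m - 1).toNat
  rw [Int.toNat_of_nonneg (by omega), show 1 + (A.m - 1) = A.m by ring] at h2
  have : 0 ≤ (A.m - 1) * A.W := mul_nonneg (by omega) A.hW.le
  omega

theorem G10 (o : A.Ok) (e : ℤ) : A.G e 1 0 < A.N := by
  have h1 := o.C3 e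
  unfold G
  rwa [show A.q * (1 * A.h - 0 * A.s) = A.q * A.h by ring]

theorem X0 (e : ℤ) : 0 < A.F e 1 0 := A.X_pos e
theorem Z0 (e : ℤ) : 0 < A.F e 0 1 := by have := A.Z_pos e; have := A.hW; omega

theorem G10_pos (e : ℤ) : 0 < A.G e 1 0 := by
  have := A.G_succX e 0 0
  have h0 : A.G e 0 0 = 0 := by unfold G; rw [A.F_zero]; ring
  rw [zero_add] at this
  omega

/-- rule (B1) in the plane -/
theorem B1p (o : A.Ok) {e α β : ℤ} (h1 : A.F e α β < 0) (h2 : 0 < A.F e (α + 1) (β + 1))
    (h3 : A.G e (α - 1) (β - A.m) < 0) (h4 : 0 < A.G e α (β - A.m)) : False := by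
  have a1 := A.F_add e α β 1 1
  have a2 := A.G_add e (α - 1) (β - A.m) 1 0
  rw [sub_add_cancel, add_zero] at a2
  have c1 := A.F_cong e α β
  have c2 := A.F_cong (A.lab e α β) 1 1
  have c3 := A.G_cong e (α - 1) (β - A.m)
  have c4 := A.G_cong (A.lab e (α - 1) (β - A.m)) 1 0
  have b1 := o.F11 (A.lab e α β)
  have b2 := o.G10 (A.lab e (α - 1) (β - A.m))
  have e1 : A.lab (A.lab e α β) 1 1 = A.lab e α β + A.h - A.s := by unfold lab; ring
  have e2 : A.lab (A.lab e (α - 1) (β - A.m)) 1 0 = A.lab e (α - 1) (β - A.m) + A.h := by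
    unfold lab; ring
  rw [e1] at c2
  rw [e2] at c4
  have m1 : (A.U e - A.U (A.lab e α β)) % A.N = -A.F e α β := by
    apply emod_of _ (by omega) (by omega)
    have := (dvd_neg).2 c1
    rwa [show -(A.U (A.lab e α β) - A.U e - A.F e α β)
      = A.U e - A.U (A.lab e α β) - -A.F e α β by ring] at this
  have m2 : (A.U (A.lab e α β + A.h - A.s) - A.U (A.lab e α β)) % A.N
      = A.F (A.lab e α β) 1 1 := emod_of c2 (by omega) b1
  have m3 : (A.V e - A.V (A.lab e (α - 1) (β - A.m))) % A.N = -A.G e (α - 1) (β - A.m) := by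
    apply emod_of _ (by omega) (by omega)
    have := (dvd_neg).2 c3
    rwa [show -(A.V (A.lab e (α - 1) (β - A.m)) - A.V e - A.G e (α - 1) (β - A.m))
      = A.V e - A.V (A.lab e (α - 1) (β - A.m)) - -A.G e (α - 1) (β - A.m) by ring] at this
  have m4 : (A.V (A.lab e (α - 1) (β - A.m) + A.h) - A.V (A.lab e (α - 1) (β - A.m))) % A.N
      = A.G (A.lab e (α - 1) (β - A.m)) 1 0 := emod_of c4 (by omega) b2
  have hk : A.lab e α β - A.lab e (α - 1) (β - A.m) = A.h - A.m * A.s := by unfold lab; ring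
  have g1 := A.h1
  have g2 := A.h2
  rw [add_mul, one_mul] at g2
  refine o.B1 (A.lab e α β) e (A.lab e (α - 1) (β - A.m)) ?_ ?_ (by omega) (by omega) ?_ ?_
  · rw [m1]; omega
  · rw [m1, m2]; omega
  · rw [m3]; omega
  · rw [m3, m4]; omega

/-- one step of the walk -/
theorem step (o : A.Ok) {e α β : ℤ} (hβ : β + A.m < 0) (h1 : A.G e (α - 1) β ≤ 0)
    (h2 : 0 < A.G e α β) (h3 : 0 < A.F e (α + 1) (β + A.m + 1)) : 0 < A.F e α (β + A.m) := by
  have hN := A.N_pos
  have hm := A.hm
  have hW := A.hW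
  have hs := A.s1
  have hsh := o.s_h
  have hNpq := A.hN
  -- negative part of the column `0`
  have neg : ∀ β', β' < 0 → ∀ α', α' ≤ 0 → A.F e α' β' < 0 := by
    intro β' hβ' α' hα'
    have a := A.F_monoZ e 0 β' (-β').toNat
    rw [Int.toNat_of_nonneg (by omega), add_neg_cancel, A.F_zero] at a
    have b := A.F_leX e β' hα'
    have : 0 < (-β') * A.W := mul_pos (by omega) hW
    omega
  have pos : ∀ β', β' < 0 → ∀ α', 0 < α' → 0 < α' * A.h - β' * A.s := by
    intro β' hβ' α' hα'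
    have a : 0 < α' * A.h := mul_pos hα' (by omega)
    have b : 0 < (-β') * A.s := mul_pos (by omega) (by omega)
    rw [neg_mul] at b
    omega
  have h1' : A.G e (α - 1) β ≠ 0 := by
    intro h0
    have c := A.G_cong e (α - 1) β
    rw [h0, sub_zero] at c
    obtain ⟨j, hj⟩ := o.inV _ _ c
    have hF : A.F e (α - 1) β = -(A.N * j) := by
      have : A.G e (α - 1) β = A.F e (α - 1) β + A.q * (A.lab e (α - 1) β - e) := by
        unfold G lab; ring
      rw [h0, hj] at this
      rw [hNpq]; linear_combination -this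
    have hlab : A.lab e (α - 1) β - e = (α - 1) * A.h - β * A.s := by unfold lab; ring
    have j1 : 1 ≤ j := by
      by_contra hc
      rcases le_or_gt (α - 1) 0 with ha | ha
      · have := neg β (by omega) (α - 1) ha
        have : A.N * j ≤ 0 := mul_nonpos_of_nonneg_of_nonpos hN.le (by omega)
        omega
      · have := pos β (by omega) (α - 1) ha
        have : A.p * j ≤ 0 := mul_nonpos_of_nonneg_of_nonpos A.hp.le (by omega)
        omega
    have hNj : A.N * 1 ≤ A.N * j := mul_le_mul_of_nonneg_left j1 hN.le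
    have a := A.F_add e (α - 1) β 2 (A.m + 1)
    rw [show α - 1 + 2 = α + 1 by ring, show β + (A.m + 1) = β + A.m + 1 by ring] at a
    have b := o.C2 (A.lab e (α - 1) β)
    omega
  rcases lt_trichotomy (A.F e α (β + A.m)) 0 with hc | hc | hc
  · exfalso
    apply o.B1p hc h3
    · rw [add_sub_cancel_right]; omega
    · rw [add_sub_cancel_right]; exact h2
  · exfalso
    have c := A.F_cong e α (β + A.m)
    rw [hc, sub_zero] at c
    obtain ⟨j, hj⟩ := o.inU _ _ c
    have ha : 0 < α := by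
      by_contra hcc
      have := neg (β + A.m) hβ α (not_lt.1 hcc)
      omega
    have hlab : A.lab e α (β + A.m) - e = α * A.h - (β + A.m) * A.s := by unfold lab; ring
    have hpos := pos (β + A.m) hβ α ha
    have j1 : 1 ≤ j := by
      by_contra hcc
      have : A.p * j ≤ 0 := mul_nonpos_of_nonneg_of_nonpos A.hp.le (by omega)
      omega
    have hNj : A.N * 1 ≤ A.N * j := mul_le_mul_of_nonneg_left j1 hN.le
    have hG : A.G e α (β + A.m) = A.N * j := by
      have : A.G e α (β + A.m) = A.F e α (β + A.m) + A.q * (A.lab e α (β + A.m) - e) := by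
        unfold G lab; ring
      rw [hc, hj] at this
      rw [hNpq]; linear_combination this
    have a := A.G_add e (α - 1) β 1 A.m
    rw [sub_add_cancel] at a
    have b := o.F1m (A.lab e (α - 1) β)
    have g : A.G (A.lab e (α - 1) β) 1 A.m
        = A.F (A.lab e (α - 1) β) 1 A.m + A.q * (A.h - A.m * A.s) := by unfold G; ring
    omega
  · exact hc

/-- the walk -/
theorem walk (o : A.Ok) {e : ℤ} (he : A.G e (-1) (-(A.m + 1)) < 0) (k : ℕ) :
    ∀ α, A.G e (α - 1) (-(A.m + 1) - k) ≤ 0 → 0 < A.G e α (-(A.m + 1) - k) →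
      0 < A.F e α (-(A.m + 1) - k + A.m) := by
  have hW := A.hW
  have hs := A.s1
  have hq := A.hq
  have hsh := o.s_h
  induction k with
  | zero =>
    intro α h1 h2
    rw [Nat.cast_zero, sub_zero] at h1 h2 ⊢
    apply o.step (by omega) h1 h2
    have ha : 0 ≤ α := by
      by_contra hc
      have := A.G_leX e (-(A.m + 1)) (α := α) (α' := -1) (by omega)
      omega
    rw [show -(A.m + 1) + A.m + 1 = 0 by ring]
    have h3 := A.F_leX e 0 (α := 1) (α' := α + 1) (by omega)
    have := X0 (A := A) e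
    omega
  | succ k ih =>
    intro α' h1 h2
    apply o.step (by push_cast; omega) h1 h2
    obtain ⟨α, g1, g2⟩ := A.exists_first e (-(A.m + 1) - k)
    have g3 := ih α g1 g2
    have e1 : -(A.m + 1) - ((k + 1 : ℕ) : ℤ) + A.m + 1 = -(A.m + 1) - k + A.m := by
      push_cast; ring
    rw [e1]
    have ha : α - 1 ≤ α' := by
      by_contra hc
      have b1 := A.G_leX e (-(A.m + 1) - ((k + 1 : ℕ) : ℤ)) (α := α') (α' := α - 2) (by omega)
      have b2 := A.G_add e (α - 2) (-(A.m + 1) - ((k + 1 : ℕ) : ℤ)) 0 1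
      rw [add_zero, show -(A.m + 1) - ((k + 1 : ℕ) : ℤ) + 1 = -(A.m + 1) - k by push_cast; ring]
        at b2
      have b3 : A.G (A.lab e (α - 2) (-(A.m + 1) - ((k + 1 : ℕ) : ℤ))) 0 1
          = A.F (A.lab e (α - 2) (-(A.m + 1) - ((k + 1 : ℕ) : ℤ))) 0 1 - A.q * A.s := by
        unfold G; ring
      have b4 := Z0 (A := A) (A.lab e (α - 2) (-(A.m + 1) - ((k + 1 : ℕ) : ℤ)))
      have b5 := A.F_succX e (α - 2) (-(A.m + 1) - k)
      rw [show α - 2 + 1 = α - 1 by ring] at b5
      have b6 : A.G e (α - 1) (-(A.m + 1) - k) - A.G e (α - 2) (-(A.m + 1) - k)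
          = A.F e (α - 1) (-(A.m + 1) - k) - A.F e (α - 2) (-(A.m + 1) - k) + A.q * A.h := by
        unfold G; ring
      have b7 : A.q * A.s < A.q * A.h := mul_lt_mul_of_pos_left hsh hq
      omega
    have g4 := A.F_leX e (-(A.m + 1) - k + A.m) (α := α) (α' := α' + 1) (by omega)
    omega

theorem nonsteep (o : A.Ok) {e : ℤ} (he : A.G e (-1) (-(A.m + 1)) < 0) : False := by
  have hW := A.hW
  have hs := A.s1
  have hq := A.hq
  have hm := A.hm
  have hN := A.N_pos
  have hsh := o.s_h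
  have hWs := A.hWs
  obtain ⟨α, g1, g2⟩ := A.exists_first e (-(A.m + 1) - A.N.toNat)
  have g3 := o.walk he A.N.toNat α g1 g2
  have hNn : ((A.N.toNat : ℕ) : ℤ) = A.N := Int.toNat_of_nonneg hN.le
  rw [hNn] at g1 g2 g3
  set b := -(A.m + 1) - A.N with hb
  have a := A.F_add e (α - 1) b 1 A.m
  rw [sub_add_cancel] at a
  have c := o.F1m' (A.lab e (α - 1) b)
  have key : A.F e (α - 1) b ≤ b := by
    rcases le_or_gt (α - 1) 0 with ha | ha
    · have a1 := A.F_monoZ e 0 b (-b).toNat
      rw [Int.toNat_of_nonneg (by omega), add_neg_cancel, A.F_zero] at a1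
      have a2 := A.F_leX e b ha
      nlinarith
    · have a1 : A.G e (α - 1) b = A.F e (α - 1) b + A.q * ((α - 1) * A.h - b * A.s) := rfl
      have a2 : 0 < A.q * ((α - 1) * A.h) := mul_pos hq (mul_pos ha (by omega))
      have a3 : -b ≤ A.q * (-b * A.s) := by nlinarith
      have a4 : A.q * ((α - 1) * A.h - b * A.s) = A.q * ((α - 1) * A.h) + A.q * (-b * A.s) := by
        ring
      omega
  omega


end Ok

/-- ordinate difference -/
def v (A : Dat) (r j : ℤ) : ℤ := (A.V (j + r) - A.V j) % A.N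

/-- all the ordinate differences for the label difference `r` are small -/
def P (A : Dat) (r : ℤ) : Prop := ∀ j, 0 < A.v r j ∧ A.v r j ≤ A.q * A.s - A.W

namespace Ok

theorem qs_lt (_o : A.Ok) : A.q * A.s < A.N := by
  rw [A.hN, mul_comm A.p A.q]
  exact mul_lt_mul_of_pos_left A.sp A.hq

theorem P_s (o : A.Ok) (hst : ∀ e, A.F e 1 (A.m + 1) ≤ A.q * ((A.m + 1) * A.s - A.h)) :
    A.P A.s := by
  have hW := A.hW
  have hD := A.hD
  have hq := A.hq
  have hm := A.hm
  have h1 := A.h1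
  have ql := o.qs_lt
  -- the bound for `D`
  have hDb : A.D + A.W < A.q * A.s := by
    have a1 := hst 0
    have a2 := A.F_leX 0 (A.m + 1) (α := 0) (α' := 1) (by omega)
    have a3 := A.F_monoZ 0 0 1 A.m.toNat
    rw [Int.toNat_of_nonneg (by omega), show 1 + A.m = A.m + 1 by ring] at a3
    have a4 : 0 < A.m * A.W := mul_pos (by omega) hW
    have a5 : A.F 0 0 1 = A.W + A.D := by
      rcases A.Z_step 0 with h | h
      · exfalso
        have i0 : A.ix 0 = 0 := by unfold ix; simp
        have := o.ht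
        omega
      · exact h.1
    have a6 : A.q * ((A.m + 1) * A.s - A.h) ≤ A.q * A.s :=
      mul_le_mul_of_nonneg_left (by rw [add_mul, one_mul]; omega) hq.le
    omega
  intro j
  have c := A.G_cong (j + A.s) 0 1
  have e1 : A.lab (j + A.s) 0 1 = j := by unfold lab; ring
  have e2 : A.G (j + A.s) 0 1 = A.F (j + A.s) 0 1 - A.q * A.s := by unfold G; ring
  rw [e1] at c
  have hv : A.v A.s j = A.q * A.s - A.F (j + A.s) 0 1 := by
    unfold v
    apply emod_of
    · have := (dvd_neg).2 c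
      rwa [show -(A.V j - A.V (j + A.s) - A.G (j + A.s) 0 1)
        = A.V (j + A.s) - A.V j - (A.q * A.s - A.F (j + A.s) 0 1) by rw [e2]; ring] at this
    · rcases A.Z_step (j + A.s) with h | h <;> rw [h.1] <;> omega
    · have := Z0 (A := A) (j + A.s)
      omega
  rw [hv]
  rcases A.Z_step (j + A.s) with h | h <;> rw [h.1] <;> constructor <;> omega

theorem P_r (o : A.Ok) (hst : ∀ e, A.F e 1 (A.m + 1) ≤ A.q * ((A.m + 1) * A.s - A.h)) :
    A.P ((A.m + 1) * A.s - A.h) := by
  have hW := A.hW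
  have hq := A.hq
  have hm := A.hm
  have h1 := A.h1
  have h2 := A.h2
  have sp := A.sp
  have ql := o.qs_lt
  have r0 : (A.m + 1) * A.s - A.h < A.s := by rw [add_mul, one_mul]; omega
  have a6 : A.q * ((A.m + 1) * A.s - A.h) ≤ A.q * A.s :=
    mul_le_mul_of_nonneg_left r0.le hq.le
  intro j
  set r := (A.m + 1) * A.s - A.h with hr
  have c := A.G_cong (j + r) 1 (A.m + 1)
  have e1 : A.lab (j + r) 1 (A.m + 1) = j := by unfold lab; rw [hr]; ring
  have e2 : A.G (j + r) 1 (A.m + 1) = A.F (j + r) 1 (A.m + 1) - A.q * r := by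
    unfold G; rw [hr]; ring
  rw [e1] at c
  have hle := hst (j + r)
  have hF : A.W ≤ A.F (j + r) 1 (A.m + 1) := by
    have a1 := A.F_monoZ (j + r) 1 0 (A.m + 1).toNat
    rw [Int.toNat_of_nonneg (by omega), zero_add] at a1
    have := X0 (A := A) (j + r)
    have a2 : 1 * A.W ≤ (A.m + 1) * A.W := mul_le_mul_of_nonneg_right (by omega) hW.le
    omega
  have hne : A.F (j + r) 1 (A.m + 1) ≠ A.q * r := by
    intro h
    rw [h, sub_self] at e2
    rw [e2, sub_zero] at c
    have := o.inV _ _ c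
    rw [show j - (j + r) = -r by ring, dvd_neg] at this
    have := Int.le_of_dvd (by omega) this
    omega
  have hv : A.v r j = A.q * r - A.F (j + r) 1 (A.m + 1) := by
    unfold v
    apply emod_of
    · have := (dvd_neg).2 c
      rwa [show -(A.V j - A.V (j + r) - A.G (j + r) 1 (A.m + 1))
        = A.V (j + r) - A.V j - (A.q * r - A.F (j + r) 1 (A.m + 1)) by rw [e2]; ring] at this
    · omega
    · omega
  rw [hv]
  constructor <;> omega

/-- consequence of (B1) for short differences -/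
theorem B1s (o : A.Ok) {j ρ : ℤ} (h0 : 0 < ρ) (h1 : ρ < A.s)
    (h2 : 0 < (A.V j - A.V (j + ρ)) % A.N)
    (h3 : (A.V j - A.V (j + ρ)) % A.N < A.q * A.h) : False := by
  have z := Z0 (A := A) (j + A.s)
  have x := X0 (A := A) (A.lab (j + A.s) 0 1)
  have a := A.F_add (j + A.s) 0 1 1 0
  rw [zero_add, add_zero] at a
  have b := o.F11 (j + A.s)
  have c1 := A.F_cong (j + A.s) 0 1
  have c2 := A.F_cong (j + A.s) 1 1
  have e1 : A.lab (j + A.s) 0 1 = j := by unfold lab; ring
  have e2 : A.lab (j + A.s) 1 1 = j + A.s + A.h - A.s := by unfold lab; ring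
  rw [e1] at c1 x a
  rw [e2] at c2
  have m1 : (A.U j - A.U (j + A.s)) % A.N = A.F (j + A.s) 0 1 := emod_of c1 (by omega) (by omega)
  have m2 : (A.U (j + A.s + A.h - A.s) - A.U (j + A.s)) % A.N = A.F (j + A.s) 1 1 :=
    emod_of c2 (by omega) b
  have c4 := A.G_cong (j + ρ) 1 0
  have e4 : A.lab (j + ρ) 1 0 = j + ρ + A.h := by unfold lab; ring
  rw [e4] at c4
  have g := G10_pos (A := A) (j + ρ)
  have m4 : (A.V (j + ρ + A.h) - A.V (j + ρ)) % A.N = A.G (j + ρ) 1 0 :=
    emod_of c4 g.le (o.G10 (j + ρ))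
  have g2 : A.G (j + ρ) 1 0 = A.F (j + ρ) 1 0 + A.q * A.h := by unfold G; ring
  have x2 := X0 (A := A) (j + ρ)
  refine o.B1 (j + A.s) j (j + ρ) ?_ ?_ (by omega) (by omega) h2 ?_
  · rw [m1]; exact z
  · rw [m1, m2]; omega
  · rw [m4]; omega

theorem v_cong (r j : ℤ) : A.N ∣ A.V (j + r) - A.V j - A.v r j := by
  unfold v
  exact Int.dvd_self_sub_emod

/-- closure under differences -/
theorem diff (o : A.Ok) {r r' : ℤ} (hr : A.P r) (hr' : A.P r') (h0 : 0 < r' - r)
    (h1 : r' - r < A.s) (j : ℤ) : 0 < A.v (r' - r) (j + r) ∧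
    A.v r' j = A.v r j + A.v (r' - r) (j + r) := by
  have ql := o.qs_lt
  have hW := A.hW
  have hq := A.hq
  have hsh := o.s_h
  have hs := A.s1
  have b7 : A.q * A.s < A.q * A.h := mul_lt_mul_of_pos_left hsh hq
  have a := hr j
  have b := hr' j
  have c1 := v_cong (A := A) r j
  have c2 := v_cong (A := A) r' j
  have c3 := dvd_sub c2 c1
  have e : j + r + (r' - r) = j + r' := by ring
  rw [show A.V (j + r') - A.V j - A.v r' j - (A.V (j + r) - A.V j - A.v r j)
    = A.V (j + r + (r' - r)) - A.V (j + r) - (A.v r' j - A.v r j) by rw [e]; ring] at c3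
  rcases lt_trichotomy (A.v r' j - A.v r j) 0 with hc | hc | hc
  · exfalso
    have m : (A.V (j + r) - A.V (j + r + (r' - r))) % A.N = -(A.v r' j - A.v r j) := by
      apply emod_of _ (by omega) (by omega)
      have := (dvd_neg).2 c3
      rwa [show -(A.V (j + r + (r' - r)) - A.V (j + r) - (A.v r' j - A.v r j))
        = A.V (j + r) - A.V (j + r + (r' - r)) - -(A.v r' j - A.v r j) by ring] at this
    exact o.B1s h0 h1 (by rw [m]; omega) (by rw [m]; omega)
  · exfalso
    rw [hc, sub_zero] at c3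
    have := o.inV _ _ c3
    rw [show j + r + (r' - r) - (j + r) = r' - r by ring] at this
    have := Int.le_of_dvd h0 this
    have := A.sp
    omega
  · have m : A.v (r' - r) (j + r) = A.v r' j - A.v r j := by
      unfold v at *
      exact emod_of c3 hc.le (by omega)
    omega

theorem P_diff (o : A.Ok) {r r' : ℤ} (hr : A.P r) (hr' : A.P r') (h0 : 0 < r' - r)
    (h1 : r' - r < A.s) : A.P (r' - r) := by
  intro j
  have a := o.diff hr hr' h0 h1 (j - r)
  rw [sub_add_cancel] at a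
  have b := hr (j - r)
  have c := hr' (j - r)
  omega

/-- Euclid -/
theorem P_gcd (o : A.Ok) : ∀ n a b : ℕ, a + b ≤ n → 0 < a → 0 < b → (a : ℤ) ≤ A.s →
    (b : ℤ) ≤ A.s → A.P a → A.P b → A.P (Nat.gcd a b) := by
  intro n
  induction n with
  | zero => intro a b h1 h2; omega
  | succ n ih =>
    intro a b h1 h2 h3 h4 h5 h6 h7
    rcases lt_trichotomy a b with hc | hc | hc
    · have h8 := o.P_diff h6 h7 (by omega) (by omega)
      rw [← Nat.cast_sub hc.le] at h8
      have := ih a (b - a) (by omega) h2 (by omega) h4 (by omega) h6 h8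
      rwa [Nat.gcd_sub_self_right hc.le] at this
    · rw [hc, Nat.gcd_self]; exact h7
    · have h8 := o.P_diff h7 h6 (by omega) (by omega)
      rw [← Nat.cast_sub hc.le] at h8
      have := ih (a - b) b (by omega) (by omega) h3 (by omega) h5 h8 h7
      rwa [Nat.gcd_sub_self_left hc.le] at this

theorem steep (o : A.Ok) (hst : ∀ e, A.F e 1 (A.m + 1) ≤ A.q * ((A.m + 1) * A.s - A.h)) :
    False := by
  have hW := A.hW
  have hq := A.hq
  have hm := A.hm
  have h1 := A.h1
  have h2 := A.h2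
  have hs := A.s1
  have hqW := A.hqW
  have ql := o.qs_lt
  have Ps := o.P_s hst
  have Pr := o.P_r hst
  -- `P 1`
  have P1 : A.P 1 := by
    set r := (A.m + 1) * A.s - A.h with hr
    have r0 : r < A.s := by rw [hr, add_mul, one_mul]; omega
    have g := o.P_gcd _ A.s.toNat r.toNat le_rfl (by omega) (by omega)
      (by rw [Int.toNat_of_nonneg (by omega)]) (by rw [Int.toNat_of_nonneg (by omega)]; omega)
      (by rw [Int.toNat_of_nonneg (by omega)]; exact Ps)
      (by rw [Int.toNat_of_nonneg (by omega)]; exact Pr)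
    have hg : Nat.gcd A.s.toNat r.toNat = 1 := by
      have hcop : IsCoprime A.s r := by
        have := o.cop
        obtain ⟨x, y, hxy⟩ := this
        exact ⟨x + y * (A.m + 1), -y, by rw [hr]; linear_combination hxy⟩
      have h3 := Int.isCoprime_iff_gcd_eq_one.1 hcop
      have h4 : A.s.natAbs = A.s.toNat := by omega
      have h5 : r.natAbs = r.toNat := by omega
      rw [Int.gcd, h4, h5] at h3
      exact h3
    rw [hg] at g
    exact_mod_cast g
  -- lower bound for `v 1`
  have v1 : ∀ j, A.W + A.q ≤ A.v 1 j := by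
    intro j
    have a := P1 j
    have c := v_cong (A := A) 1 j
    have b7 : A.q * A.s < A.q * A.h := mul_lt_mul_of_pos_left o.s_h hq
    have l := o.lev j a.1 (lt_of_le_of_lt a.2 (by omega))
    have e : A.V (j + 1) - A.V j - A.v 1 j = A.U (j + 1) - A.U j - (A.v 1 j - A.q) := by
      unfold V; ring
    rw [e] at c
    rcases lt_or_ge (A.v 1 j - A.q) 0 with hc | hc
    · exfalso
      have : (A.U (j + 1) - A.U j) % A.N = A.v 1 j - A.q + A.N := by
        apply emod_of _ (by omega) (by omega)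
        have := dvd_sub c (dvd_refl A.N)
        rwa [show A.U (j + 1) - A.U j - (A.v 1 j - A.q) - A.N
          = A.U (j + 1) - A.U j - (A.v 1 j - A.q + A.N) by ring] at this
      omega
    · have : (A.U (j + 1) - A.U j) % A.N = A.v 1 j - A.q := emod_of c hc (by omega)
      omega
  -- all the differences
  have all : ∀ i : ℕ, (i : ℤ) < A.s → A.P (A.s - i) := by
    intro i
    induction i with
    | zero => intro _; simpa using Ps
    | succ i ih =>
      intro hi
      push_cast at hi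
      have := o.P_diff P1 (ih (by omega)) (by omega) (by omega)
      rwa [show A.s - (i : ℤ) - 1 = A.s - ((i + 1 : ℕ) : ℤ) by push_cast; ring] at this
  have all' : ∀ r, 1 ≤ r → r ≤ A.s → A.P r := by
    intro r r1 r2
    have := all (A.s - r).toNat (by omega)
    rwa [Int.toNat_of_nonneg (by omega), sub_sub_cancel] at this
  have low : ∀ i : ℕ, (i : ℤ) + 1 ≤ A.s → ∀ j, (i + 1) * (A.W + A.q) ≤ A.v (i + 1) j := by
    intro i
    induction i with
    | zero =>
      intro _ j
      rw [Nat.cast_zero, zero_add, one_mul]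
      exact v1 j
    | succ i ih =>
      intro hi j
      push_cast at hi ⊢
      have a := o.diff P1 (all' (i + 1 + 1) (by omega) (by omega)) (by omega) (by omega) j
      have b := ih (by omega) (j + 1)
      have c := v1 j
      rw [show (i : ℤ) + 1 + 1 - 1 = i + 1 by ring] at a
      rw [a.2]
      nlinarith
  have fin := low (A.s - 1).toNat (by rw [Int.toNat_of_nonneg (by omega)]; omega) 0
  rw [Int.toNat_of_nonneg (by omega), sub_add_cancel] at fin
  have := Ps 0
  have a1 : A.s * (A.W + A.q) = A.s * A.W + A.q * A.s := by ring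
  have a2 : 0 < A.s * A.W := mul_pos (by omega) hW
  omega

/-- **two-valued levels are impossible** -/
theorem contra (o : A.Ok) : False := by
  by_cases hst : ∀ e, A.F e 1 (A.m + 1) ≤ A.q * ((A.m + 1) * A.s - A.h)
  · exact o.steep hst
  · push Not at hst
    obtain ⟨e', he'⟩ := hst
    apply o.nonsteep (e := A.lab e' 1 (A.m + 1))
    have a := A.G_add e' 1 (A.m + 1) (-1) (-(A.m + 1))
    rw [add_neg_cancel, add_neg_cancel] at a
    have b : A.G e' 0 0 = 0 := by unfold G; rw [A.F_zero]; ring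
    have c : A.G e' 1 (A.m + 1) = A.F e' 1 (A.m + 1) - A.q * ((A.m + 1) * A.s - A.h) := by
      unfold G; ring
    omega

end Ok

end Dat

end Pool.Agent.H42.Tie
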