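import Pool.Agent.H98.Tie.VLev
import Pool.Agent.H42.Tie.TV

/-! # The plane model of a configuration in the region `x < 0`, `w + |x| ≤ h`, `ep = -1` -/

namespace Pool.Agent.H78.Tie

open Finset
open Pool.Agent.H98.Flat
open Pool.Agent.H67.Flat

namespace TAp

variable {A : TAp}

namespace VR

variable {T : A.Tie}

theorem sig_bd (h : VR A T) : 3 ≤ T.sig ∧ (A.w : ℤ) + 1 ≤ T.sig ∧ T.sig ≤ A.h := by
  have h1 := T.sig_pos h.x0
  have h2 := h.hs
  have h3 := A.hw
  unfold Tie.sig at *
  omega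

theorem Q_h (h : VR A T) : A.D < A.Q A.h := by
  have h1 := A.hw
  have h2 := A.hh
  have h3 : A.nn = A.w + A.h := rfl
  have := h.P_gt (s := 0) (s' := A.h) le_rfl (by omega) (by omega) (by omega) (by omega)
  unfold P at this
  rwa [A.kap0 (s := 0) (by omega), A.kap0 (s := (A.h : ℤ)) le_rfl, sub_zero, sub_zero, mul_zero,
    add_zero, Int.emod_eq_of_lt (A.Q_nonneg _) (A.Q_lt _)] at this

/-- the plane model -/
def dat (h : VR A T) (cop : IsCoprime T.sig (A.h : ℤ)) : Pool.Agent.H42.Tie.Dat where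
  N := A.NN
  p := A.p
  q := A.q
  h := A.h
  s := T.sig
  m := A.h / T.sig
  W := A.W1
  D := A.D
  L := A.Q A.h
  a := A.a
  E := A.e'
  hN := rfl
  hp := A.p_pos'
  hq := A.q_pos'
  hm := by
    have := h.sig_bd
    rw [Int.le_ediv_iff_mul_le (by omega)]
    omega
  h1 := by
    have := h.sig_bd
    refine lt_of_le_of_ne (Int.ediv_mul_le _ (by omega)) ?_
    intro hc
    have h1 : T.sig ∣ A.h := ⟨A.h / T.sig, by rw [mul_comm]; exact hc.symm⟩
    have h2 : IsUnit T.sig := cop.isUnit_of_dvd' (dvd_refl _) h1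
    rcases Int.isUnit_iff.1 h2 with h3 | h3 <;> omega
  h2 := by
    have := h.sig_bd
    exact Int.lt_ediv_add_one_mul_self _ (by omega)
  s1 := by have := h.sig_bd; omega
  hW := by have := A.W1_bd; have := A.q6; omega
  hWs := by
    have h1 := h.sig_bd
    have h2 : (A.q : ℤ) * (A.w + 1) ≤ A.q * T.sig :=
      mul_le_mul_of_nonneg_left h1.2.1 A.q_pos'.le
    rw [mul_add, mul_one] at h2
    have h3 := A.q6
    unfold W1
    rcases A.hsg with h | h <;> rw [h] <;> omega
  hqW := by have := A.W1_bd; have := A.q6; omega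
  hD := A.D_pos
  hL := by have := h.Q_h; omega
  sp := by
    have h1 := h.sig_bd
    have h2 := A.h2
    omega
  cL := by
    have := (dvd_neg).2 (A.Q_cong A.h)
    rwa [neg_sub] at this
  cW := by
    have h1 := h.at_cong
    have h2 := h.ix_sig
    unfold ix at h2
    rw [h2]
    exact h1
  cD := A.D_cong

variable (h : VR A T) (cop : IsCoprime T.sig (A.h : ℤ))

theorem dat_U (k : ℤ) : (h.dat cop).U k = (A.cfg 0).U k := (A.ix_U k).symm

theorem dat_V (k : ℤ) : (h.dat cop).V k = (A.cfg 0).V k := by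
  unfold Pool.Agent.H42.Tie.Dat.V
  rw [dat_U]
  rfl

theorem dat_X (e : ℤ) : (h.dat cop).F e 1 0 = A.dd e (e + A.h) := by
  have c := (h.dat cop).F_cong e 1 0
  rw [show (h.dat cop).lab e 1 0 = e + A.h by
    unfold Pool.Agent.H42.Tie.Dat.lab; simp [dat], dat_U, dat_U] at c
  have b := h.Q_h
  have b' := A.Q_lt A.h
  have hD := A.D_pos
  unfold dd
  symm
  apply Pool.Agent.H42.Tie.Dat.emod_of c
  · rcases (h.dat cop).X_step e with hx | hx <;> rw [hx] <;> simp only [dat] <;> omega
  · rcases (h.dat cop).X_step e with hx | hx <;> rw [hx] <;> simp only [dat] <;> omega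

theorem dat_Z (e : ℤ) : (h.dat cop).F e 0 1 = A.dd e (e - T.sig) := by
  have c := (h.dat cop).F_cong e 0 1
  rw [show (h.dat cop).lab e 0 1 = e - T.sig by
    unfold Pool.Agent.H42.Tie.Dat.lab; simp [dat], dat_U, dat_U] at c
  have dw := h.DW
  have hD := A.D_pos
  have w := A.W1_bd
  have q6 := A.q6
  unfold dd
  symm
  apply Pool.Agent.H42.Tie.Dat.emod_of c
  · rcases (h.dat cop).Z_step e with hx | hx <;> rw [hx.1] <;> simp only [dat] <;> omega
  · rcases (h.dat cop).Z_step e with hx | hx <;> rw [hx.1] <;> simp only [dat] <;> omega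

end VR

end TAp

end Pool.Agent.H78.Tie
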