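import Mathlib

/-!
# Ties of index one: the combinatorial core
-/

namespace Pool.Agent.H42.Tie

open Finset

/-- number of multiples of `p` in `[z, z + x)` (negative if `x < 0`) -/
def rho (p x z : ℤ) : ℤ := (z + x - 1) / p - (z - 1) / p

/-- indicator of divisibility -/
def dl (p z : ℤ) : ℤ := if p ∣ z then 1 else 0

def bb (p g : ℤ) (w : ℕ) (m : ℤ) : ℤ := ∑ i ∈ range w, dl p (m + g * i)

def ff (p g h om : ℤ) (w : ℕ) (m y : ℤ) : ℤ := ∑ i ∈ range w, dl p (h * m - om * g * (y + i))

theorem dl_tel {p : ℤ} (hp : 0 < p) (z : ℤ) : dl p z = z / p - (z - 1) / p := by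
  unfold dl
  have h0 := Int.mul_ediv_add_emod z p
  have h1 := Int.emod_nonneg z hp.ne'
  have h2 := Int.emod_lt_of_pos z hp
  split_ifs with h
  · have h3 : z % p = 0 := Int.emod_eq_zero_of_dvd h
    have : (z - 1) / p = z / p - 1 := by
      rw [Int.ediv_eq_iff_of_pos hp]
      constructor
      · rw [sub_mul, mul_comm]; omega
      · rw [sub_mul, mul_comm]; omega
    omega
  · have h3 : z % p ≠ 0 := fun h' => h (Int.dvd_of_emod_eq_zero h')
    have : (z - 1) / p = z / p := by
      rw [Int.ediv_eq_iff_of_pos hp]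
      constructor
      · rw [mul_comm]; omega
      · rw [mul_comm]; omega
    omega

/-- `z % p < n` for `n ≤ p` is the jump of `⌊· / p⌋` between `z - n` and `z` -/
theorem lt_tel {p : ℤ} (hp : 0 < p) {n : ℤ} (n0 : 0 ≤ n) (n1 : n ≤ p) (z : ℤ) :
    (if z % p < n then (1 : ℤ) else 0) = z / p - (z - n) / p := by
  have h0 := Int.mul_ediv_add_emod z p
  have h1 := Int.emod_nonneg z hp.ne'
  have h2 := Int.emod_lt_of_pos z hp
  split_ifs with h
  · have : (z - n) / p = z / p - 1 := by
      rw [Int.ediv_eq_iff_of_pos hp]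
      constructor
      · rw [sub_mul, mul_comm]; omega
      · rw [sub_mul, mul_comm]; omega
    omega
  · have : (z - n) / p = z / p := by
      rw [Int.ediv_eq_iff_of_pos hp]
      constructor
      · rw [mul_comm]; omega
      · rw [mul_comm]; omega
    omega

theorem rho_pos {p x : ℤ} (hp : 0 < p) (x0 : 0 < x) (x1 : x < p) (z : ℤ) :
    rho p x z = if (-z) % p < x then 1 else 0 := by
  rw [lt_tel hp x0.le x1.le]
  unfold rho
  -- `⌊-a/p⌋ = -⌊(a-1)/p⌋ - 1`
  have key : ∀ a : ℤ, (-a) / p = -((a - 1) / p) - 1 := by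
    intro a
    rw [Int.ediv_eq_iff_of_pos hp]
    have h0 := Int.mul_ediv_add_emod (a - 1) p
    have h1 := Int.emod_nonneg (a - 1) hp.ne'
    have h2 := Int.emod_lt_of_pos (a - 1) hp
    set t := (a - 1) / p
    have : (-t - 1) * p = -(p * t) - p := by ring
    constructor <;> omega
  rw [key z, show -z - x = -(z + x) by ring, key (z + x)]
  ring

theorem rho_neg {p ξ : ℤ} (hp : 0 < p) (x0 : 0 < ξ) (x1 : ξ < p) (z : ℤ) :
    rho p (-ξ) z = - if (z - 1) % p < ξ then 1 else 0 := by
  rw [lt_tel hp x0.le x1.le]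
  unfold rho
  rw [show z + -ξ - 1 = z - 1 - ξ by ring]
  ring

/-- number of `i < w` with `P ∣ i - z` -/
theorem cw_eq {P : ℤ} (hP : 0 < P) (w : ℕ) (z : ℤ) :
    ∑ i ∈ range w, dl P (i - z) = w / P + if z % P < w % P then 1 else 0 := by
  have e1 : ∀ i ∈ range w, dl P ((i : ℤ) - z) =
      (fun n : ℕ => ((n : ℤ) - z - 1) / P) (i + 1) - (fun n : ℕ => ((n : ℤ) - z - 1) / P) i := by
    intro i _
    rw [dl_tel hP]
    push_cast
    rw [show (i : ℤ) + 1 - z - 1 = i - z by ring]
  rw [Finset.sum_congr rfl e1, Finset.sum_range_sub (fun n : ℕ => ((n : ℤ) - z - 1) / P)]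
  have a0 := Int.mul_ediv_add_emod z P
  have a1 := Int.emod_nonneg z hP.ne'
  have a2 := Int.emod_lt_of_pos z hP
  have b0 := Int.mul_ediv_add_emod (w : ℤ) P
  have b1 := Int.emod_nonneg (w : ℤ) hP.ne'
  have b2 := Int.emod_lt_of_pos (w : ℤ) hP
  have e2 : (((0 : ℕ) : ℤ) - z - 1) / P = -(z / P) - 1 := by
    rw [Int.ediv_eq_iff_of_pos hP, show (-(z / P) - 1) * P = -(P * (z / P)) - P by ring]
    constructor <;> omega
  have e3 : ((w : ℤ) - z - 1) / P = w / P - z / P - 1 + if z % P < w % P then 1 else 0 := by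
    rw [Int.ediv_eq_iff_of_pos hP]
    split_ifs with c
    · rw [show ((w : ℤ) / P - z / P - 1 + 1) * P = P * (w / P) - P * (z / P) by ring]
      constructor <;> omega
    · rw [show ((w : ℤ) / P - z / P - 1 + 0) * P = P * (w / P) - P * (z / P) - P by ring]
      constructor <;> omega
  rw [e2, e3]; ring

/-- reduction to the modulus `P = p / gcd(g, p)` -/
theorem red {p g h om x : ℤ} {w : ℕ} (hp : 0 < p) (hom : om = 1 ∨ om = -1)
    (H : ∀ m y, |rho p x m - rho p x y - bb p g w m + ff p g h om w m y| ≤ 1) :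
    ∃ P : ℤ, 0 < P ∧ P ∣ p ∧ (∀ z, p ∣ g * z ↔ P ∣ z) ∧
      ∀ j y, |rho p x (-(g * j)) - rho p x y - (if j % P < w % P then 1 else 0)
        + (if (-(om * h * j) - y) % P < w % P then 1 else 0)| ≤ 1 := by
  obtain ⟨g1, hg1⟩ := Int.gcd_dvd_left (a := g) (b := p)
  obtain ⟨P, hP⟩ := Int.gcd_dvd_right (a := g) (b := p)
  have bez := Int.gcd_eq_gcd_ab g p
  set d : ℤ := (Int.gcd g p : ℤ) with hd
  have d0 : 0 < d := by
    rw [hd]
    exact_mod_cast Int.gcd_pos_of_ne_zero_right g hp.ne'
  have P0 : 0 < P := by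
    by_contra hc
    have : d * P ≤ 0 := by nlinarith
    omega
  have cop : IsCoprime g1 P := by
    refine ⟨Int.gcdA g p, Int.gcdB g p, ?_⟩
    apply mul_left_cancel₀ d0.ne'
    linear_combination -bez - (Int.gcdA g p) * hg1 - (Int.gcdB g p) * hP
  have iff1 : ∀ z, p ∣ g * z ↔ P ∣ z := by
    intro z
    constructor
    · rintro ⟨c, hc⟩
      have : P ∣ g1 * z := by
        refine ⟨c, mul_left_cancel₀ d0.ne' ?_⟩
        linear_combination hc - z * hg1 + c * hP
      exact cop.symm.dvd_of_dvd_mul_left this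
    · rintro ⟨c, hc⟩
      refine ⟨g1 * c, ?_⟩
      rw [hc]
      linear_combination P * c * hg1 - g1 * c * hP
  refine ⟨P, P0, ⟨d, by linear_combination hP⟩, iff1, fun j y => ?_⟩
  have hb : bb p g w (-(g * j)) = w / P + if j % P < w % P then 1 else 0 := by
    rw [← cw_eq P0]
    unfold bb
    refine Finset.sum_congr rfl fun i _ => ?_
    unfold dl
    refine if_congr ?_ rfl rfl
    rw [← iff1, show -(g * j) + g * (i : ℤ) = g * (i - j) by ring]
  have hf : ff p g h om w (-(g * j)) y
      = w / P + if (-(om * h * j) - y) % P < w % P then 1 else 0 := by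
    rw [← cw_eq P0]
    unfold ff
    refine Finset.sum_congr rfl fun i _ => ?_
    unfold dl
    refine if_congr ?_ rfl rfl
    rw [← iff1]
    have ho : om * om = 1 := by rcases hom with rfl | rfl <;> norm_num
    have e : h * -(g * j) - om * g * (y + i) = -om * (g * (i - (-(om * h * j) - y))) := by
      linear_combination (h * g * j) * ho
    rw [e]
    rcases hom with rfl | rfl
    · rw [neg_one_mul, dvd_neg]
    · rw [neg_neg, one_mul]
  have := H (-(g * j)) y
  rw [hb, hf] at this
  rwa [show ∀ a b c d e : ℤ, a - b - (c + d) + (c + e) = a - b - d + e by intros; ring] at this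

theorem dvd_of_emod_eq {p a b : ℤ} (h : a % p = b % p) : p ∣ a - b :=
  Int.dvd_of_emod_eq_zero (Int.emod_eq_emod_iff_emod_sub_eq_zero.1 h)

theorem eq_of_dvd_lt {P a b : ℤ} (h : P ∣ a - b) (a0 : 0 ≤ a) (aP : a < P) (b0 : 0 ≤ b)
    (bP : b < P) : a = b := by
  have := Int.eq_zero_of_abs_lt_dvd h (by rw [abs_lt]; constructor <;> omega)
  omega

/-- counting lemma for `x > 0` -/
theorem core_pos {p g h om x P b : ℤ} (hp : 0 < p) (P0 : 0 < P)
    (iff1 : ∀ z, p ∣ g * z ↔ P ∣ z) (hch : IsCoprime (om * h) P)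
    (b2 : 2 ≤ b) (bP : b < P) (x0 : 0 < x) (xp : x < p)
    (hT : P ∣ -(om * h * b) - (b - x)) (g0 : ¬ g % p < x)
    (H : ∀ j y, |rho p x (-(g * j)) - rho p x y - (if j % P < b then 1 else 0)
        + (if (-(om * h * j) - y) % P < b then 1 else 0)| ≤ 1) : False := by
  classical
  set A := (Ico (0 : ℤ) b).filter (fun j => (g * j) % p < x) with hA
  set S := (Ico (0 : ℤ) b).filter (fun j => ¬ (g * j) % p < x) with hS
  have cA : A.card ≤ (Ico (0 : ℤ) x).card := by
    apply Finset.card_le_card_of_injOn (fun j => (g * j) % p)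
    · intro j hj
      have hj' := (Finset.mem_filter.1 hj)
      simp only [Finset.coe_Ico, Set.mem_Ico]
      exact ⟨Int.emod_nonneg _ hp.ne', hj'.2⟩
    · intro j hj i hi hij
      have hj' := Finset.mem_Ico.1 (Finset.mem_filter.1 hj).1
      have hi' := Finset.mem_Ico.1 (Finset.mem_filter.1 hi).1
      have h1 := dvd_of_emod_eq hij
      rw [← mul_sub, iff1] at h1
      exact eq_of_dvd_lt h1 (by omega) (by omega) (by omega) (by omega)
  have cAS : A.card + S.card = (Ico (0 : ℤ) b).card := by
    rw [hA, hS]; exact Finset.card_filter_add_card_filter_not _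
  -- the image
  have img : ∀ j ∈ S, (-(om * h * j)) % P ∈ Ioo (0 : ℤ) (b - x) := by
    intro j hj
    have hj1 := Finset.mem_Ico.1 (Finset.mem_filter.1 hj).1
    have hj2 := (Finset.mem_filter.1 hj).2
    have z0 := Int.emod_nonneg (-(om * h * j)) P0.ne'
    have z1 := Int.emod_lt_of_pos (-(om * h * j)) P0
    have ze := Int.mul_ediv_add_emod (-(om * h * j)) P
    set z := (-(om * h * j)) % P
    have rj : rho p x (-(g * j)) = 0 := by
      rw [rho_pos hp x0 xp, neg_neg, if_neg hj2]
    have jb : j % P = j := Int.emod_eq_of_lt hj1.1 (by omega)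
    have key : ∀ s, 0 ≤ s → s < x → (z + s) % P < b := by
      intro s s0 s1
      by_contra hc
      have h1 := H j (-s)
      rw [rj, rho_pos hp x0 xp, neg_neg, Int.emod_eq_of_lt s0 (by omega), if_pos s1, jb,
        if_pos hj1.2, if_neg] at h1
      · norm_num at h1
      · intro h2
        apply hc
        rw [show -(om * h * j) - -s = z + s + P * (-(om * h * j) / P) by
          linear_combination -ze, Int.add_mul_emod_self_left] at h2
        exact h2
    have zne : z ≠ 0 := by
      intro h1
      have h2 : P ∣ om * h * j := by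
        rw [← dvd_neg]; exact Int.dvd_of_emod_eq_zero h1
      have h3 := hch.symm.dvd_of_dvd_mul_left h2
      have h4 := eq_of_dvd_lt (P := P) (a := j) (b := 0) (by rwa [sub_zero]) hj1.1 (by omega)
        le_rfl P0
      subst h4
      apply hj2
      rw [mul_zero, Int.zero_emod]; exact x0
    have zb : z < b := by
      have := key 0 le_rfl x0
      rwa [add_zero, Int.emod_eq_of_lt z0 z1] at this
    have zbx : z ≤ b - x := by
      by_contra hc
      have := key (b - z) (by omega) (by omega)
      rw [show z + (b - z) = b by ring, Int.emod_eq_of_lt (by omega) bP] at this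
      omega
    have zbx' : z ≠ b - x := by
      intro h1
      have h2 : P ∣ (om * h) * (b - j) := by
        have h3 : P ∣ -(om * h * j) - z := ⟨-(om * h * j) / P, by linear_combination -ze⟩
        have := dvd_sub h3 hT
        rw [h1] at this
        rwa [show -(om * h * j) - (b - x) - (-(om * h * b) - (b - x)) = (om * h) * (b - j) by ring]
          at this
      have h3 := hch.symm.dvd_of_dvd_mul_left h2
      have := eq_of_dvd_lt h3 (by omega) bP hj1.1 (by omega)
      omega
    rw [Finset.mem_Ioo]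
    constructor <;> omega
  have cS : S.card ≤ (Ioo (0 : ℤ) (b - x)).card := by
    apply Finset.card_le_card_of_injOn (fun j => (-(om * h * j)) % P)
    · intro j hj; exact img j hj
    · intro j hj i hi hij
      have hj' := Finset.mem_Ico.1 (Finset.mem_filter.1 hj).1
      have hi' := Finset.mem_Ico.1 (Finset.mem_filter.1 hi).1
      have h1 := dvd_of_emod_eq hij
      have h2 : P ∣ (om * h) * (i - j) := by
        rwa [show -(om * h * j) - -(om * h * i) = (om * h) * (i - j) by ring] at h1
      have h3 := hch.symm.dvd_of_dvd_mul_left h2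
      exact (eq_of_dvd_lt h3 (by omega) (by omega) (by omega) (by omega)).symm
  have one : (1 : ℤ) ∈ S := by
    rw [hS, Finset.mem_filter, Finset.mem_Ico, mul_one]
    exact ⟨by omega, g0⟩
  have := Finset.mem_Ioo.1 (img 1 one)
  rw [Int.card_Ico] at cA cAS
  rw [Int.card_Ioo] at cS
  omega

/-- counting lemma for `x < 0` -/
theorem core_neg {p g h om ξ P b : ℤ} (hp : 0 < p) (P0 : 0 < P)
    (iff1 : ∀ z, p ∣ g * z ↔ P ∣ z) (hch : IsCoprime (om * h) P)
    (b1 : 1 ≤ b) (bP : b < P) (x0 : 0 < ξ) (xp : ξ < p)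
    (hT : P ∣ -(om * h * b) - (b + ξ)) (hg1 : ¬ (g - 1) % p < ξ) (hbA : (-(g * b) - 1) % p < ξ)
    (H : ∀ j y, |rho p (-ξ) (-(g * j)) - rho p (-ξ) y - (if j % P < b then 1 else 0)
        + (if (-(om * h * j) - y) % P < b then 1 else 0)| ≤ 1) : False := by
  classical
  set A := (Ico b P).filter (fun j => (-(g * j) - 1) % p < ξ) with hA
  set S := (Ico b P).filter (fun j => ¬ (-(g * j) - 1) % p < ξ) with hS
  have cA : A.card ≤ (Ico (0 : ℤ) ξ).card := by
    apply Finset.card_le_card_of_injOn (fun j => (-(g * j) - 1) % p)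
    · intro j hj
      have hj' := (Finset.mem_filter.1 hj)
      simp only [Finset.coe_Ico, Set.mem_Ico]
      exact ⟨Int.emod_nonneg _ hp.ne', hj'.2⟩
    · intro j hj i hi hij
      have hj' := Finset.mem_Ico.1 (Finset.mem_filter.1 hj).1
      have hi' := Finset.mem_Ico.1 (Finset.mem_filter.1 hi).1
      have h1 := dvd_of_emod_eq hij
      rw [show -(g * j) - 1 - (-(g * i) - 1) = g * (i - j) by ring, iff1] at h1
      exact (eq_of_dvd_lt h1 (by omega) (by omega) (by omega) (by omega)).symm
  have cAS : A.card + S.card = (Ico b P).card := by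
    rw [hA, hS]; exact Finset.card_filter_add_card_filter_not _
  have img : ∀ j ∈ S, (-(om * h * j)) % P ∈ Ioo (b + ξ) P := by
    intro j hj
    have hj1 := Finset.mem_Ico.1 (Finset.mem_filter.1 hj).1
    have hj2 := (Finset.mem_filter.1 hj).2
    have z0 := Int.emod_nonneg (-(om * h * j)) P0.ne'
    have z1 := Int.emod_lt_of_pos (-(om * h * j)) P0
    have ze := Int.mul_ediv_add_emod (-(om * h * j)) P
    set z := (-(om * h * j)) % P
    have rj : rho p (-ξ) (-(g * j)) = 0 := by
      rw [rho_neg hp x0 xp, if_neg hj2, neg_zero]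
    have jb : j % P = j := Int.emod_eq_of_lt (by omega) hj1.2
    have key : ∀ y, 1 ≤ y → y ≤ ξ → ¬ (z - y) % P < b := by
      intro y y0 y1 hc
      have h1 := H j y
      rw [rj, rho_neg hp x0 xp, Int.emod_eq_of_lt (by omega) (by omega), if_pos (by omega), jb,
        if_neg (by omega), if_pos] at h1
      · norm_num at h1
      · rw [show -(om * h * j) - y = z - y + P * (-(om * h * j) / P) by
          linear_combination -ze, Int.add_mul_emod_self_left]
        exact hc
    have zne : z ≠ 0 := by
      intro h1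
      have h2 : P ∣ om * h * j := by
        rw [← dvd_neg]; exact Int.dvd_of_emod_eq_zero h1
      have h3 := hch.symm.dvd_of_dvd_mul_left h2
      have h4 := eq_of_dvd_lt (P := P) (a := j) (b := 0) (by rwa [sub_zero]) (by omega) hj1.2
        le_rfl P0
      omega
    have zb : b + ξ ≤ z := by
      by_contra hc
      rcases le_or_gt z b with c | c
      · apply key 1 le_rfl (by omega)
        rw [Int.emod_eq_of_lt (by omega) (by omega)]; omega
      · apply key (z - b + 1) (by omega) (by omega)
        rw [show z - (z - b + 1) = b - 1 by ring, Int.emod_eq_of_lt (by omega) (by omega)]; omega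
    have zb' : z ≠ b + ξ := by
      intro h1
      have h2 : P ∣ (om * h) * (j - b) := by
        have h3 : P ∣ -(om * h * j) - z := ⟨-(om * h * j) / P, by linear_combination -ze⟩
        have := dvd_sub hT h3
        rw [h1] at this
        rwa [show -(om * h * b) - (b + ξ) - (-(om * h * j) - (b + ξ)) = (om * h) * (j - b) by ring]
          at this
      have h3 := hch.symm.dvd_of_dvd_mul_left h2
      have := eq_of_dvd_lt h3 (by omega) hj1.2 (by omega) bP
      subst this
      exact hj2 hbA
    rw [Finset.mem_Ioo]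
    constructor <;> omega
  have cS : S.card ≤ (Ioo (b + ξ) P).card := by
    apply Finset.card_le_card_of_injOn (fun j => (-(om * h * j)) % P)
    · intro j hj; exact img j hj
    · intro j hj i hi hij
      have hj' := Finset.mem_Ico.1 (Finset.mem_filter.1 hj).1
      have hi' := Finset.mem_Ico.1 (Finset.mem_filter.1 hi).1
      have h1 := dvd_of_emod_eq hij
      have h2 : P ∣ (om * h) * (i - j) := by
        rwa [show -(om * h * j) - -(om * h * i) = (om * h) * (i - j) by ring] at h1
      have h3 := hch.symm.dvd_of_dvd_mul_left h2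
      exact (eq_of_dvd_lt h3 (by omega) (by omega) (by omega) (by omega)).symm
  have one : (P - 1 : ℤ) ∈ S := by
    rw [hS, Finset.mem_filter, Finset.mem_Ico]
    refine ⟨by omega, ?_⟩
    have : p ∣ g * P := (iff1 P).2 (dvd_refl P)
    obtain ⟨c, hc⟩ := this
    rwa [show -(g * (P - 1)) - 1 = g - 1 + p * (-c) by linear_combination -hc,
      Int.add_mul_emod_self_left]
  have := Finset.mem_Ioo.1 (img _ one)
  rw [Int.card_Ico] at cA cAS
  rw [Int.card_Ioo] at cS
  omega

/-- the combinatorial core: the function `F` of a tie of index one takes a value of modulus `2` -/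
theorem core {p g h om x : ℤ} {w : ℕ} (hom : om = 1 ∨ om = -1) (hg : g = 1 + om * h)
    (hgw : p ∣ g * w - x) (w2 : 2 * (w : ℤ) < p) (hh : 2 ≤ h) (h2 : 2 * h < p)
    (hc : IsCoprime h p) (hx : x ≠ 0) (hx' : |x| < h)
    (H : ∀ m y, |rho p x m - rho p x y - bb p g w m + ff p g h om w m y| ≤ 1) : False := by
  have hp : 0 < p := by omega
  have hxa := abs_lt.1 hx'
  obtain ⟨P, P0, hPp, iff1, H'⟩ := red hp hom H
  have hch : IsCoprime (om * h) P := by
    have h1 : IsCoprime h P := hc.of_isCoprime_of_dvd_right hPp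
    rcases hom with rfl | rfl
    · rwa [one_mul]
    · rw [neg_one_mul]; exact h1.neg_left
  have b0 := Int.emod_nonneg (w : ℤ) P0.ne'
  have bP := Int.emod_lt_of_pos (w : ℤ) P0
  have be := Int.mul_ediv_add_emod (w : ℤ) P
  set b := (w : ℤ) % P with hb
  have hgb : p ∣ g * b - x := by
    have h1 : p ∣ g * (P * (w / P)) := by rw [iff1]; exact dvd_mul_right _ _
    have := dvd_sub hgw h1
    rwa [show g * (w : ℤ) - x - g * (P * (w / P)) = g * b - x by
      linear_combination (-g) * be] at this
  have hT : P ∣ -(om * h * b) - (b - x) := by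
    have := hPp.trans hgb
    rw [← dvd_neg]
    rwa [show -(-(om * h * b) - (b - x)) = g * b - x by rw [hg]; ring]
  have bne : b ≠ 0 := by
    intro h0
    rw [h0, mul_zero, zero_sub, dvd_neg] at hgb
    have := Int.eq_zero_of_abs_lt_dvd hgb (by omega)
    exact hx this
  rcases lt_or_gt_of_ne hx with x0 | x0
  · -- `x < 0`
    obtain ⟨ξ, rfl⟩ : ∃ ξ, x = -ξ := ⟨-x, by ring⟩
    refine core_neg (b := b) hp P0 iff1 hch (by omega) bP (ξ := ξ) (by omega) (by omega)
      (by rwa [sub_neg_eq_add] at hT) ?_ ?_ H'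
    · rw [hg]
      rcases hom with rfl | rfl
      · rw [show 1 + 1 * h - 1 = h by ring, Int.emod_eq_of_lt (by omega) (by omega)]; omega
      · rw [show 1 + -1 * h - 1 = p - h + p * (-1) by ring, Int.add_mul_emod_self_left,
          Int.emod_eq_of_lt (by omega) (by omega)]; omega
    · obtain ⟨c, hc⟩ := hgb
      rw [show -(g * b) - 1 = ξ - 1 + p * (-c) by linear_combination -hc,
        Int.add_mul_emod_self_left, Int.emod_eq_of_lt (by omega) (by omega)]; omega
  · have b1 : b ≠ 1 := by
      intro h1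
      rw [h1, mul_one, hg] at hgb
      rcases hom with rfl | rfl
      · have := Int.eq_zero_of_abs_lt_dvd hgb (by rw [abs_lt]; constructor <;> omega)
        omega
      · have := Int.eq_zero_of_abs_lt_dvd hgb (by rw [abs_lt]; constructor <;> omega)
        omega
    refine core_pos (b := b) hp P0 iff1 hch (by omega) bP (x := x) (by omega) (by omega)
      hT ?_ H'
    rw [hg]
    rcases hom with rfl | rfl
    · rw [show 1 + 1 * h = h + 1 by ring, Int.emod_eq_of_lt (by omega) (by omega)]; omega
    · rw [show 1 + -1 * h = p + 1 - h + p * (-1) by ring, Int.add_mul_emod_self_left,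
        Int.emod_eq_of_lt (by omega) (by omega)]; omega

end Pool.Agent.H42.Tie
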