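import Pool.Agent.H42.Tie.Lev

/-!
# The cycle of a level
-/

namespace Pool.Agent.H78.Tie

open Finset
open Pool.Agent.H98.Flat
open Pool.Agent.H67.Flat

set_option linter.dupNamespace false
set_option linter.unusedVariables false

namespace TAp

variable {A : TAp}

/-- lower bound of the steps -/
def bb (A : TAp) (s : ℤ) : ℤ := if s < A.w then A.q * s else A.W1 - A.q * A.kap s

namespace VR

variable {T : A.Tie}

theorem bb_le (h : VR A T) (hG : A.GC) (y : ℤ) {s : ℤ} (s0 : 0 ≤ s) (s1 : s < A.nn) :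
    A.bb s ≤ A.cd y s (T.nxt s) := by
  have p5 := A.p5
  unfold bb
  split_ifs with c
  · have e : T.nxt s = s + A.h := by unfold Tie.nxt; rw [if_pos c]
    rw [e, h.cd_h s0 c]
    have := h.ell_bd (y + s)
    omega
  · have a := h.Nx_nxt hG s0 s1
    exact h.cd_rb y s0 s1 a.2.2.1 a.2.2.2.1 (Ne.symm a.2.2.2.2.1) (by omega)

theorem sum_cd (h : VR A T) (hG : A.GC) (y : ℤ) :
    ∑ i ∈ range (A.w + A.h), A.cd y i (T.nxt i) ≤ A.NN := by
  have hn : A.nn = A.w + A.h := rfl
  have hp : 0 < A.p := A.hp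
  have hq : 0 < A.q := A.hq
  have e : ((A.p * A.q : ℕ) : ℤ) = A.NN := by unfold NN; push_cast; rfl
  have := arcs_le (A.p * A.q) (Nat.mul_pos hp hq) (A.w + A.h) (fun i => A.cs y i)
    (fun i => A.cd y i (T.nxt i)) (fun i _ => A.cd_nonneg _ _ _)
    (fun i _ => by rw [e]; exact (A.cd_lt _ _ _).le) (by
      intro i hi j hj hne u h1 h2
      rw [e] at h1 h2
      have a := h.Nx_nxt hG (s := (i : ℤ)) (by omega) (by omega)
      have b := h.Nx_nxt hG (s := (j : ℤ)) (by omega) (by omega)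
      exact h.arc_disj (h.Nx_le a y (j := (j : ℤ)) (by omega) (by omega) (by omega))
        (h.Nx_le b y (j := (i : ℤ)) (by omega) (by omega) (by omega)) h1 h2)
  rw [e] at this
  exact this

theorem sum_bb (h : VR A T) : ∑ i ∈ range (A.w + A.h), A.bb i = A.h * A.W1 := by
  obtain ⟨hn, b1, b2, b3, b4, b5, b6, b7, b8⟩ := h.basic
  obtain ⟨d, hd⟩ := Nat.exists_eq_add_of_le (show A.w ≤ A.h by omega)
  have e1 : ∑ i ∈ range A.w, A.bb i = ∑ i ∈ range A.w, (A.q : ℤ) * i := by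
    refine Finset.sum_congr rfl fun i hi => ?_
    have := Finset.mem_range.1 hi
    unfold bb
    rw [if_pos (by omega)]
  have e2 : ∑ i ∈ range d, A.bb ((A.w + i : ℕ) : ℤ) = d * A.W1 := by
    rw [Finset.sum_congr rfl (g := fun _ => A.W1)]
    · rw [Finset.sum_const, Finset.card_range, nsmul_eq_mul]
    · intro i hi
      have := Finset.mem_range.1 hi
      unfold bb
      rw [if_neg (by push_cast; omega), A.kap0 (by push_cast; omega), mul_zero, sub_zero]
  have e3 : ∑ i ∈ range A.w, A.bb ((A.w + (d + i) : ℕ) : ℤ)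
      = A.w * A.W1 - ∑ i ∈ range A.w, (A.q : ℤ) * i := by
    rw [eq_sub_iff_add_eq, ← Finset.sum_add_distrib,
      Finset.sum_congr rfl (g := fun _ => A.W1)]
    · rw [Finset.sum_const, Finset.card_range, nsmul_eq_mul]
    · intro i hi
      have := Finset.mem_range.1 hi
      unfold bb
      rw [if_neg (by push_cast; omega), A.kaph (by push_cast; omega), show
        (((A.w + (d + i) : ℕ) : ℤ) - A.h) = i by rw [hd]; push_cast; ring]
      ring
  rw [Finset.sum_range_add, e1]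
  have e4 : range A.h = range (d + A.w) := by rw [hd, add_comm]
  rw [e4, Finset.sum_range_add (fun x => A.bb ((A.w + x : ℕ) : ℤ)), e2, e3]
  rw [hd]; push_cast; ring

theorem exc_le (h : VR A T) (hG : A.GC) (y : ℤ) {S : Finset ℕ} (hS : S ⊆ range (A.w + A.h)) :
    ∑ i ∈ S, A.cd y i (T.nxt i) ≤ A.NN - A.h * A.W1 + ∑ i ∈ S, A.bb i := by
  have hn : A.nn = A.w + A.h := rfl
  have h1 : ∑ i ∈ S, (A.cd y i (T.nxt i) - A.bb i)
      ≤ ∑ i ∈ range (A.w + A.h), (A.cd y i (T.nxt i) - A.bb i) := by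
    apply Finset.sum_le_sum_of_subset_of_nonneg hS
    intro i hi _
    have := Finset.mem_range.1 hi
    have := h.bb_le hG y (s := (i : ℤ)) (by omega) (by omega)
    omega
  rw [Finset.sum_sub_distrib, Finset.sum_sub_distrib, h.sum_bb] at h1
  have := h.sum_cd hG y
  omega

variable (h : VR A T) (cp : IsCoprime T.sig (A.h : ℤ))

/-- steps -/
theorem st10 (y : ℤ) {s : ℤ} (s0 : 0 ≤ s) (s1 : s < A.w) :
    A.cd y s (s + A.h) = (h.dat cp).F (y + s) 1 0 + A.q * (A.kap (s + A.h) - A.kap s) := by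
  obtain ⟨hn, b1, b2, b3, b4, b5, b6, b7, b8⟩ := h.basic
  rw [h.cd_h s0 s1, h.dat_X cp, A.kap0 (s := s) (by omega), A.kaph (s := s + A.h) (by omega)]
  change A.dd _ (y + s + A.h) + _ = _
  rw [add_sub_cancel_right, sub_zero]

theorem st01 (y : ℤ) {s : ℤ} (s0 : T.sig ≤ s) (s1 : s < A.nn) :
    A.cd y s (s - T.sig) = (h.dat cp).F (y + s) 0 1 + A.q * (A.kap (s - T.sig) - A.kap s) := by
  obtain ⟨hn, b1, b2, b3, b4, b5, b6, b7, b8⟩ := h.basic
  have hz := h.dat_Z cp (y + s)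
  have c1 := A.cd_cong y s (s - T.sig)
  have c2 := A.dd_cong (y + s) (y + s - T.sig)
  have d0 := A.dd_nonneg (y + s) (y + s - T.sig)
  have d1 := A.dd_lt (y + s) (y + s - T.sig)
  have k := qk A s1
  have e0 := A.cd_nonneg y s (s - T.sig)
  have e1 := A.cd_lt y s (s - T.sig)
  have q6 := A.q6
  have zp := (h.dat cp).Z_pos (y + s)
  rw [hz] at zp ⊢
  have zp' : A.W1 ≤ A.dd (y + s) (y + s - T.sig) := zp
  rw [A.kap0 (s := s - T.sig) (by omega), zero_sub, mul_neg]
  unfold cs at c1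
  rw [A.kap0 (s := s - T.sig) (by omega), mul_zero, add_zero] at c1
  apply eq_of_dvd (N := A.NN) _ (by rcases b8 with h | h <;> rw [h] at b6 <;> omega)
    (by omega)
  have := dvd_sub c1 c2
  rw [show y + (s - T.sig) = y + s - T.sig by ring] at this
  rwa [show A.cd y s (s - T.sig) - ((A.cfg 0).U (y + s - T.sig)
    - ((A.cfg 0).U (y + s) + A.q * A.kap s)) - (A.dd (y + s) (y + s - T.sig)
    - ((A.cfg 0).U (y + s - T.sig) - (A.cfg 0).U (y + s)))
    = A.cd y s (s - T.sig) - (A.dd (y + s) (y + s - T.sig) + -(A.q * A.kap s)) by ring] at this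

/-- a path on level `y` which starts at `s` -/
def Pth (y s α β : ℤ) : Prop :=
  0 ≤ s + α * A.h - β * T.sig ∧ s + α * A.h - β * T.sig < A.nn ∧
    s + α * A.h - β * T.sig ≠ s ∧
    A.cd y s (s + α * A.h - β * T.sig) = (h.dat cp).F (y + s) α β
      + A.q * (A.kap (s + α * A.h - β * T.sig) - A.kap s)

theorem Pth_step {y s α β α' β' x x' : ℤ} (s0 : 0 ≤ s) (s1 : s < A.nn)
    (a : h.Pth cp y s α β) (hx : x = s + α * A.h - β * T.sig)
    (hx' : x' = x + α' * A.h - β' * T.sig) (hn : A.Nx x x') (hne : x' ≠ s)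
    (hs : A.cd y x x' = (h.dat cp).F (y + x) α' β' + A.q * (A.kap x' - A.kap x)) :
    h.Pth cp y s (α + α') (β + β') := by
  obtain ⟨a1, a2, a3, a4⟩ := a
  rw [← hx] at a1 a2 a3 a4
  have e : s + (α + α') * A.h - (β + β') * T.sig = x' := by rw [hx', hx]; ring
  have n1 := hn.2.2.1
  have n2 := hn.2.2.2.1
  have n3 := hn.2.2.2.2.1
  have h1 := h.Nx_lt hn y s0 s1 (Ne.symm a3) (Ne.symm hne)
  have h2 := h.cd_add y h1.le
  have h3 := h.cd_symm y s0 s1 a1 a2 (Ne.symm a3)
  have h4 := h.cd_symm y s0 s1 n1 n2 (Ne.symm hne)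
  have h5 : y + x = (h.dat cp).lab (y + s) α β := by
    rw [hx]
    unfold Pool.Agent.H42.Tie.Dat.lab
    simp only [dat]
    ring
  unfold Pth
  rw [e]
  refine ⟨n1, n2, hne, ?_⟩
  rw [(h.dat cp).F_add, ← h5]
  have h6 : A.cd y s x' = A.cd y s x + A.cd y x x' := by omega
  rw [h6, a4, hs]
  ring

include h cp in
theorem sig_lt : T.sig < A.h := by
  have h1 := (h.dat cp).h1
  have h2 := (h.dat cp).hm
  have h3 := (h.dat cp).s1
  simp only [dat] at h1 h2 h3
  nlinarith

theorem Pth10 (hG : A.GC) (y : ℤ) {s : ℤ} (s0 : 0 ≤ s) (s1 : s < A.w) : h.Pth cp y s 1 0 := by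
  obtain ⟨hn, b1, b2, b3, b4, b5, b6, b7, b8⟩ := h.basic
  unfold Pth
  rw [one_mul, zero_mul, sub_zero]
  exact ⟨by omega, by omega, by omega, h.st10 cp y s0 s1⟩

theorem F11_lt (hG : A.GC) (e : ℤ) : (h.dat cp).F e 1 1 < A.NN := by
  obtain ⟨hn, b1, b2, b3, b4, b5, b6, b7, b8⟩ := h.basic
  have sl := h.sig_lt cp
  have a := h.Pth10 cp hG e (s := 0) le_rfl (by omega)
  have b := h.Pth_step cp (x := A.h) (x' := A.h - T.sig) (α' := 0) (β' := 1) le_rfl (by omega) a
    (by ring) (by ring) (h.Nx_sig b1 (by omega)) (by omega) (h.st01 cp e b1 (by omega))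
  obtain ⟨c1, c2, c3, c4⟩ := b
  norm_num at c4
  have := A.cd_lt e 0 (A.h - T.sig)
  rw [A.kap0 (s := 0) (by omega), A.kap0 (s := A.h - T.sig) (by omega), sub_zero, mul_zero,
    add_zero] at c4
  omega

theorem st11 (hG : A.GC) (y : ℤ) {s : ℤ} (s0 : A.w ≤ s) (s1 : s < T.sig) :
    A.cd y s (s + A.h - T.sig) = (h.dat cp).F (y + s) 1 1
      + A.q * (A.kap (s + A.h - T.sig) - A.kap s) := by
  obtain ⟨hn, b1, b2, b3, b4, b5, b6, b7, b8⟩ := h.basic
  have f1 := h.F11_lt cp hG (y + s)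
  have f2 := (h.dat cp).F_cong (y + s) 1 1
  have f3 := (h.dat cp).X_pos (y + s)
  have f4 := (h.dat cp).F_succZ (y + s) 1 0
  rw [zero_add] at f4
  have f5 := (h.dat cp).hW
  have c1 := A.cd_cong y s (s + A.h - T.sig)
  have e0 := A.cd_nonneg y s (s + A.h - T.sig)
  have e1 := A.cd_lt y s (s + A.h - T.sig)
  rw [show (h.dat cp).lab (y + s) 1 1 = y + (s + A.h - T.sig) by
    unfold Pool.Agent.H42.Tie.Dat.lab
    simp only [dat]
    ring, h.dat_U cp, h.dat_U cp] at f2
  unfold cs at c1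
  rw [A.kap0 (s := s) (by omega), A.kap0 (s := s + A.h - T.sig) (by omega)] at c1 ⊢
  have f2' : A.NN ∣ _ := f2
  apply eq_of_dvd (N := A.NN) _ (by omega) (by omega)
  have := dvd_add c1 f2'
  rwa [show A.cd y s (s + A.h - T.sig) - ((A.cfg 0).U (y + (s + A.h - T.sig)) + A.q * 0
    - ((A.cfg 0).U (y + s) + A.q * 0)) + ((A.cfg 0).U (y + (s + A.h - T.sig))
    - (A.cfg 0).U (y + s) - (h.dat cp).F (y + s) 1 1)
    = A.cd y s (s + A.h - T.sig) - ((h.dat cp).F (y + s) 1 1 + A.q * (0 - 0)) by ring] at this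

/-- **C2** -/
theorem C2 (hG : A.GC) (e : ℤ) : (h.dat cp).F e 2 ((h.dat cp).m + 1) < (h.dat cp).N := by
  obtain ⟨hn, b1, b2, b3, b4, b5, b6, b7, b8⟩ := h.basic
  have d1 := (h.dat cp).h1
  have d2 := (h.dat cp).h2
  have d3 := (h.dat cp).hm
  change (h.dat cp).F e 2 ((h.dat cp).m + 1) < A.NN
  set m := (h.dat cp).m with hm
  have d1' : m * T.sig < A.h := d1
  have d2' : (A.h : ℤ) < (m + 1) * T.sig := d2
  rw [add_mul, one_mul] at d2'
  set s := max 0 ((A.w : ℤ) - (A.h - m * T.sig)) with hs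
  have s0 : 0 ≤ s := by omega
  have s1 : s < A.w := by omega
  set y := e - s with hy
  have key : ∀ n : ℕ, (n : ℤ) ≤ m → h.Pth cp y s 1 n := by
    intro n
    induction n with
    | zero => intro _; exact h.Pth10 cp hG y s0 s1
    | succ n ih =>
      intro hn'
      push_cast at hn' ⊢
      have i1 := ih (by omega)
      have e1 : (n + 1) * T.sig ≤ m * T.sig := mul_le_mul_of_nonneg_right hn' (by omega)
      rw [add_mul, one_mul] at e1
      have e2 := i1.1
      have e3 := i1.2.1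
      rw [one_mul] at e2 e3
      have := h.Pth_step cp (x := s + A.h - n * T.sig) (x' := s + A.h - n * T.sig - T.sig)
        (α' := 0) (β' := 1) s0 (by omega) i1 (by ring) (by ring)
        (h.Nx_sig (by omega) e3) (by omega) (h.st01 cp y (by omega) e3)
      simpa using this
  have k1 := key m.toNat (by omega)
  rw [Int.toNat_of_nonneg (by omega)] at k1
  have k2 := k1.1
  rw [one_mul] at k2
  have k3 := h.Pth_step cp (x := s + A.h - m * T.sig) (x' := s + A.h - m * T.sig + A.h - T.sig)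
    (α' := 1) (β' := 1) s0 (by omega) k1 (by ring) (by ring)
    (h.Nx_mid hG (by omega) (by omega)) (by omega) (h.st11 cp hG y (by omega) (by omega))
  obtain ⟨c1, c2, c3, c4⟩ := k3
  norm_num at c1 c2 c3 c4
  have e4 : s + 2 * A.h - (m + 1) * T.sig = s + A.h - m * T.sig + A.h - T.sig := by ring
  rw [e4] at c4
  rw [A.kap0 (s := s) (by omega), A.kap0 (s := s + A.h - m * T.sig + A.h - T.sig) (by omega),
    sub_zero, mul_zero, add_zero, show y + s = e by rw [hy]; ring] at c4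
  have := A.cd_lt y s (s + A.h - m * T.sig + A.h - T.sig)
  omega

end VR

end TAp

end Pool.Agent.H78.Tie
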