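import Pool.Agent.H78.Tie.Rule2

/-!
# Rule (E0) for walls which are free with respect to both ties
-/

namespace Pool.Agent.H78.Tie

open Finset
open Pool.Agent.H98.Flat
open Pool.Agent.H67.Flat

namespace TAp

variable {A : TAp}

/-- the left wall of class `j` is free with respect to `t` and `t' = q - t`, in both windows -/
def Tie.FreeL2 (T : A.Tie) (j : ℤ) : Prop :=
  (T.ep = 1 ∧ j < T.t ∧ (A.p : ℤ) < j + (A.q - T.t)) ∨
    (T.ep = -1 ∧ (A.p : ℤ) < j + T.t ∧ j < A.q - T.t)

/-- the right wall of class `j` is free with respect to `t` and `t' = q - t`, in both windows -/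
def Tie.FreeR2 (T : A.Tie) (j : ℤ) : Prop :=
  (T.ep = 1 ∧ (A.p : ℤ) < j + T.t ∧ j < A.q - T.t) ∨
    (T.ep = -1 ∧ j < T.t ∧ (A.p : ℤ) < j + (A.q - T.t))

/-- the strip next to the left wall of a class whose main partner is not in the window -/
theorem stripL2 (F : A.Fl) (T : A.Tie) {j m f s n : ℤ} (c : A.Cls j m f s)
    (hn : n = 0 ∨ n = 1)
    (hm : T.FreeL2 j) :
    A.Strip n (A.q * m + f - A.k0) := by
  have hp := A.p_pos'
  have j0 := c.1
  have j1 := c.2.1
  have hC : (A.p : ℤ) * A.q ∣ (A.cfg n).U s - (A.q * m + f) := by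
    rcases hn with rfl | rfl
    · exact c.U0
    · exact c.U1
  have hu : (A.p : ℤ) ∣ A.q * m + f - A.k0 + A.k0 := by
    rw [sub_add_cancel]
    have h1 := dvd_sub (A.U_dvd n s) ((dvd_mul_right _ _).trans hC)
    rwa [sub_sub_cancel] at h1
  by_cases hw : NoWall (A.cfg n) (A.q * m + f - A.sg)
  · rcases A.k0_cases with ⟨h, h'⟩ | ⟨h, h'⟩
    · apply Strip.of_one F hu
      rw [h'] at *
      rw [h] at hw
      rwa [show A.q * m + f - 2 + 1 = A.q * m + f - 1 by ring]
    · apply Strip.of_two F hu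
      rw [h'] at *
      rw [h] at hw
      rwa [show A.q * m + f - 1 + 2 = A.q * m + f - -1 by ring]
  · -- there is a second wall
    have hk : ∃ k, (A.p : ℤ) * A.q ∣ A.q * m + f - A.sg - ((A.cfg n).U k + A.q * A.w) := by
      unfold NoWall at hw
      push Not at hw
      obtain ⟨k, hk⟩ := hw
      refine ⟨k, ?_⟩
      by_cases hk2 : (A.cfg n).N ∣ A.q * m + f - A.sg - (A.cfg n).U k
      · exfalso
        have h1 := dvd_add ((A.p_N n).trans hk2) (A.U_dvd n k)
        rw [sub_add_cancel] at h1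
        rw [sub_add_cancel] at hu
        have h2 := dvd_sub hu h1
        rw [sub_sub_cancel] at h2
        have h3 : (A.p : ℤ) ∣ 1 := by
          rcases A.hsg with h | h
          · rwa [h] at h2
          · rw [h] at h2; exact (dvd_neg).1 h2
        have := Int.le_of_dvd (by norm_num) h3
        have := A.w2
        have := A.hw
        omega
      · exact hk hk2
    obtain ⟨k, hk⟩ := hk
    have i0 := Int.emod_nonneg (A.e' * k - n) hp.ne'
    have i1 := Int.emod_lt_of_pos (A.e' * k - n) hp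
    have ik := A.idx_row n k
    set i := n + (A.e' * k - n) % (A.p : ℤ) with hi
    have hUk : (A.cfg n).U k = A.a * i := rfl
    have hpart : (A.p : ℤ) * A.q ∣ A.a * (j - i) - (A.q * A.w + A.sg) := by
      obtain ⟨z1, hz1⟩ := hk
      obtain ⟨z2, hz2⟩ := c.2.2.2.2.1
      rw [hUk] at hz1
      exact ⟨z1 + z2, by linear_combination hz1 + hz2⟩
    rcases T.partner hpart (by rw [abs_le]; rcases hn with rfl | rfl <;> constructor <;> omega)
      with h | h
    · exfalso
      rcases hm with ⟨h1, h2, h3⟩ | ⟨h1, h2, h3⟩ <;> rw [h1] at h <;>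
        rcases hn with rfl | rfl <;> omega
    · exfalso
      rcases hm with ⟨h1, h2, h3⟩ | ⟨h1, h2, h3⟩ <;> rw [h1] at h <;>
        rcases hn with rfl | rfl <;> omega

/-- the strip next to the right wall of a class whose main partner is not in the window -/
theorem stripR2 (F : A.Fl) (T : A.Tie) {j m f s n : ℤ} (c : A.Cls j m f s)
    (hn : n = 0 ∨ n = 1)
    (hm : T.FreeR2 j) :
    A.Strip n (A.q * (m + A.w) + f + A.sg - A.k0) := by
  have hp := A.p_pos'
  have j0 := c.1
  have j1 := c.2.1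
  have hC : (A.p : ℤ) * A.q ∣ (A.cfg n).U s - (A.q * m + f) := by
    rcases hn with rfl | rfl
    · exact c.U0
    · exact c.U1
  have hu : (A.p : ℤ) ∣ A.q * (m + A.w) + f + A.sg - A.k0 + A.k0 := by
    rw [sub_add_cancel]
    have h1 := dvd_add (dvd_sub (A.U_dvd n s) ((dvd_mul_right _ _).trans hC)) A.hpw
    rwa [show (A.cfg n).U s - ((A.cfg n).U s - (A.q * m + f)) + (A.q * A.w + A.sg)
      = A.q * (m + A.w) + f + A.sg by ring] at h1
  by_cases hw : NoWall (A.cfg n) (A.q * (m + A.w) + f + A.sg)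
  · rcases A.k0_cases with ⟨h, h'⟩ | ⟨h, h'⟩
    · apply Strip.of_two F hu
      rw [h'] at *
      rwa [sub_add_cancel]
    · apply Strip.of_one F hu
      rw [h'] at *
      rwa [sub_add_cancel]
  · -- there is a second wall
    have hk : ∃ k, (A.p : ℤ) * A.q ∣ A.q * (m + A.w) + f + A.sg - (A.cfg n).U k := by
      unfold NoWall at hw
      push Not at hw
      obtain ⟨k, hk⟩ := hw
      refine ⟨k, ?_⟩
      by_contra hk2
      have hk3 := hk hk2
      have h1 := dvd_add (dvd_add ((A.p_N n).trans hk3) (A.U_dvd n k)) A.hpw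
      have hW : (A.cfg n).W = A.q * A.w := rfl
      rw [hW] at h1
      rw [show A.q * (m + A.w) + f + A.sg - ((A.cfg n).U k + A.q * A.w) + (A.cfg n).U k
        + (A.q * A.w + A.sg) = A.q * (m + A.w) + f + A.sg + A.sg by ring] at h1
      rw [sub_add_cancel] at hu
      have h2 := dvd_sub h1 hu
      rw [add_sub_cancel_left] at h2
      have h3 : (A.p : ℤ) ∣ 1 := by
        rcases A.hsg with h | h
        · rwa [h] at h2
        · rw [h] at h2; exact (dvd_neg).1 h2
      have := Int.le_of_dvd (by norm_num) h3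
      have := A.w2
      have := A.hw
      omega
    obtain ⟨k, hk⟩ := hk
    have i0 := Int.emod_nonneg (A.e' * k - n) hp.ne'
    have i1 := Int.emod_lt_of_pos (A.e' * k - n) hp
    have ik := A.idx_row n k
    set i := n + (A.e' * k - n) % (A.p : ℤ) with hi
    have hUk : (A.cfg n).U k = A.a * i := rfl
    have hpart : (A.p : ℤ) * A.q ∣ A.a * (i - j) - (A.q * A.w + A.sg) := by
      obtain ⟨z1, hz1⟩ := hk
      obtain ⟨z2, hz2⟩ := c.2.2.2.2.1
      rw [hUk] at hz1
      exact ⟨-z1 - z2, by linear_combination -hz1 - hz2⟩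
    rcases T.partner hpart (by rw [abs_le]; rcases hn with rfl | rfl <;> constructor <;> omega)
      with h | h
    · exfalso
      rcases hm with ⟨h1, h2, h3⟩ | ⟨h1, h2, h3⟩ <;> rw [h1] at h <;>
        rcases hn with rfl | rfl <;> omega
    · exfalso
      rcases hm with ⟨h1, h2, h3⟩ | ⟨h1, h2, h3⟩ <;> rw [h1] at h <;>
        rcases hn with rfl | rfl <;> omega

/-- left walls without any partner -/
theorem okL2 (F : A.Fl) (T : A.Tie) {j m f s : ℤ} (c : A.Cls j m f s)
    (hm : T.FreeL2 j) : A.OK (A.q * m + f) := by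
  have hu : (A.p : ℤ) ∣ A.q * m + f - A.k0 + A.k0 := by
    rw [sub_add_cancel]
    have h1 := dvd_sub (A.U_dvd 0 s) ((dvd_mul_right _ _).trans c.U0)
    rwa [sub_sub_cancel] at h1
  refine OK.of_strip F hu (stripL2 F T c (Or.inl rfl) hm) (stripL2 F T c (Or.inr rfl) hm) ?_
  rcases A.k0_cases with ⟨h3, h3'⟩ | ⟨h3, h3'⟩ <;> rw [h3']
  · right; ring
  · left; ring

/-- right walls without any partner -/
theorem okR2 (F : A.Fl) (T : A.Tie) {j m f s : ℤ} (c : A.Cls j m f s)
    (hm : T.FreeR2 j) :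
    A.OK (A.q * (m + A.w) + f) := by
  have hu : (A.p : ℤ) ∣ A.q * (m + A.w) + f + A.sg - A.k0 + A.k0 := by
    rw [sub_add_cancel]
    have h1 := dvd_add (dvd_sub (A.U_dvd 0 s) ((dvd_mul_right _ _).trans c.U0)) A.hpw
    rwa [show (A.cfg 0).U s - ((A.cfg 0).U s - (A.q * m + f)) + (A.q * A.w + A.sg)
      = A.q * (m + A.w) + f + A.sg by ring] at h1
  refine OK.of_strip F hu (stripR2 F T c (Or.inl rfl) hm) (stripR2 F T c (Or.inr rfl) hm) ?_
  rcases A.k0_cases with ⟨h3, h3'⟩ | ⟨h3, h3'⟩ <;> rw [h3, h3']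
  · left; ring
  · right; ring

/-- class `j` has a free vertical wall (both ties) at position `(mc, f)`; `g = V_j - c`;
rows `(g-h, g]` -/
def Tie.FW2 (T : A.Tie) (j mc f g : ℤ) : Prop :=
  (A.Cls j mc f g ∧ T.FreeL2 j) ∨ (A.Cls j (mc - A.w) f (g + A.w) ∧ T.FreeR2 j)

/-- **rule (E0)** for walls free with respect to both ties -/
theorem E0f2 (F : A.Fl) (T : A.Tie) {j i mc fc g mb fb k r : ℤ}
    (hj : T.FW2 j mc fc g) (hi : A.HW i mb fb k)
    (hij : i ≠ j) (hr : r = mb - mc + (if fc < fb then 1 else 0)) (Y : ℤ)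
    (h1 : InA A.p Y (g - A.h) A.h ↔ ¬ InA A.p r (g - A.h) A.h)
    (h2 : InA A.p Y (k - A.w) A.w ↔ ¬ InA A.p r (k - A.w) A.w) :
    A.Phi mc fc mb fb Y = A.Phi mc fc mb fb r := by
  rcases hj with ⟨c, hf⟩ | ⟨c, hf⟩
  · exact E0 (Or.inl c) (okL2 F T c hf) hi hij hr Y h1 h2
  · refine E0 (Or.inr c) ?_ hi hij hr Y h1 h2
    have := okR2 F T c hf
    rwa [sub_add_cancel] at this

end TAp

end Pool.Agent.H78.Tie
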