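import Pool.Agent.H42.Tie.Bridge

/-!
# Levels of a region `x < 0`, `w + |x| ≤ h`, `ep = -1` on which `Gam` is constant
-/

namespace Pool.Agent.H78.Tie

open Finset
open Pool.Agent.H98.Flat
open Pool.Agent.H67.Flat

set_option linter.dupNamespace false
set_option linter.unusedVariables false

namespace TAp

variable {A : TAp}

/-- `Gam` is constant -/
def GC (A : TAp) : Prop := ∀ s, 0 ≤ s → s < A.nn → A.Gam s = A.Gam 0

namespace VR

variable {T : A.Tie}

theorem tv_iff (h : VR A T) (hG : A.GC) {s s' : ℤ} (a : A.Nx s s') :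
    s' < A.h ↔ (A.w : ℤ) ≤ s := by
  have h1 := h.Gam_next a
  rw [hG s a.1 a.2.1, hG s' a.2.2.1 a.2.2.2.1] at h1
  by_cases c1 : s' < (A.h : ℤ) <;> by_cases c2 : (A.w : ℤ) ≤ s
  · exact ⟨fun _ => c2, fun _ => c1⟩
  · rw [if_pos c1, if_neg c2] at h1; omega
  · rw [if_neg c1, if_pos c2] at h1; omega
  · exact ⟨fun hc => absurd hc c1, fun hc => absurd hc c2⟩

theorem P_symm (h : VR A T) {s s' : ℤ} (s0 : 0 ≤ s) (s1 : s < A.nn) (t0 : 0 ≤ s')
    (t1 : s' < A.nn) (hne : s ≠ s') : A.P s s' + A.P s' s = A.NN + A.D := by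
  have hd : ¬ (A.p : ℤ) ∣ s' - s := nd_small (by omega) (by omega) (by omega)
  have c1 := A.P_cong' s s'
  have c2 := A.P_cong' s' s
  have e := ix_neg hd
  rw [neg_sub] at e
  rw [e] at c2
  have a := h.P_gt s0 s1 t0 t1 hne
  have b := h.P_gt t0 t1 s0 s1 (Ne.symm hne)
  have a' := A.P_lt s s'
  have b' := A.P_lt s' s
  have hD := A.D_pos
  apply eq_of_dvd (N := A.NN) _ (by omega) (by omega)
  have := dvd_sub (dvd_add (dvd_add c1 c2) A.D_cong) (dvd_refl A.NN)
  rwa [show A.P s s' - A.q * (A.kap s' - A.kap s) - A.a * A.ix (s' - s)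
    + (A.P s' s - A.q * (A.kap s - A.kap s') - A.a * (A.p - A.ix (s' - s)))
    + (A.a * A.p - A.D) - A.NN = A.P s s' + A.P s' s - (A.NN + A.D) by ring] at this

/-- shifting the base label -/
theorem P_shift (h : VR A T) {r j : ℤ} (r0 : 0 ≤ r) (r1 : r + 1 ≤ A.h) (j0 : 1 ≤ j)
    (j1 : j < A.nn) (hne : j ≠ r + 1) :
    A.P (r + 1) j = A.P r (j - 1) + (if (A.h : ℤ) < j then (A.q : ℤ) else 0) := by
  obtain ⟨hn, b1, b2, b3, b4, b5, b6, b7, b8⟩ := h.basic
  have hq := A.q6
  have c1 := A.P_cong (r + 1) j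
  have c2 := A.P_cong r (j - 1)
  have kr : A.kap r = 0 := A.kap0 (by omega)
  have kr' : A.kap (r + 1) = 0 := A.kap0 (by omega)
  rw [kr', sub_zero] at c1
  rw [kr, sub_zero] at c2
  rw [show j - (r + 1) = j - 1 - r by ring] at c1
  have a0 := A.P_nonneg (r + 1) j
  have a1 := A.P_lt (r + 1) j
  have b0 := A.P_nonneg r (j - 1)
  have b1' := A.P_lt r (j - 1)
  by_cases hj : (A.h : ℤ) < j
  · rw [if_pos hj]
    have k1 : A.kap j = j - A.h := A.kaph (by omega)
    have k2 : A.kap (j - 1) = j - 1 - A.h := A.kaph (by omega)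
    have s1 := h.P_symm (s := r) (s' := j - 1) r0 (by omega) (by omega) (by omega) (by omega)
    have s2 := h.P_rb (s := j - 1) (s' := r) (by omega) (by omega) r0 (by omega) (by omega)
      (by omega)
    rw [k2] at s2 c2
    rw [k1] at c1
    have b3' : (A.q : ℤ) * (j - 1 - A.h) ≤ A.q * (A.w - 2) :=
      mul_le_mul_of_nonneg_left (by omega) (by omega)
    rw [mul_sub (A.q : ℤ) A.w 2] at b3'
    apply eq_of_dvd (N := A.NN) _ (by omega)
      (by rcases b8 with h | h <;> rw [h] at b6 <;> omega)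
    have := dvd_sub c1 c2
    rwa [show A.P (r + 1) j - (A.Q (j - 1 - r) + A.q * (j - A.h))
      - (A.P r (j - 1) - (A.Q (j - 1 - r) + A.q * (j - 1 - A.h)))
      = A.P (r + 1) j - (A.P r (j - 1) + A.q) by ring] at this
  · rw [if_neg hj, add_zero]
    have k1 : A.kap j = 0 := A.kap0 (by omega)
    have k2 : A.kap (j - 1) = 0 := A.kap0 (by omega)
    rw [k1] at c1
    rw [k2] at c2
    apply eq_of_dvd (N := A.NN) _ (by omega) (by omega)
    have := dvd_sub c1 c2
    rwa [show A.P (r + 1) j - (A.Q (j - 1 - r) + A.q * 0)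
      - (A.P r (j - 1) - (A.Q (j - 1 - r) + A.q * 0))
      = A.P (r + 1) j - A.P r (j - 1) by ring] at this

/-- the neighbour relation is shifted -/
theorem Nx_shift (h : VR A T) {r m : ℤ} (a : A.Nx r m) (hr : r + 1 < T.sig)
    (hm : m + 1 < A.nn) : A.Nx (r + 1) (m + 1) := by
  obtain ⟨hn, b1, b2, b3, b4, b5, b6, b7, b8⟩ := h.basic
  have hq := A.q6
  have hD := A.D_pos
  have r0 := a.1
  have m0 := a.2.2.1
  have mr := a.2.2.2.2.1
  obtain ⟨m', hm'⟩ := h.exists_next (s := r + 1) (by omega) (by omega)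
  have ht := h.Nx_top hm' hr
  by_cases hc : m' = m + 1
  · rwa [hc] at hm'
  · exfalso
    have n0 := hm'.2.2.1
    have n1 := hm'.2.2.2.1
    have n2 := hm'.2.2.2.2.1
    have e1 := h.P_shift (r := r) (j := m') r0 (by omega) (by omega) n1 n2
    have e2 := h.P_shift (r := r) (j := m + 1) r0 (by omega) (by omega) hm (by omega)
    rw [add_sub_cancel_right] at e2
    have i1 := a.2.2.2.2.2 (m' - 1) (by omega) (by omega) (by omega) (by omega)
    have i2 := hm'.2.2.2.2.2 (m + 1) (by omega) hm (by omega) (by omega)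
    rw [e1, e2] at i2
    have h1 : ¬ (A.h : ℤ) < m' := by
      intro hh
      rw [if_pos hh] at i2
      split_ifs at i2 <;> omega
    have h2 : (A.h : ℤ) < m + 1 := by
      by_contra hh
      rw [if_neg hh, if_neg h1] at i2
      omega
    rw [if_neg h1, if_pos h2] at i2
    have t1 := h.tri (s := r) (l := m) (m := m' - 1) r0 (by omega) m0 (by omega) (by omega)
      (by omega) (Ne.symm mr) (by omega) (by omega) i1
    have t2 := h.P_rb (s := m) (s' := m' - 1) m0 (by omega) (by omega) (by omega) (by omega)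
      (by omega)
    have k1 : A.kap m = m - A.h := A.kaph (by omega)
    rw [k1] at t2
    have b3' : (A.q : ℤ) * (m - A.h) ≤ A.q * (A.w - 2) :=
      mul_le_mul_of_nonneg_left (by omega) (by omega)
    rw [mul_sub (A.q : ℤ) A.w 2] at b3'
    rcases t1.1 with t3 | t3 <;> rcases b8 with h | h <;> rw [h] at b6 <;> omega

/-- iterated shift -/
theorem Nx_shifts (h : VR A T) {r m : ℤ} (a : A.Nx r m) (n : ℕ) (hr : r + n < T.sig)
    (hm : ∀ j : ℤ, 0 ≤ j → j < n → A.Nx (r + j) (m + j) → m + j + 1 < A.nn) :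
    A.Nx (r + n) (m + n) := by
  induction n with
  | zero => simpa using a
  | succ n ih =>
    push_cast at hr hm ⊢
    have i1 := ih (by omega) (fun j j0 j1 hj => hm j j0 (by omega) hj)
    have i2 := hm n (by omega) (by omega) i1
    have := h.Nx_shift i1 (by omega) i2
    rwa [add_assoc, add_assoc] at this

theorem Nx_zero (h : VR A T) (hG : A.GC) : A.Nx 0 A.h := by
  obtain ⟨hn, b1, b2, b3, b4, b5, b6, b7, b8⟩ := h.basic
  obtain ⟨r, hr⟩ := h.exists_pred (s' := (A.h : ℤ)) (by omega) (by omega)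
  have h1 := h.tv_iff hG hr
  have r0 := hr.1
  have rw' : r < A.w := by
    by_contra hc
    have := h1.2 (by omega)
    omega
  by_cases hc : r = 0
  · rwa [hc] at hr
  · exfalso
    have h2 := h.Nx_shifts hr ((A.w : ℤ) - r).toNat (by omega) (fun j j0 j1 _ => by omega)
    rw [Int.toNat_of_nonneg (by omega)] at h2
    have h3 := h.tv_iff hG h2
    have := h3.2 (by omega)
    omega

theorem Nx_low (h : VR A T) (hG : A.GC) {s : ℤ} (s0 : 0 ≤ s) (s1 : s < A.w) :
    A.Nx s (s + A.h) := by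
  obtain ⟨hn, b1, b2, b3, b4, b5, b6, b7, b8⟩ := h.basic
  have h2 := h.Nx_shifts (h.Nx_zero hG) s.toNat (by omega) (fun j j0 j1 _ => by omega)
  rw [Int.toNat_of_nonneg (by omega)] at h2
  rwa [zero_add, add_comm (A.h : ℤ)] at h2

theorem Nx_mid (h : VR A T) (hG : A.GC) {s : ℤ} (s0 : A.w ≤ s) (s1 : s < T.sig) :
    A.Nx s (s + A.h - T.sig) := by
  obtain ⟨hn, b1, b2, b3, b4, b5, b6, b7, b8⟩ := h.basic
  -- predecessor of `nn - sig`
  obtain ⟨r, hr⟩ := h.exists_pred (s' := A.nn - T.sig) (by omega) (by omega)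
  have h1 := h.tv_iff hG hr
  have r0 := hr.1
  have r1 := hr.2.1
  have rw' : (A.w : ℤ) ≤ r := h1.1 (by omega)
  have rs : r < T.sig := by
    by_contra hc
    have := h.next_unique hr (h.Nx_sig (s := r) (by omega) r1)
    omega
  -- successor of `w`
  obtain ⟨m, hm⟩ := h.exists_next (s := (A.w : ℤ)) (by omega) (by omega)
  have m1 := h.Nx_top hm (by omega)
  have key : ∀ n : ℕ, A.w + (n : ℤ) < T.sig → A.Nx (A.w + n) (m + n) := by
    intro n hn'
    refine h.Nx_shifts hm n hn' (fun j j0 j1 hj => ?_)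
    have := (h.tv_iff hG hj).2 (by omega)
    omega
  have k1 := key (r - A.w).toNat (by omega)
  rw [Int.toNat_of_nonneg (by omega), add_sub_cancel] at k1
  have h3 := h.next_unique hr k1
  have k2 := key (s - A.w).toNat (by omega)
  rw [Int.toNat_of_nonneg (by omega), add_sub_cancel] at k2
  rwa [show m + (s - (A.w : ℤ)) = s + A.h - T.sig by omega] at k2

end VR

/-- the successor map -/
def Tie.nxt (T : A.Tie) (s : ℤ) : ℤ :=
  if s < A.w then s + A.h else if s < T.sig then s + A.h - T.sig else s - T.sig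

namespace VR

variable {T : A.Tie}

theorem Nx_nxt (h : VR A T) (hG : A.GC) {s : ℤ} (s0 : 0 ≤ s) (s1 : s < A.nn) :
    A.Nx s (T.nxt s) := by
  unfold Tie.nxt
  split_ifs with c1 c2
  · exact h.Nx_low hG s0 c1
  · exact h.Nx_mid hG (by omega) c2
  · exact h.Nx_sig (by omega) s1

/-- the height and the shift of the tie are coprime -/
theorem cop (h : VR A T) (hG : A.GC) : IsCoprime T.sig (A.h : ℤ) := by
  obtain ⟨hn, b1, b2, b3, b4, b5, b6, b7, b8⟩ := h.basic
  rw [Int.isCoprime_iff_gcd_eq_one]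
  by_contra hc
  set g : ℤ := (Int.gcd T.sig A.h : ℤ) with hg
  have g1 : g ∣ T.sig := Int.gcd_dvd_left _ _
  have g2 : g ∣ A.h := Int.gcd_dvd_right _ _
  have g3 : ¬ g ∣ 1 := by
    intro h1
    apply hc
    have h2 : (0 : ℤ) ≤ g := by rw [hg]; positivity
    have := Int.eq_one_of_dvd_one h2 h1
    rw [hg] at this
    exact_mod_cast this
  obtain ⟨c, hcm, hmin⟩ := Finset.exists_min_image ((Finset.Ico (0 : ℤ) A.nn).filter (g ∣ ·))
    (fun j => A.cd 0 j 1) ⟨0, by
      rw [Finset.mem_filter, Finset.mem_Ico]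
      exact ⟨⟨le_rfl, by omega⟩, dvd_zero _⟩⟩
  rw [Finset.mem_filter, Finset.mem_Ico] at hcm
  have c1 : c ≠ 1 := by
    intro h1
    rw [h1] at hcm
    exact g3 hcm.2
  have a := h.Nx_nxt hG hcm.1.1 hcm.1.2
  have gn : g ∣ T.nxt c := by
    unfold Tie.nxt
    split_ifs
    · exact dvd_add hcm.2 g2
    · exact dvd_sub (dvd_add hcm.2 g2) g1
    · exact dvd_sub hcm.2 g1
  have c2 : T.nxt c ≠ 1 := by
    intro h1
    rw [h1] at gn
    exact g3 gn
  have h1 := h.Nx_lt a 0 (j := 1) (by omega) (by omega) (Ne.symm c1) (Ne.symm c2)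
  have h2 := h.cd_add 0 h1.le
  have h3 := hmin (T.nxt c) (by
    rw [Finset.mem_filter, Finset.mem_Ico]
    exact ⟨⟨a.2.2.1, a.2.2.2.1⟩, gn⟩)
  have h4 := h.cd_pos 0 a.1 a.2.1 a.2.2.1 a.2.2.2.1 (Ne.symm a.2.2.2.2.1)
  omega

end VR

end TAp

end Pool.Agent.H78.Tie
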