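import Pool.Agent.H78.Tie.Ok
import Pool.Agent.H42.Tie.Core

/-!
# Ties of index one
-/

namespace Pool.Agent.H42.Tie

open Finset
open Pool.Agent.H98.Flat
open Pool.Agent.H78.Tie

/-- the data of a tie of index one -/
structure Dat1 (A : TAp) (x : ℤ) : Prop where
  a_eq : (A.p : ℤ) * A.q ∣ A.a - (A.sg * A.q * A.w + 1)
  row : (A.p : ℤ) ∣ A.e - A.sg * (x - A.w)
  gw : (A.p : ℤ) ∣ (x - A.w) - A.om * A.h * A.w

variable {A : TAp} {x : ℤ}

/-- index of the class with row `k` -/
def idx (A : TAp) (k : ℤ) : ℤ := (A.e' * k) % A.p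

/-- column of the class with row `k` -/
def col (A : TAp) (k : ℤ) : ℤ := A.sg * A.w * idx A k

theorem p0 (A : TAp) : (0 : ℤ) < A.p := A.p_pos'
theorem q0 (A : TAp) : (0 : ℤ) < A.q := A.q_pos'
theorem pq (A : TAp) : (A.p : ℤ) + 1 ≤ A.q := by have := A.pq; omega
theorem N_eq (A : TAp) : (A.cfg 0).N = (A.p : ℤ) * A.q := rfl

theorem sg2 (A : TAp) : A.sg * A.sg = 1 := by rcases A.hsg with h | h <;> rw [h] <;> norm_num
theorem om2 (A : TAp) : A.om * A.om = 1 := by rcases A.hom with h | h <;> rw [h] <;> norm_num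

theorem idx_nonneg (A : TAp) (k : ℤ) : 0 ≤ idx A k := Int.emod_nonneg _ (p0 A).ne'
theorem idx_lt (A : TAp) (k : ℤ) : idx A k < A.p := Int.emod_lt_of_pos _ (p0 A)

theorem U_idx (A : TAp) (k : ℤ) : (A.cfg 0).U k = A.a * idx A k := by
  rw [TAp.cfg_U, sub_zero, zero_add]; rfl

theorem U_eq (D : Dat1 A x) (k : ℤ) :
    (A.p : ℤ) * A.q ∣ (A.cfg 0).U k - (A.q * col A k + idx A k) := by
  rw [U_idx]
  have := D.a_eq.mul_right (idx A k)
  unfold col
  rwa [show (A.a - (A.sg * A.q * A.w + 1)) * idx A k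
    = A.a * idx A k - (A.q * (A.sg * A.w * idx A k) + idx A k) by ring] at this

theorem row_idx (A : TAp) (k : ℤ) : (A.p : ℤ) ∣ A.e * idx A k - k := by
  have := A.idx_row 0 k
  rw [sub_zero, zero_add] at this
  exact this

/-- `k ≡ om h X_k` -/
theorem row_col (D : Dat1 A x) (k : ℤ) : (A.p : ℤ) ∣ A.om * A.h * col A k - k := by
  have h1 := row_idx A k
  have h2 := D.row.mul_right (idx A k)
  have h3 := (D.gw.mul_right (idx A k)).mul_left A.sg
  have := dvd_sub (dvd_sub h1 h2) h3
  unfold col
  rwa [show A.e * idx A k - k - (A.e - A.sg * (x - A.w)) * idx A k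
    - A.sg * (((x - A.w) - A.om * A.h * A.w) * idx A k)
    = A.om * A.h * (A.sg * A.w * idx A k) - k by ring] at this

theorem cop_h (A : TAp) : IsCoprime (A.h : ℤ) A.p := by
  obtain ⟨a, ha⟩ := A.inv
  obtain ⟨b, hb⟩ := A.hpw
  obtain ⟨c, hc⟩ := A.hqe
  have s2 := sg2 A
  -- `h * (om e' w sg) ≡ 1`
  refine ⟨A.om * A.e' * A.w * A.sg,
    A.sg * b + A.q * A.w * A.sg * a - c * A.e' * A.w * A.sg, ?_⟩
  linear_combination (A.e' * A.w * A.sg) * hc - (A.q * A.w * A.sg) * ha - A.sg * hb + s2

theorem cop_w (A : TAp) : IsCoprime (A.w : ℤ) A.p := by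
  obtain ⟨b, hb⟩ := A.hpw
  exact ⟨-(A.sg * A.q), A.sg * b, by linear_combination (-A.sg) * hb + sg2 A⟩

theorem cop_omh (A : TAp) : IsCoprime (A.om * A.h) (A.p : ℤ) := by
  rcases A.hom with h | h
  · rw [h, one_mul]; exact cop_h A
  · rw [h, neg_one_mul]; exact (cop_h A).neg_left

/-- value of a position modulo `N` -/
theorem emod_val {p q z r : ℤ} (h0 : 0 ≤ q * (z % p) + r)
    (h1 : q * (z % p) + r < p * q) : (q * z + r) % (p * q) = q * (z % p) + r := by
  have e := Int.mul_ediv_add_emod z p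
  rw [show q * z + r = (q * (z % p) + r) + (p * q) * (z / p) by linear_combination (-q) * e,
    Int.add_mul_emod_self_left, Int.emod_eq_of_lt h0 h1]

/-- the base column: `1` if `om = 1` and `0` if `om = -1` -/
def n1 (A : TAp) : ℤ := if A.om = 1 then 1 else 0

theorem n1_cases (A : TAp) : (A.om = 1 ∧ n1 A = 1) ∨ (A.om = -1 ∧ n1 A = 0) := by
  unfold n1
  rcases A.hom with h | h
  · left; rw [if_pos h]; exact ⟨h, rfl⟩
  · right; rw [if_neg (by omega)]; exact ⟨h, rfl⟩

/-- index of the class in column `n1` -/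
def io (A : TAp) : ℤ := idx A (A.om * A.h * n1 A)

/-- the visible column -/
def uu (A : TAp) : ℤ := A.q * n1 A + (io A - A.k0)

theorem dvd_col {z : ℤ} (h : (A.p : ℤ) ∣ A.om * A.h * z) : (A.p : ℤ) ∣ z :=
  (cop_omh A).symm.dvd_of_dvd_mul_left h

/-- the column of the class with row `k` is `n` iff `k ≡ om h n` -/
theorem col_iff (D : Dat1 A x) (k n : ℤ) :
    (A.p : ℤ) ∣ n - col A k ↔ (A.p : ℤ) ∣ A.om * A.h * n - k := by
  have h1 := row_col D k
  constructor
  · intro h
    have := dvd_add (h.mul_left (A.om * A.h)) h1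
    rwa [show A.om * A.h * (n - col A k) + (A.om * A.h * col A k - k) = A.om * A.h * n - k by ring]
      at this
  · intro h
    apply dvd_col
    have := dvd_sub h h1
    rwa [show A.om * A.h * n - k - (A.om * A.h * col A k - k) = A.om * A.h * (n - col A k) by ring]
      at this

theorem col_io (D : Dat1 A x) : (A.p : ℤ) ∣ n1 A - col A (A.om * A.h * n1 A) := by
  rw [col_iff D, sub_self]; exact dvd_zero _

/-- indices of two classes with the same column agree -/
theorem idx_of_col (D : Dat1 A x) {k l : ℤ} (h : (A.p : ℤ) ∣ col A k - col A l) :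
    idx A k = idx A l := by
  have h1 := row_col D k
  have h2 := row_col D l
  have h3 := dvd_sub (dvd_sub (h.mul_left (A.om * A.h)) h1) (dvd_neg.2 h2)
  rw [show A.om * A.h * (col A k - col A l) - (A.om * A.h * col A k - k)
    - -(A.om * A.h * col A l - l) = k - l by ring] at h3
  unfold idx
  apply emod_congr
  have := h3.mul_left A.e'
  rwa [show A.e' * (k - l) = A.e' * k - A.e' * l by ring] at this

theorem uu_vis (D : Dat1 A x) : (A.p : ℤ) ∣ uu A + A.k0 := by
  have h1 := U_eq D (A.om * A.h * n1 A)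
  have h2 : (A.p : ℤ) ∣ (A.cfg 0).U (A.om * A.h * n1 A) := A.U_dvd 0 _
  have h3 := (col_io D).mul_left (A.q : ℤ)
  have h4 := (dvd_mul_right (A.p : ℤ) A.q).trans h1
  have := dvd_add (dvd_sub h2 h4) h3
  unfold uu io
  rwa [show ∀ a b c d e : ℤ, a - (a - (b * d + e)) + b * (c - d) = b * c + (e - A.k0) + A.k0 by
    intros; ring] at this

theorem k0_bd (A : TAp) : 1 ≤ A.k0 ∧ A.k0 ≤ 2 := by
  rcases A.k0_cases with ⟨_, h⟩ | ⟨_, h⟩ <;> omega

theorem io_nonneg (A : TAp) : 0 ≤ io A := idx_nonneg A _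
theorem io_lt (A : TAp) : io A < A.p := idx_lt A _

theorem qd_le {q d e : ℤ} (hq : 0 < q) (h : d ≤ e) : q * d ≤ q * e :=
  mul_le_mul_of_nonneg_left h hq.le

/-- position of the visible column relative to the left wall of row `k` -/
theorem uval (D : Dat1 A x) (k : ℤ) :
    (uu A - (A.cfg 0).U k) % (A.cfg 0).N =
      if (n1 A - col A k) % A.p = 0 then (A.cfg 0).N - A.k0
      else A.q * ((n1 A - col A k) % A.p) + (io A - A.k0 - idx A k) := by
  have hp := p0 A
  have hq := q0 A
  have hpq := pq A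
  have k1 := k0_bd A
  have i0 := idx_nonneg A k
  have i1 := idx_lt A k
  have j0 := io_nonneg A
  have j1 := io_lt A
  have hU := U_eq D k
  have d0 := Int.emod_nonneg (n1 A - col A k) hp.ne'
  have d1 := Int.emod_lt_of_pos (n1 A - col A k) hp
  have e1 : (uu A - (A.cfg 0).U k) % (A.cfg 0).N
      = (A.q * (n1 A - col A k) + (io A - A.k0 - idx A k)) % ((A.p : ℤ) * A.q) := by
    rw [N_eq]
    apply emod_congr
    rw [← dvd_neg]
    unfold uu
    rwa [show -(A.q * n1 A + (io A - A.k0) - (A.cfg 0).U k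
      - (A.q * (n1 A - col A k) + (io A - A.k0 - idx A k)))
      = (A.cfg 0).U k - (A.q * col A k + idx A k) by ring]
  rw [e1]
  split_ifs with h
  · -- same column: same index
    have h1 : (A.p : ℤ) ∣ n1 A - col A k := Int.dvd_of_emod_eq_zero h
    have h2 : idx A k = io A := by
      apply idx_of_col D
      have := dvd_sub (col_io D) h1
      rwa [show n1 A - col A (A.om * A.h * n1 A) - (n1 A - col A k)
        = col A k - col A (A.om * A.h * n1 A) by ring] at this
    obtain ⟨c, hc⟩ := h1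
    rw [h2, hc, N_eq, show (A.q : ℤ) * (A.p * c) + (io A - A.k0 - io A)
      = (A.p * A.q - A.k0) + (A.p * A.q) * (c - 1) by ring, Int.add_mul_emod_self_left,
      Int.emod_eq_of_lt]
    · nlinarith
    · omega
  · rw [emod_val]
    · have := qd_le hq (show 1 ≤ (n1 A - col A k) % (A.p : ℤ) by omega)
      rw [mul_one] at this
      omega
    · have := qd_le hq (show (n1 A - col A k) % (A.p : ℤ) ≤ A.p - 1 by omega)
      rw [mul_sub, mul_one, mul_comm (A.q : ℤ) A.p] at this
      omega

/-- horizontal membership -/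
theorem hor_val (D : Dat1 A x) (k : ℤ) :
    (A.cfg 0).hor k (uu A) = if (n1 A - 1 - col A k) % A.p < A.w then 1 else 0 := by
  have hp := p0 A
  have hq := q0 A
  have hpq := pq A
  have k1 := k0_bd A
  have i0 := idx_nonneg A k
  have i1 := idx_lt A k
  have j0 := io_nonneg A
  have j1 := io_lt A
  have w2 := A.w2
  have hw := A.hw
  have d0 := Int.emod_nonneg (n1 A - col A k) hp.ne'
  have d1 := Int.emod_lt_of_pos (n1 A - col A k) hp
  have de := Int.mul_ediv_add_emod (n1 A - col A k) A.p
  have hW : (A.cfg 0).W = A.q * A.w := rfl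
  unfold Cfg.hor ph
  rw [uval D k, hW]
  -- the shifted residue
  have sh : (n1 A - 1 - col A k) % (A.p : ℤ)
      = if (n1 A - col A k) % (A.p : ℤ) = 0 then (A.p : ℤ) - 1
        else (n1 A - col A k) % (A.p : ℤ) - 1 := by
    split_ifs with h
    · rw [show n1 A - 1 - col A k = ((A.p : ℤ) - 1) + A.p * ((n1 A - col A k) / A.p - 1) by
        rw [h] at de; linear_combination -de, Int.add_mul_emod_self_left,
        Int.emod_eq_of_lt (by omega) (by omega)]
    · rw [show n1 A - 1 - col A k = ((n1 A - col A k) % (A.p : ℤ) - 1)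
        + A.p * ((n1 A - col A k) / A.p) by linear_combination -de, Int.add_mul_emod_self_left,
        Int.emod_eq_of_lt (by omega) (by omega)]
  rw [sh]
  by_cases h : (n1 A - col A k) % (A.p : ℤ) = 0
  · rw [if_pos h, if_pos h, if_neg, if_neg]
    · omega
    · rw [N_eq]
      have : (A.q : ℤ) * A.w ≤ A.q * (A.p - 1) := qd_le hq (by omega)
      rw [mul_sub, mul_one, mul_comm (A.q : ℤ) A.p] at this
      omega
  · rw [if_neg h, if_neg h]
    set d := (n1 A - col A k) % (A.p : ℤ) with hd
    refine if_congr ?_ rfl rfl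
    rcases lt_trichotomy d (A.w : ℤ) with c | c | c
    · have := qd_le hq (show d ≤ (A.w : ℤ) - 1 by omega)
      rw [mul_sub, mul_one] at this
      constructor
      · intro _; omega
      · intro _; omega
    · -- the right wall in column `n1`
      have key : io A - A.k0 < idx A k := by
        have h1 : (A.p : ℤ) ∣ n1 A - col A k - A.w :=
          ⟨(n1 A - col A k) / A.p, by linear_combination -de + c⟩
        have h2 := dvd_sub h1 (col_io D)
        have h3 : (A.p : ℤ) ∣ A.w * (A.sg * (io A - idx A k) - 1) := by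
          unfold io col at *
          rwa [show n1 A - A.sg * A.w * idx A k - A.w
            - (n1 A - A.sg * A.w * idx A (A.om * A.h * n1 A))
            = A.w * (A.sg * (idx A (A.om * A.h * n1 A) - idx A k) - 1) by ring] at h2
        have h4 := ((cop_w A).symm.dvd_of_dvd_mul_left h3).mul_left A.sg
        rw [show A.sg * (A.sg * (io A - idx A k) - 1)
          = (A.sg * A.sg) * (io A - idx A k) - A.sg by ring, sg2, one_mul] at h4
        obtain ⟨e, he⟩ := h4
        have e1 : e < 2 := by
          by_contra hc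
          have := qd_le hp (show 2 ≤ e by omega)
          rcases A.hsg with h | h <;> omega
        have e2 : -2 < e := by
          by_contra hc
          have := qd_le hp (show e ≤ -2 by omega)
          rcases A.hsg with h | h <;> omega
        have hn := n1_cases A
        obtain rfl | rfl | rfl : e = -1 ∨ e = 0 ∨ e = 1 := by omega
        · rcases A.k0_cases with ⟨s1, s2⟩ | ⟨s1, s2⟩ <;> omega
        · rcases A.k0_cases with ⟨s1, s2⟩ | ⟨s1, s2⟩ <;> omega
        · rcases A.k0_cases with ⟨s1, s2⟩ | ⟨s1, s2⟩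
          · omega
          · exfalso
            have i2 : idx A k = 0 := by omega
            have i3 : col A k = 0 := by unfold col; rw [i2, mul_zero]
            rw [i3, sub_zero, Int.emod_eq_of_lt (by omega) (by omega)] at hd
            omega
      constructor
      · intro _; omega
      · intro _; rw [c]; omega
    · have := qd_le hq (show (A.w : ℤ) + 1 ≤ d by omega)
      rw [mul_add, mul_one] at this
      constructor
      · intro _; exfalso; omega
      · intro _; exfalso; omega

/-- the successor class -/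
theorem col_succ (D : Dat1 A x) (k : ℤ) : (A.p : ℤ) ∣ col A (k + A.h) - (col A k + A.om) := by
  have h1 := row_col D k
  have h2 := row_col D (k + A.h)
  apply dvd_col (A := A)
  have := dvd_sub h2 h1
  rwa [show A.om * A.h * col A (k + A.h) - (k + A.h) - (A.om * A.h * col A k - k)
    = A.om * A.h * (col A (k + A.h) - (col A k + A.om)) + (A.om * A.om - 1) * A.h by ring,
    om2, sub_self, zero_mul, add_zero] at this

/-- the arc length `ell` -/
theorem ell_val (D : Dat1 A x) (k : ℤ) :
    (A.cfg 0).ell k = if A.om = 1 then A.q + (idx A (k + A.h) - idx A k)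
      else A.q * (A.p - 1) + (idx A (k + A.h) - idx A k) := by
  have hp := p0 A
  have hq := q0 A
  have hpq := pq A
  have i0 := idx_nonneg A k
  have i1 := idx_lt A k
  have j0 := idx_nonneg A (k + A.h)
  have j1 := idx_lt A (k + A.h)
  have w2 := A.w2
  have hw := A.hw
  have hU := U_eq D k
  have hU' := U_eq D (k + A.h)
  have hs := col_succ D k
  obtain ⟨c, hc⟩ := hs
  have e1 : (A.cfg 0).ell k
      = (A.q * A.om + (idx A (k + A.h) - idx A k)) % ((A.p : ℤ) * A.q) := by
    change ((A.cfg 0).U (k + A.h) - (A.cfg 0).U k) % ((A.p : ℤ) * A.q) = _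
    apply emod_congr
    have := dvd_add (dvd_sub hU' hU) (dvd_mul_right ((A.p : ℤ) * A.q) c)
    rwa [show (A.cfg 0).U (k + A.h) - (A.q * col A (k + A.h) + idx A (k + A.h))
      - ((A.cfg 0).U k - (A.q * col A k + idx A k)) + (A.p : ℤ) * A.q * c
      = (A.cfg 0).U (k + A.h) - (A.cfg 0).U k - (A.q * A.om + (idx A (k + A.h) - idx A k)) by
        linear_combination (-(A.q : ℤ)) * hc] at this
  rw [e1]
  rcases A.hom with h | h
  · rw [if_pos h, h, mul_one, Int.emod_eq_of_lt (by omega)]
    have := qd_le hq (show 2 ≤ (A.p : ℤ) by omega)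
    rw [mul_comm (A.q : ℤ) A.p] at this
    omega
  · rw [if_neg (by omega), h, show (A.q : ℤ) * (-1) + (idx A (k + A.h) - idx A k)
      = (A.q * (A.p - 1) + (idx A (k + A.h) - idx A k)) + (A.p * A.q) * (-1) by ring,
      Int.add_mul_emod_self_left, Int.emod_eq_of_lt]
    · have := qd_le hq (show 1 ≤ (A.p : ℤ) - 1 by omega)
      rw [mul_one] at this
      omega
    · rw [mul_sub, mul_one, mul_comm (A.q : ℤ) A.p]
      omega

/-- first part of `g` -/
theorem arc_val (D : Dat1 A x) (k : ℤ) :
    ph (A.cfg 0).N ((A.cfg 0).U k) ((A.cfg 0).ell k) (uu A) =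
      if A.om = 1 then dl A.p k else 1 - dl A.p k := by
  have hp := p0 A
  have hq := q0 A
  have hpq := pq A
  have k1 := k0_bd A
  have i0 := idx_nonneg A k
  have i1 := idx_lt A k
  have j0 := idx_nonneg A (k + A.h)
  have j1 := idx_lt A (k + A.h)
  have o0 := io_nonneg A
  have o1 := io_lt A
  have w2 := A.w2
  have hw := A.hw
  have d0 := Int.emod_nonneg (n1 A - col A k) hp.ne'
  have d1 := Int.emod_lt_of_pos (n1 A - col A k) hp
  have de := Int.mul_ediv_add_emod (n1 A - col A k) A.p
  unfold ph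
  rw [uval D k, ell_val D k, N_eq]
  -- `k ≡ 0` iff the column is `0`
  have z1 : (A.p : ℤ) ∣ k ↔ (A.p : ℤ) ∣ col A k := by
    have := col_iff D k 0
    rw [mul_zero, zero_sub, zero_sub, dvd_neg, dvd_neg] at this
    exact this.symm
  rcases n1_cases A with ⟨ho, hn⟩ | ⟨ho, hn⟩
  · simp only [if_pos ho]
    -- `om = 1`
    have z2 : (A.p : ℤ) ∣ k ↔ (n1 A - col A k) % (A.p : ℤ) = 1 := by
      rw [z1, hn]
      constructor
      · rintro ⟨c, hc⟩
        rw [hc, show 1 - (A.p : ℤ) * c = 1 + A.p * (-c) by ring, Int.add_mul_emod_self_left,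
          Int.emod_eq_of_lt (by omega) (by omega)]
      · intro h
        have := Int.mul_ediv_add_emod (1 - col A k) A.p
        rw [h] at this
        exact ⟨-((1 - col A k) / A.p), by linear_combination this⟩
    unfold dl
    by_cases h : (n1 A - col A k) % (A.p : ℤ) = 0
    · rw [if_pos h, if_neg, if_neg]
      · rw [z2]; omega
      · have := qd_le hq (show 2 ≤ (A.p : ℤ) - 1 by omega)
        rw [mul_sub, mul_one, mul_comm (A.q : ℤ) A.p] at this
        omega
    · rw [if_neg h]
      by_cases h' : (n1 A - col A k) % (A.p : ℤ) = 1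
      · rw [if_pos (z2.2 h'), h', mul_one, if_pos]
        -- the successor is the class in column one
        have : idx A (k + A.h) = io A := by
          apply idx_of_col D
          obtain ⟨a, ha⟩ := col_succ D k
          obtain ⟨b, hb⟩ := col_io D
          rw [h'] at de
          refine ⟨a + b - (n1 A - col A k) / A.p, ?_⟩
          rw [ho] at ha
          linear_combination ha + hb + de
        omega
      · rw [if_neg (fun hk => h' (z2.1 hk)), if_neg]
        have := qd_le hq (show 2 ≤ (n1 A - col A k) % (A.p : ℤ) by omega)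
        omega
  · have ho' : ¬ A.om = 1 := by omega
    simp only [if_neg ho']
    have o2 : io A = 0 := by
      unfold io idx; rw [hn, mul_zero, mul_zero, Int.zero_emod]
    have z2 : (A.p : ℤ) ∣ k ↔ (n1 A - col A k) % (A.p : ℤ) = 0 := by
      rw [z1, hn, zero_sub, ← Int.dvd_iff_emod_eq_zero, dvd_neg]
    unfold dl
    by_cases h : (n1 A - col A k) % (A.p : ℤ) = 0
    · simp only [if_pos h, if_pos (z2.2 h)]
      rw [if_neg]
      · norm_num
      · have i2 : idx A k = 0 := by
          obtain ⟨c, hc⟩ := z2.2 h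
          unfold idx
          rw [hc, show A.e' * (A.p * c) = A.p * (A.e' * c) by ring, Int.mul_emod_right]
        rw [mul_sub, mul_one, mul_comm (A.q : ℤ) A.p]
        omega
    · have h2 : ¬ (A.p : ℤ) ∣ k := fun hk => h (z2.1 hk)
      simp only [if_neg h, if_neg h2]
      rw [if_pos]
      · norm_num
      · have := qd_le hq (show (n1 A - col A k) % (A.p : ℤ) ≤ A.p - 1 by omega)
        omega

/-- the ratio `V / U` -/
def gg (A : TAp) : ℤ := 1 + A.om * A.h

/-- height `v` in row `m` -/
def vv (A : TAp) (m : ℤ) : ℤ := A.q * (m + 1) - 1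

theorem V_eq (D : Dat1 A x) (k : ℤ) :
    (A.p : ℤ) * A.q ∣ (A.cfg 0).V k - (A.q * (gg A * col A k) + idx A k) := by
  have h1 := U_eq D k
  obtain ⟨c, hc⟩ := row_col D k
  have h2 : (A.p : ℤ) * A.q ∣ A.q * (A.om * A.h * col A k - k) := ⟨c, by rw [hc]; ring⟩
  have := dvd_sub h1 h2
  unfold gg
  have e : (A.cfg 0).V k = (A.cfg 0).U k + A.q * k := rfl
  rw [e]
  rwa [show (A.cfg 0).U k - (A.q * col A k + idx A k) - A.q * (A.om * A.h * col A k - k)
    = (A.cfg 0).U k + A.q * k - (A.q * ((1 + A.om * A.h) * col A k) + idx A k) by ring] at this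

/-- vertical membership -/
theorem ver_val (D : Dat1 A x) (k m : ℤ) :
    (A.cfg 0).ver k (vv A m) = if (m + A.h - gg A * col A k) % A.p < A.h then 1 else 0 := by
  have hp := p0 A
  have hq := q0 A
  have hpq := pq A
  have i0 := idx_nonneg A k
  have i1 := idx_lt A k
  have h2 := A.h2
  have d0 := Int.emod_nonneg (m + A.h - gg A * col A k) hp.ne'
  have d1 := Int.emod_lt_of_pos (m + A.h - gg A * col A k) hp
  have hV := V_eq D k
  have hH : (A.cfg 0).H = A.q * A.h := rfl
  unfold Cfg.ver ph
  have e1 : (vv A m - ((A.cfg 0).V k - (A.cfg 0).H)) % (A.cfg 0).N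
      = A.q * ((m + A.h - gg A * col A k) % A.p) + (A.q - 1 - idx A k) := by
    rw [← emod_val (p := A.p)]
    · rw [N_eq, hH]
      apply emod_congr
      rw [← dvd_neg]
      unfold vv
      rwa [show -(A.q * (m + 1) - 1 - ((A.cfg 0).V k - A.q * A.h)
        - (A.q * (m + A.h - gg A * col A k) + (A.q - 1 - idx A k)))
        = (A.cfg 0).V k - (A.q * (gg A * col A k) + idx A k) by ring]
    · have := qd_le hq d0
      rw [mul_zero] at this
      omega
    · have := qd_le hq (show (m + A.h - gg A * col A k) % (A.p : ℤ) ≤ A.p - 1 by omega)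
      rw [mul_sub, mul_one, mul_comm (A.q : ℤ) A.p] at this
      omega
  rw [e1, hH]
  refine if_congr ?_ rfl rfl
  constructor
  · intro h
    by_contra hc
    have := qd_le hq (show (A.h : ℤ) ≤ (m + A.h - gg A * col A k) % (A.p : ℤ) by omega)
    omega
  · intro h
    have := qd_le hq (show (m + A.h - gg A * col A k) % (A.p : ℤ) ≤ A.h - 1 by omega)
    rw [mul_sub, mul_one] at this
    omega

/-- the function `f` -/
theorem arcV_val (D : Dat1 A x) (k m : ℤ) :
    ph (A.cfg 0).N ((A.cfg 0).V k) ((A.cfg 0).ell k) (vv A m) =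
      if A.om = 1 then dl A.p (m - gg A * col A k) else 1 - dl A.p (m + 1 - gg A * col A k) := by
  have hp := p0 A
  have hq := q0 A
  have hpq := pq A
  have i0 := idx_nonneg A k
  have i1 := idx_lt A k
  have j0 := idx_nonneg A (k + A.h)
  have j1 := idx_lt A (k + A.h)
  have h2 := A.h2
  have d0 := Int.emod_nonneg (m - gg A * col A k) hp.ne'
  have d1 := Int.emod_lt_of_pos (m - gg A * col A k) hp
  have de := Int.mul_ediv_add_emod (m - gg A * col A k) A.p
  have hV := V_eq D k
  unfold ph
  have e1 : (vv A m - (A.cfg 0).V k) % (A.cfg 0).N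
      = A.q * ((m - gg A * col A k) % A.p) + (A.q - 1 - idx A k) := by
    rw [← emod_val (p := A.p)]
    · rw [N_eq]
      apply emod_congr
      rw [← dvd_neg]
      unfold vv
      rwa [show -(A.q * (m + 1) - 1 - (A.cfg 0).V k
        - (A.q * (m - gg A * col A k) + (A.q - 1 - idx A k)))
        = (A.cfg 0).V k - (A.q * (gg A * col A k) + idx A k) by ring]
    · have := qd_le hq d0
      rw [mul_zero] at this
      omega
    · have := qd_le hq (show (m - gg A * col A k) % (A.p : ℤ) ≤ A.p - 1 by omega)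
      rw [mul_sub, mul_one, mul_comm (A.q : ℤ) A.p] at this
      omega
  rw [e1, ell_val D k]
  set d := (m - gg A * col A k) % (A.p : ℤ) with hd
  rcases A.hom with ho | ho
  · simp only [if_pos ho]
    unfold dl
    have z : (A.p : ℤ) ∣ m - gg A * col A k ↔ d = 0 := Int.dvd_iff_emod_eq_zero
    by_cases h : d = 0
    · rw [if_pos (z.2 h), if_pos]
      rw [h, mul_zero]; omega
    · rw [if_neg (fun hk => h (z.1 hk)), if_neg]
      have := qd_le hq (show 1 ≤ d by omega)
      omega
  · have ho' : ¬ A.om = 1 := by omega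
    simp only [if_neg ho']
    unfold dl
    have z : (A.p : ℤ) ∣ m + 1 - gg A * col A k ↔ d = A.p - 1 := by
      constructor
      · rintro ⟨c, hc⟩
        rw [hd, show m - gg A * col A k = ((A.p : ℤ) - 1) + A.p * (c - 1) by linear_combination hc,
          Int.add_mul_emod_self_left, Int.emod_eq_of_lt (by omega) (by omega)]
      · intro h
        rw [h] at de
        exact ⟨(m - gg A * col A k) / A.p + 1, by linear_combination -de⟩
    by_cases h : d = A.p - 1
    · rw [if_pos (z.2 h), if_neg]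
      · norm_num
      · rw [h]; omega
    · rw [if_neg (fun hk => h (z.1 hk)), if_pos]
      · norm_num
      · have := qd_le hq (show d ≤ A.p - 1 - 1 by omega)
        rw [mul_sub (A.q : ℤ) _ 1, mul_one] at this
        omega

theorem dl_congr {p a b : ℤ} (h : p ∣ a ↔ p ∣ b) : dl p a = dl p b := by
  unfold dl; exact if_congr h rfl rfl

theorem ind_eq {p : ℤ} {n : ℕ} (hn : (n : ℤ) < p) (z : ℤ) :
    (if z % p < n then (1 : ℤ) else 0) = ∑ l ∈ range n, dl p (z - l) := by
  have hp : 0 < p := by omega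
  have := cw_eq hp n z
  rw [Int.ediv_eq_zero_of_lt (by omega) hn, zero_add, Int.emod_eq_of_lt (by omega) hn] at this
  rw [← this]
  refine Finset.sum_congr rfl fun l _ => dl_congr ?_
  rw [← dvd_neg, neg_sub]

/-- `R` at the chosen column -/
theorem R_val (D : Dat1 A x) (m : ℤ) :
    (A.cfg 0).R (uu A) (vv A m) =
      ∑ l ∈ range A.w, if (m + A.h - gg A * (n1 A - 1 - l)) % A.p < A.h then (1 : ℤ) else 0 := by
  have hp := p0 A
  have w2 := A.w2
  have hwp : (A.w : ℤ) < A.p := by omega
  unfold Cfg.R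
  have e1 : ∀ k ∈ range (A.cfg 0).p,
      (A.cfg 0).hor k (uu A) * (A.cfg 0).ver k (vv A m) =
      ∑ l ∈ range A.w, dl A.p ((k : ℤ) - A.om * A.h * (n1 A - 1 - l)) *
        if (m + A.h - gg A * (n1 A - 1 - l)) % A.p < A.h then (1 : ℤ) else 0 := by
    intro k _
    rw [hor_val D, ver_val D, ind_eq hwp, Finset.sum_mul]
    refine Finset.sum_congr rfl fun l _ => ?_
    by_cases h : (A.p : ℤ) ∣ n1 A - 1 - l - col A k
    · have h1 : dl A.p (n1 A - 1 - col A k - l) = 1 := by
        unfold dl; rw [if_pos]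
        rwa [show n1 A - 1 - col A k - (l : ℤ) = n1 A - 1 - l - col A k by ring]
      have h2 : dl A.p ((k : ℤ) - A.om * A.h * (n1 A - 1 - l)) = 1 := by
        unfold dl; rw [if_pos]
        rw [← dvd_neg, neg_sub]
        exact (col_iff D k _).1 h
      rw [h1, h2]
      congr 2
      have : (m + A.h - gg A * col A k) % (A.p : ℤ)
          = (m + A.h - gg A * (n1 A - 1 - l)) % (A.p : ℤ) := by
        apply emod_congr
        have := h.mul_left (gg A)
        rwa [show gg A * (n1 A - 1 - l - col A k)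
          = m + A.h - gg A * col A k - (m + A.h - gg A * (n1 A - 1 - l)) by ring] at this
      rw [this]
    · have h1 : dl A.p (n1 A - 1 - col A k - l) = 0 := by
        unfold dl; rw [if_neg]
        rwa [show n1 A - 1 - col A k - (l : ℤ) = n1 A - 1 - l - col A k by ring]
      have h2 : dl A.p ((k : ℤ) - A.om * A.h * (n1 A - 1 - l)) = 0 := by
        unfold dl; rw [if_neg]
        rw [← dvd_neg, neg_sub]
        exact fun h' => h ((col_iff D k _).2 h')
      rw [h1, h2, zero_mul, zero_mul]
  rw [Finset.sum_congr rfl e1, Finset.sum_comm]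
  refine Finset.sum_congr rfl fun l _ => ?_
  rw [← Finset.sum_mul]
  have : ∑ k ∈ range (A.cfg 0).p, dl A.p ((k : ℤ) - A.om * A.h * (n1 A - 1 - l)) = 1 := by
    change ∑ k ∈ range A.p, dl A.p ((k : ℤ) - A.om * A.h * (n1 A - 1 - l)) = 1
    rw [cw_eq hp, Int.ediv_self hp.ne', Int.emod_self, if_neg, add_zero]
    have := Int.emod_nonneg (A.om * A.h * (n1 A - 1 - l)) hp.ne'
    omega
  rw [this, one_mul]

/-- second part of `g` -/
theorem g2_val (D : Dat1 A x) (y : ℤ) :
    ∑ i ∈ range A.h, ph (A.cfg 0).N ((A.cfg 0).U (y + A.w + i)) (A.cfg 0).W (uu A) =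
      ∑ l ∈ range A.w, if (A.om * A.h * (n1 A - 1 - l) - y - A.w) % A.p < A.h then (1 : ℤ)
        else 0 := by
  have hp := p0 A
  have w2 := A.w2
  have h2 := A.h2
  have hwp : (A.w : ℤ) < A.p := by omega
  have hhp : (A.h : ℤ) < A.p := by omega
  have e1 : ∀ i ∈ range A.h, ph (A.cfg 0).N ((A.cfg 0).U (y + A.w + i)) (A.cfg 0).W (uu A)
      = ∑ l ∈ range A.w, dl A.p (A.om * A.h * (n1 A - 1 - l) - y - A.w - i) := by
    intro i _
    have := hor_val D (y + A.w + i)
    unfold Cfg.hor at this
    rw [this, ind_eq hwp]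
    refine Finset.sum_congr rfl fun l _ => dl_congr ?_
    rw [show n1 A - 1 - col A (y + A.w + i) - (l : ℤ) = n1 A - 1 - l - col A (y + A.w + i) by ring,
      col_iff D]
    rw [show A.om * A.h * (n1 A - 1 - (l : ℤ)) - (y + A.w + i)
      = A.om * A.h * (n1 A - 1 - l) - y - A.w - i by ring]
  rw [Finset.sum_congr rfl e1, Finset.sum_comm]
  refine Finset.sum_congr rfl fun l _ => ?_
  rw [ind_eq hhp]

theorem f_iff (D : Dat1 A x) (k m : ℤ) :
    (A.p : ℤ) ∣ m - gg A * col A k ↔ (A.p : ℤ) ∣ A.h * m - A.om * gg A * k := by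
  have h1 := row_col D k
  have o2 := om2 A
  constructor
  · intro h
    have := dvd_add (h.mul_left (A.h : ℤ)) (h1.mul_left (A.om * gg A))
    rwa [show (A.h : ℤ) * (m - gg A * col A k) + A.om * gg A * (A.om * A.h * col A k - k)
      = A.h * m - A.om * gg A * k + (A.om * A.om - 1) * (gg A * A.h * col A k) by ring,
      o2, sub_self, zero_mul, add_zero] at this
  · intro h
    apply (cop_h A).symm.dvd_of_dvd_mul_left
    have := dvd_sub h (h1.mul_left (A.om * gg A))
    rwa [show A.h * m - A.om * gg A * k - A.om * gg A * (A.om * A.h * col A k - k)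
      = (A.h : ℤ) * (m - gg A * col A k) - (A.om * A.om - 1) * (gg A * A.h * col A k) by ring,
      o2, sub_self, zero_mul, sub_zero] at this

/-- `⌊-a/p⌋` -/
theorem neg_ediv' {p : ℤ} (hp : 0 < p) (a : ℤ) : (-a) / p = -((a - 1) / p) - 1 := by
  rw [Int.ediv_eq_iff_of_pos hp]
  have h0 := Int.mul_ediv_add_emod (a - 1) p
  have h1 := Int.emod_nonneg (a - 1) hp.ne'
  have h2 := Int.emod_lt_of_pos (a - 1) hp
  set t := (a - 1) / p
  have : (-t - 1) * p = -(p * t) - p := by ring
  constructor <;> omega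

theorem add_mul_ediv' {p : ℤ} (hp : 0 < p) (a c : ℤ) : (a + p * c) / p = a / p + c :=
  Int.add_mul_ediv_left a c hp.ne'

/-- flatness in terms of the combinatorial functions -/
theorem flat_core (F : A.Fl) (D : Dat1 A x) (m y : ℤ) :
    |rho A.p x m - rho A.p x y - bb A.p (gg A) A.w m + ff A.p (gg A) A.h A.om A.w m y| ≤ 1 := by
  have hp := p0 A
  have w2 := A.w2
  have h2 := A.h2
  have hh := A.hh
  obtain ⟨K, hK⟩ : (A.p : ℤ) ∣ gg A * A.w - x := by
    have := D.gw
    rw [← dvd_neg] at this
    unfold gg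
    rwa [show -(x - (A.w : ℤ) - A.om * A.h * A.w) = (1 + A.om * A.h) * A.w - x by ring] at this
  have C1 : ∑ i ∈ range A.w, dl A.p (y + i) = (y + A.w - 1) / A.p - (y - 1) / A.p := by
    have e : ∀ i ∈ range A.w, dl A.p (y + (i : ℤ)) =
        (fun n : ℕ => (y + n - 1) / (A.p : ℤ)) (i + 1) - (fun n : ℕ => (y + n - 1) / (A.p : ℤ)) i := by
      intro i _
      rw [dl_tel hp]
      push_cast
      rw [show y + ((i : ℤ) + 1) - 1 = y + i by ring]
    rw [Finset.sum_congr rfl e, Finset.sum_range_sub (fun n : ℕ => (y + n - 1) / (A.p : ℤ))]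
    push_cast
    rw [add_zero]
  have q1 : (m + gg A * A.w - 1) / (A.p : ℤ) = (m + x - 1) / A.p + K := by
    rw [← add_mul_ediv' hp, ← hK]; congr 1; ring
  have q2 : (-(gg A * A.w + y)) / (A.p : ℤ) = -((x + y - 1) / A.p) - 1 - K := by
    rw [show -(gg A * A.w + y) = -(x + y) + A.p * (-K) by linear_combination -hK,
      add_mul_ediv' hp, neg_ediv' hp]; ring
  have q3 : (-(y + A.w)) / (A.p : ℤ) = -((y + A.w - 1) / A.p) - 1 := neg_ediv' hp _
  have gU : ∀ y, (A.cfg 0).g y (uu A) =
      (∑ i ∈ range A.w, if A.om = 1 then dl A.p (y + i) else 1 - dl A.p (y + i)) +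
      ∑ l ∈ range A.w, if (A.om * A.h * (n1 A - 1 - l) - y - A.w) % A.p < A.h then (1 : ℤ)
        else 0 := by
    intro y
    unfold Cfg.g
    congr 1
    · exact Finset.sum_congr rfl fun i _ => arc_val D _
    · exact g2_val D y
  have fV : ∀ y m, (A.cfg 0).f y (vv A m) =
      ∑ i ∈ range A.w, if A.om = 1 then dl A.p (m - gg A * col A (y + i))
        else 1 - dl A.p (m + 1 - gg A * col A (y + i)) := by
    intro y m
    unfold Cfg.f
    exact Finset.sum_congr rfl fun i _ => arcV_val D _ _
  rcases n1_cases A with ⟨ho, hn⟩ | ⟨ho, hn⟩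
  · -- `om = 1`
    have key := F (uu A) (vv A m) y (uu_vis D)
    rw [R_val D, gU, fV] at key
    simp only [if_pos ho] at key
    have hA : (∑ l ∈ range A.w,
        if (m + A.h - gg A * (n1 A - 1 - l)) % A.p < A.h then (1 : ℤ) else 0)
        = (m + gg A * A.w - 1) / A.p - (m - 1) / A.p - bb A.p (gg A) A.w m := by
      have e : ∀ l ∈ range A.w,
          (if (m + A.h - gg A * (n1 A - 1 - (l : ℤ))) % A.p < A.h then (1 : ℤ) else 0) =
          ((fun n : ℕ => (m + gg A * n - 1) / (A.p : ℤ)) (l + 1)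
            - (fun n : ℕ => (m + gg A * n - 1) / (A.p : ℤ)) l) - dl A.p (m + gg A * l) := by
        intro l _
        rw [lt_tel hp (by omega) (by omega), dl_tel hp]
        push_cast
        rw [show m + (A.h : ℤ) - gg A * (n1 A - 1 - l) = m + gg A * (l + 1) - 1 by
          rw [hn]; unfold gg; rw [ho]; ring,
          show m + gg A * ((l : ℤ) + 1) - 1 - A.h = m + gg A * l by unfold gg; rw [ho]; ring]
        ring
      rw [Finset.sum_congr rfl e, Finset.sum_sub_distrib,
        Finset.sum_range_sub (fun n : ℕ => (m + gg A * n - 1) / (A.p : ℤ))]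
      unfold bb
      push_cast
      rw [mul_zero, add_zero]
    have hB : (∑ l ∈ range A.w,
        if (A.om * A.h * (n1 A - 1 - l) - y - A.w) % A.p < A.h then (1 : ℤ) else 0)
        = (-(y + A.w)) / A.p - (-(gg A * A.w + y)) / A.p := by
      have e : ∀ l ∈ range A.w,
          (if (A.om * A.h * (n1 A - 1 - (l : ℤ)) - y - A.w) % A.p < A.h then (1 : ℤ) else 0) =
          (fun n : ℕ => -((-(A.h * n + y + A.w)) / (A.p : ℤ))) (l + 1)
            - (fun n : ℕ => -((-(A.h * n + y + A.w)) / (A.p : ℤ))) l := by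
        intro l _
        rw [lt_tel hp (by omega) (by omega)]
        push_cast
        rw [show A.om * (A.h : ℤ) * (n1 A - 1 - l) - y - A.w = -(A.h * l + y + A.w) by
          rw [hn, ho]; ring,
          show -((A.h : ℤ) * l + y + A.w) - A.h = -(A.h * (l + 1) + y + A.w) by ring]
        ring
      rw [Finset.sum_congr rfl e,
        Finset.sum_range_sub (fun n : ℕ => -((-(A.h * n + y + A.w)) / (A.p : ℤ)))]
      push_cast
      rw [mul_zero, zero_add, show gg A * (A.w : ℤ) + y = A.h * A.w + y + A.w by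
        unfold gg; rw [ho]; ring]
      ring
    have hF : (∑ i ∈ range A.w, dl A.p (m - gg A * col A (y + i)))
        = ff A.p (gg A) A.h A.om A.w m y := by
      unfold ff
      exact Finset.sum_congr rfl fun i _ => dl_congr (f_iff D _ _)
    rw [hA, hB, hF, C1, q1, q2, q3] at key
    unfold rho
    rw [show (x + y - 1) / (A.p : ℤ) = (y + x - 1) / (A.p : ℤ) by rw [add_comm x y]] at key
    rw [abs_le] at key ⊢
    constructor <;> omega
  · -- `om = -1`
    have ho' : ¬ A.om = 1 := by omega
    have key := F (uu A) (vv A (m - 1)) y (uu_vis D)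
    rw [R_val D, gU, fV] at key
    simp only [if_neg ho'] at key
    have hA : (∑ l ∈ range A.w,
        if (m - 1 + A.h - gg A * (n1 A - 1 - l)) % A.p < A.h then (1 : ℤ) else 0)
        = (m - 1) / A.p - (m + gg A * A.w - 1) / A.p + bb A.p (gg A) A.w m := by
      have e : ∀ l ∈ range A.w,
          (if (m - 1 + A.h - gg A * (n1 A - 1 - (l : ℤ))) % A.p < A.h then (1 : ℤ) else 0) =
          ((fun n : ℕ => -((m + gg A * n - 1) / (A.p : ℤ))) (l + 1)
            - (fun n : ℕ => -((m + gg A * n - 1) / (A.p : ℤ))) l) + dl A.p (m + gg A * l) := by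
        intro l _
        rw [lt_tel hp (by omega) (by omega), dl_tel hp]
        push_cast
        rw [show m - 1 + (A.h : ℤ) - gg A * (n1 A - 1 - l) = m + gg A * l by
          rw [hn]; unfold gg; rw [ho]; ring,
          show m + gg A * (l : ℤ) - A.h = m + gg A * (l + 1) - 1 by unfold gg; rw [ho]; ring]
        ring
      rw [Finset.sum_congr rfl e, Finset.sum_add_distrib,
        Finset.sum_range_sub (fun n : ℕ => -((m + gg A * n - 1) / (A.p : ℤ)))]
      unfold bb
      push_cast
      rw [mul_zero, add_zero]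
      ring
    have hB : (∑ l ∈ range A.w,
        if (A.om * A.h * (n1 A - 1 - l) - y - A.w) % A.p < A.h then (1 : ℤ) else 0)
        = (-(gg A * A.w + y)) / A.p - (-(y + A.w)) / A.p := by
      have e : ∀ l ∈ range A.w,
          (if (A.om * A.h * (n1 A - 1 - (l : ℤ)) - y - A.w) % A.p < A.h then (1 : ℤ) else 0) =
          (fun n : ℕ => (A.h * n - (y + A.w)) / (A.p : ℤ)) (l + 1)
            - (fun n : ℕ => (A.h * n - (y + A.w)) / (A.p : ℤ)) l := by
        intro l _
        rw [lt_tel hp (by omega) (by omega)]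
        push_cast
        rw [show A.om * (A.h : ℤ) * (n1 A - 1 - l) - y - A.w = A.h * (l + 1) - (y + A.w) by
          rw [hn, ho]; ring,
          show (A.h : ℤ) * (l + 1) - (y + A.w) - A.h = A.h * l - (y + A.w) by ring]
      rw [Finset.sum_congr rfl e,
        Finset.sum_range_sub (fun n : ℕ => (A.h * n - (y + A.w)) / (A.p : ℤ))]
      push_cast
      rw [mul_zero, zero_sub, show -(gg A * (A.w : ℤ) + y) = A.h * A.w - (y + A.w) by
        unfold gg; rw [ho]; ring]
    have hF : (∑ i ∈ range A.w, (1 - dl A.p (m - 1 + 1 - gg A * col A (y + i))))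
        = A.w - ff A.p (gg A) A.h A.om A.w m y := by
      rw [Finset.sum_sub_distrib, Finset.sum_const, Finset.card_range, nsmul_eq_mul, mul_one]
      congr 1
      unfold ff
      refine Finset.sum_congr rfl fun i _ => dl_congr ?_
      rw [sub_add_cancel]
      exact f_iff D _ _
    have hC : (∑ i ∈ range A.w, (1 - dl A.p (y + (i : ℤ))))
        = A.w - ((y + A.w - 1) / A.p - (y - 1) / A.p) := by
      rw [Finset.sum_sub_distrib, Finset.sum_const, Finset.card_range, nsmul_eq_mul, mul_one, C1]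
    rw [hA, hB, hF, hC, q1, q2, q3] at key
    unfold rho
    rw [show (x + y - 1) / (A.p : ℤ) = (y + x - 1) / (A.p : ℤ) by rw [add_comm x y]] at key
    rw [abs_le] at key ⊢
    constructor <;> omega

/-- **ties of index one** are impossible (`x ≠ 0`) -/
theorem dat_false (F : A.Fl) (D : Dat1 A x) (hx : x ≠ 0) (hx' : |x| < A.h) : False := by
  have hgw : (A.p : ℤ) ∣ gg A * A.w - x := by
    have := D.gw
    rw [← dvd_neg] at this
    unfold gg
    rwa [show -(x - (A.w : ℤ) - A.om * A.h * A.w) = (1 + A.om * A.h) * A.w - x by ring] at this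
  have w2 := A.w2
  have h2 := A.h2
  have hh := A.hh
  exact core A.hom rfl hgw (by omega) (by omega) (by omega) (cop_h A) hx hx'
    (fun m y => flat_core F D m y)

theorem one_tie_false (F : A.Fl) (T : A.Tie) (ht : T.t = 1) (hx : T.x ≠ 0) (hx' : |T.x| < A.h) :
    False := by
  have hp := p0 A
  have hq := q0 A
  have hpq := pq A
  have w2 := A.w2
  have hw := A.hw
  have htie := T.tie
  have hrow := T.row
  rw [ht, mul_one] at htie hrow
  -- `ep = sg`
  have hd := A.hd
  have h1 : (A.p : ℤ) * A.q ∣ (A.q * A.md + A.fd) - T.ep * A.sg * A.p := by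
    have h2 := dvd_sub (htie.mul_right (A.p : ℤ)) hd
    have h3 : (A.p : ℤ) * A.q ∣ T.ep * A.w * (A.p * A.q) := dvd_mul_left _ _
    have := dvd_add h2 h3
    rwa [show (A.a - T.ep * (A.q * A.w + A.sg)) * A.p - (A.a * A.p - (A.q * A.md + A.fd))
      + T.ep * A.w * (A.p * A.q) = (A.q * A.md + A.fd) - T.ep * A.sg * A.p by ring] at this
  have bad : ¬ (A.p : ℤ) * A.q ∣ (A.q * A.md + A.fd) + A.p := by
    intro h
    have hmd := A.hmd
    have hmd2 := A.hmd2
    have hfd := A.hfd
    have hfd2 := A.hfd2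
    have c0 : 0 ≤ (A.q : ℤ) * A.md := by positivity
    have c1 : (A.q : ℤ) * (2 * A.md) ≤ A.q * (A.p - 1) := qd_le hq (by omega)
    have c1' : (A.q : ℤ) * (2 * A.md) = 2 * (A.q * A.md) := by ring
    have c2 : (A.q : ℤ) * 4 ≤ A.q * (A.p - 1) := qd_le hq (by omega)
    have c3 : (A.p : ℤ) * A.q = A.q * (A.p - 1) + A.q := by ring
    have := Int.le_of_dvd (by omega) h
    omega
  have he : T.ep * A.sg = 1 := by
    rcases T.hep with e1 | e1 <;> rcases A.hsg with e2 | e2 <;> rw [e1, e2] at h1 ⊢
    · norm_num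
    · exfalso; apply bad
      rwa [show (A.q : ℤ) * A.md + A.fd - 1 * -1 * A.p = A.q * A.md + A.fd + A.p by ring] at h1
    · exfalso; apply bad
      rwa [show (A.q : ℤ) * A.md + A.fd - -1 * 1 * A.p = A.q * A.md + A.fd + A.p by ring] at h1
    · norm_num
  have hep : T.ep = A.sg := by
    rcases T.hep with e1 | e1 <;> rcases A.hsg with e2 | e2 <;> rw [e1, e2] at he ⊢ <;> omega
  rw [hep] at htie hrow
  refine dat_false F (x := T.x) ⟨?_, hrow, ?_⟩ hx hx'
  · rwa [show A.sg * (A.q * A.w + A.sg) = A.sg * A.q * A.w + A.sg * A.sg by ring, sg2] at htie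
  · -- `x - w ≡ om h w`
    obtain ⟨b, hb⟩ := A.hpw
    obtain ⟨c, hc⟩ := A.hqe
    obtain ⟨d, hd'⟩ := hrow
    have s2 := sg2 A
    refine ⟨-c * A.w + A.e * b - A.sg * d, ?_⟩
    linear_combination (-(A.w : ℤ)) * hc + A.e * hb - A.sg * hd' - (T.x - A.w) * s2

end Pool.Agent.H42.Tie
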