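import Pool.Agent.H42.Tie.Cyc

/-!
# `Gam` is not constant
-/

namespace Pool.Agent.H78.Tie

open Finset
open Pool.Agent.H98.Flat
open Pool.Agent.H67.Flat

set_option linter.dupNamespace false
set_option linter.unusedVariables false

namespace TAp

variable {A : TAp}

namespace VR

variable {T : A.Tie}

variable (h : VR A T) (cp : IsCoprime T.sig (A.h : ℤ))

theorem W1_big (h : VR A T) {n r : ℤ} (n0 : 0 < n) (hr : r ≤ n) : A.q * r < n * A.W1 := by
  have w := A.W1_bd
  have q6 := A.q6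
  have h1 : (A.q : ℤ) * r ≤ A.q * n := mul_le_mul_of_nonneg_left hr (by omega)
  have h2 : n * (2 * A.q - 1) ≤ n * A.W1 := mul_le_mul_of_nonneg_left w.1 n0.le
  have h3 : 0 < n * (A.q - 1) := mul_pos n0 (by omega)
  have h4 : n * (2 * A.q - 1) = A.q * n + n * (A.q - 1) := by ring
  omega

/-- **C3** -/
theorem C3 (hG : A.GC) (e : ℤ) :
    (h.dat cp).F e 1 0 + (h.dat cp).q * (h.dat cp).h < (h.dat cp).N := by
  obtain ⟨hn, b1, b2, b3, b4, b5, b6, b7, b8⟩ := h.basic
  change (h.dat cp).F e 1 0 + A.q * A.h < A.NN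
  have h1 := h.exc_le hG e (S := {0}) (by
    intro x hx
    rw [Finset.mem_singleton] at hx
    rw [hx, Finset.mem_range]; omega)
  rw [Finset.sum_singleton, Finset.sum_singleton, Nat.cast_zero] at h1
  have e1 : T.nxt 0 = A.h := by unfold Tie.nxt; rw [if_pos (by omega), zero_add]
  have e2 : A.bb 0 = 0 := by unfold bb; rw [if_pos (by omega), mul_zero]
  have e3 := h.st10 cp e (s := 0) le_rfl (by omega)
  rw [zero_add, A.kap0 (s := 0) (by omega), A.kap0 (s := (A.h : ℤ)) le_rfl, sub_zero, mul_zero,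
    add_zero, add_zero] at e3
  rw [e1, e2, e3] at h1
  have := h.W1_big (n := A.h) (r := A.h) (by omega) le_rfl
  omega

/-- **C1** -/
theorem C1 (hG : A.GC) (e : ℤ) : (h.dat cp).F e 1 (h.dat cp).m
    + (h.dat cp).q * ((h.dat cp).h - (h.dat cp).m * (h.dat cp).s) < (h.dat cp).N := by
  obtain ⟨hn, b1, b2, b3, b4, b5, b6, b7, b8⟩ := h.basic
  have d1 := (h.dat cp).h1
  have d3 := (h.dat cp).hm
  change (h.dat cp).F e 1 (h.dat cp).m + A.q * (A.h - (h.dat cp).m * T.sig) < A.NN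
  obtain ⟨m, hm⟩ := Int.eq_ofNat_of_zero_le (show 0 ≤ (h.dat cp).m by omega)
  rw [hm] at d1 d3 ⊢
  have d1' : (m : ℤ) * T.sig < A.h := d1
  have hj : ∀ j : ℕ, j < m → T.sig < A.h - (j : ℤ) * T.sig := by
    intro j hj
    have e1 : ((j : ℤ) + 1) * T.sig ≤ m * T.sig :=
      mul_le_mul_of_nonneg_right (by omega) (by omega)
    rw [add_mul, one_mul] at e1
    omega
  have hj0 : ∀ j : ℕ, 0 ≤ (j : ℤ) * T.sig := fun j => mul_nonneg (by omega) (by omega)
  set x : ℕ → ℕ := fun j => (A.h - (j : ℤ) * T.sig).toNat with hx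
  have hxj : ∀ j : ℕ, j < m → ((x j : ℕ) : ℤ) = A.h - j * T.sig := by
    intro j hj'
    have := hj j hj'
    rw [hx]
    simp only
    rw [Int.toNat_of_nonneg (by omega)]
  have h0 : 0 ∉ (range m).image x := by
    rw [Finset.mem_image]
    rintro ⟨j, hj1, hj2⟩
    have h3 := Finset.mem_range.1 hj1
    have h1 := hj j h3
    have h2 := hxj j h3
    rw [hj2] at h2
    push_cast at h2
    omega
  have hinj : Set.InjOn x (range m : Finset ℕ) := by
    intro i hi j hj1 hij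
    have i1 := hxj i (Finset.mem_range.1 (Finset.mem_coe.1 hi))
    have i2 := hxj j (Finset.mem_range.1 (Finset.mem_coe.1 hj1))
    rw [hij, i2] at i1
    have i3 : (j : ℤ) * T.sig = i * T.sig := by omega
    have := mul_right_cancel₀ (by omega : T.sig ≠ 0) i3
    exact_mod_cast this.symm
  have h1 := h.exc_le hG e (S := insert 0 ((range m).image x)) (by
    intro z hz
    rw [Finset.mem_insert, Finset.mem_image] at hz
    rw [Finset.mem_range]
    rcases hz with hz | ⟨j, hj1, hj2⟩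
    · rw [hz]; omega
    · have h3 := Finset.mem_range.1 hj1
      have h2 := hxj j h3
      have := hj0 j
      rw [hj2] at h2
      omega)
  rw [Finset.sum_insert h0, Finset.sum_insert h0, Finset.sum_image hinj, Finset.sum_image hinj,
    Nat.cast_zero] at h1
  have e1 : T.nxt 0 = A.h := by unfold Tie.nxt; rw [if_pos (by omega), zero_add]
  have e2 : A.bb 0 = 0 := by unfold bb; rw [if_pos (by omega), mul_zero]
  have e3 := h.st10 cp e (s := 0) le_rfl (by omega)
  rw [zero_add, A.kap0 (s := 0) (by omega), A.kap0 (s := (A.h : ℤ)) le_rfl, sub_zero, mul_zero,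
    add_zero, add_zero] at e3
  have e4 : ∑ j ∈ range m, A.bb ((x j : ℕ) : ℤ) = m * A.W1 := by
    rw [Finset.sum_congr rfl (g := fun _ => A.W1)]
    · rw [Finset.sum_const, Finset.card_range, nsmul_eq_mul]
    · intro j hj1
      have h3 := Finset.mem_range.1 hj1
      have h2 := hj j h3
      have := hj0 j
      rw [hxj j h3]
      unfold bb
      rw [if_neg (by omega), A.kap0 (by omega), mul_zero, sub_zero]
  have e5 : ∀ n : ℕ, n ≤ m → (h.dat cp).F e 1 n = (h.dat cp).F e 1 0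
      + ∑ j ∈ range n, A.cd e ((x j : ℕ) : ℤ) (T.nxt ((x j : ℕ) : ℤ)) := by
    intro n
    induction n with
    | zero => intro _; simp
    | succ n ih =>
      intro hn'
      have i1 := ih (by omega)
      have h3 : n < m := by omega
      have h2 := hj n h3
      have h5 := hj0 n
      rw [Finset.sum_range_succ, ← add_assoc, ← i1, hxj n h3]
      have e6 : T.nxt (A.h - n * T.sig) = A.h - n * T.sig - T.sig := by
        unfold Tie.nxt
        rw [if_neg (by omega), if_neg (by omega)]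
      rw [e6, h.st01 cp e (s := A.h - n * T.sig) (by omega) (by omega),
        A.kap0 (s := A.h - n * T.sig) (by omega),
        A.kap0 (s := A.h - n * T.sig - T.sig) (by omega), sub_zero, mul_zero, add_zero]
      have e7 := (h.dat cp).F_add e 1 n 0 1
      rw [show (h.dat cp).lab e 1 n = e + (A.h - n * T.sig) by
        unfold Pool.Agent.H42.Tie.Dat.lab
        simp only [dat]
        ring, add_zero] at e7
      push_cast
      exact e7
  have e8 := e5 m le_rfl
  rw [e1, e2, e3, e4, ← e8] at h1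
  have e9 : (m : ℤ) ≤ m * T.sig := by
    have := mul_le_mul_of_nonneg_left (show (1 : ℤ) ≤ T.sig by omega) (Nat.cast_nonneg (α := ℤ) m)
    rwa [mul_one] at this
  have := h.W1_big (n := A.h - m) (r := A.h - m * T.sig) (by omega) (by omega)
  rw [sub_mul] at this
  omega

/-- the value of `Gam` -/
theorem Gam_one (h : VR A T) (hG : A.GC) {s : ℤ} (s0 : 0 ≤ s) (s1 : s < A.nn) : A.Gam s = 1 := by
  obtain ⟨hn, b1, b2, b3, b4, b5, b6, b7, b8⟩ := h.basic
  obtain ⟨d, hd⟩ := Nat.exists_eq_add_of_le (show A.w ≤ A.h by omega)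
  have hN := A.NN_pos
  rw [hG s s0 s1, ← hG A.w (by omega) (by omega)]
  have e1 : A.Gam A.w
      = ∑ i ∈ range A.w, ph A.NN ((A.cfg 0).U (0 + i)) ((A.cfg 0).ell (0 + i)) (A.cs 0 A.w + 1)
        + ∑ i ∈ range A.h, ph A.NN ((A.cfg 0).U (0 + A.w + i)) (A.cfg 0).W (A.cs 0 A.w + 1) := rfl
  have e2 : ∑ i ∈ range A.h, ph A.NN ((A.cfg 0).U (0 + A.w + i)) (A.cfg 0).W (A.cs 0 A.w + 1)
      = ∑ i ∈ range d, ph A.NN ((A.cfg 0).U (0 + A.w + i)) (A.cfg 0).W (A.cs 0 A.w + 1)
        + ∑ i ∈ range A.w, ph A.NN ((A.cfg 0).U (0 + i + A.h)) (A.cfg 0).W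
          (A.cs 0 A.w + 1) := by
    rw [show range A.h = range (d + A.w) by rw [hd, add_comm], Finset.sum_range_add]
    congr 1
    refine Finset.sum_congr rfl fun i _ => ?_
    congr 2
    rw [hd]; push_cast; ring
  rw [e1, e2, add_left_comm, ← Finset.sum_add_distrib]
  have e3 : ∀ i ∈ range A.w, ph A.NN ((A.cfg 0).U (0 + i)) ((A.cfg 0).ell (0 + i))
      (A.cs 0 A.w + 1) + ph A.NN ((A.cfg 0).U (0 + i + A.h)) (A.cfg 0).W (A.cs 0 A.w + 1)
      = 0 := by
    intro i hi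
    have hi := Finset.mem_range.1 hi
    rw [h.term1 0 (s := A.w) (by omega) (by omega) (i := i) (by omega) (by omega), if_neg]
    have a := h.Nx_low hG (s := i) (by omega) (by omega)
    have := a.2.2.2.2.2 A.w (by omega) (by omega) (by omega) (by omega)
    omega
  rw [Finset.sum_eq_zero e3, add_zero, Finset.sum_eq_single 0]
  · have := h.term2 0 (s := A.w) (by omega) (by omega) (i := A.w + ((0 : ℕ) : ℤ)) (by simp)
      (by push_cast; omega)
    rw [if_pos (by simp)] at this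
    rw [add_assoc]
    exact this
  · intro i hi hne
    have hi := Finset.mem_range.1 hi
    have := h.term2 0 (s := A.w) (by omega) (by omega) (i := A.w + i) (by omega)
      (by omega)
    rw [if_neg (by omega)] at this
    rw [add_assoc]
    exact this
  · intro hh
    exact absurd (Finset.mem_range.2 (by omega)) hh

/-- `g` vanishes in the gap after a label in `[w, sig)` -/
theorem g_zero (h : VR A T) (hG : A.GC) (y : ℤ) {s u : ℤ} (s0 : A.w ≤ s) (s1 : s < T.sig)
    (u0 : (A.cfg 0).W ≤ (u - (A.cfg 0).U (y + s)) % A.NN)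
    (u1 : (u - (A.cfg 0).U (y + s)) % A.NN < A.dd (y + s) (y + s + A.h - T.sig)) :
    (A.cfg 0).g y u = 0 := by
  obtain ⟨hn, b1, b2, b3, b4, b5, b6, b7, b8⟩ := h.basic
  have q6 := A.q6
  have w := A.W1_bd
  have a := h.Nx_mid hG s0 s1
  have e : A.cd y s (s + A.h - T.sig) = A.dd (y + s) (y + s + A.h - T.sig) := by
    unfold cd dd cs
    rw [A.kap0 (s := s) (by omega), A.kap0 (s := s + A.h - T.sig) (by omega), mul_zero, add_zero,
      add_zero, show y + (s + A.h - T.sig) = y + s + A.h - T.sig by ring]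
  set τ := (u - (A.cfg 0).U (y + s)) % A.NN with hτ
  have h1 := h.gval a y (τ := τ) (by rcases b8 with h | h <;> rw [h] at b6 <;> omega)
    (by rw [e]; omega)
  rw [h.Gam_one hG (by omega) (by omega), e, if_neg (by omega), if_pos (by
    rw [A.kap0 (s := s) (by omega), mul_zero, sub_zero]
    exact ⟨u0, s0⟩)] at h1
  have e2 : (A.cfg 0).g y u = (A.cfg 0).g y (A.cs y s + τ) := by
    apply (A.cfg 0).g_congr (by simp)
    have := Int.emod_add_mul_ediv (u - (A.cfg 0).U (y + s)) A.NN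
    unfold cs
    rw [A.kap0 (s := s) (by omega)]
    change A.NN ∣ _
    exact ⟨(u - (A.cfg 0).U (y + s)) / A.NN, by linear_combination -this⟩
  rw [e2, h1]; norm_num

/-- **B1** -/
theorem B1 (h : VR A T) (cp : IsCoprime T.sig (A.h : ℤ)) (hG : A.GC) {i e k : ℤ}
    (h1 : 0 < A.dd i e) (h2 : A.dd i e < A.dd i (i + A.h - T.sig)) (h3 : i - T.sig < k)
    (h4 : k < i) (h5 : 0 < ((A.cfg 0).V e - (A.cfg 0).V k) % A.NN)
    (h6 : ((A.cfg 0).V e - (A.cfg 0).V k) % A.NN
      < ((A.cfg 0).V (k + A.h) - (A.cfg 0).V k) % A.NN) : False := by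
  obtain ⟨hn, b1, b2, b3, b4, b5, b6, b7, b8⟩ := h.basic
  have q6 := A.q6
  have p5 := A.p5
  have w := A.W1_bd
  have hN := A.NN_pos
  have hH : (A.cfg 0).H = A.q * A.h := rfl
  have hHp := (A.cfg 0).H_pos
  have hNe : (A.cfg 0).N = A.NN := rfl
  -- the level
  set y := max (i - T.sig + 1) (k - A.w + 1) with hy
  -- `ell k + H < N`
  have c3 := h.C3 cp hG k
  rw [h.dat_X cp] at c3
  change A.dd k (k + A.h) + A.q * A.h < A.NN at c3
  have el : (A.cfg 0).ell k = A.dd k (k + A.h) := rfl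
  have el0 := (A.cfg 0).ell_nonneg k
  have e6 : ((A.cfg 0).V (k + A.h) - (A.cfg 0).V k) % A.NN = (A.cfg 0).ell k + (A.cfg 0).H := by
    rw [emod_congr (b := (A.cfg 0).ell k + (A.cfg 0).H), Int.emod_eq_of_lt (by omega) (by omega)]
    have := (A.cfg 0).V_ell k
    have hh : (((A.cfg 0).h : ℕ) : ℤ) = A.h := rfl
    rw [hh, hNe] at this
    have := (dvd_neg).2 this
    rwa [show -((A.cfg 0).V k + (A.cfg 0).ell k - ((A.cfg 0).V (k + A.h) - (A.cfg 0).H))
      = (A.cfg 0).V (k + A.h) - (A.cfg 0).V k - ((A.cfg 0).ell k + (A.cfg 0).H) by ring] at this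
  rw [e6] at h6
  -- the column
  have hk0 := A.k0_cases
  have pp := A.p_NN
  have g1 := A.dd_dvd i e
  have g2 := A.dd_dvd i (i + A.h - T.sig)
  have hp : (0 : ℤ) < A.p := by omega
  have g3 := Int.le_of_dvd h1 g1
  have g4 : A.dd i e + A.p ≤ A.dd i (i + A.h - T.sig) := by
    have := Int.le_of_dvd (by omega) (dvd_sub g2 g1)
    omega
  have g5 := A.dd_lt i (i + A.h - T.sig)
  have gap := h.Nx_gap y (h.Nx_mid hG (s := i - y) (by omega) (by omega)) (by omega) (by omega)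
    (by omega)
  have egap : A.cd y (i - y) (i - y + A.h - T.sig) = A.dd i (i + A.h - T.sig) := by
    unfold cd dd cs
    rw [A.kap0 (s := i - y) (by omega), A.kap0 (s := i - y + A.h - T.sig) (by omega), mul_zero,
      add_zero, add_zero, show y + (i - y + A.h - T.sig) = i + A.h - T.sig by ring,
      show y + (i - y) = i by ring]
  rw [egap] at gap
  have ce := A.dd_cong i e
  have ci := A.dd_cong i (i + A.h - T.sig)
  obtain ⟨u, hu1, hu2, hu3, hu4⟩ : ∃ u, (A.p : ℤ) ∣ u + A.k0 ∧ (A.cfg 0).hor e u = 1 ∧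
      (A.cfg 0).W ≤ (u - (A.cfg 0).U i) % A.NN ∧
      (u - (A.cfg 0).U i) % A.NN < A.dd i (i + A.h - T.sig) := by
    by_cases hc : A.dd i e + A.W1 - A.k0 < A.dd i (i + A.h - T.sig)
    · have e7 : ((A.cfg 0).U e + A.W1 - A.k0 - (A.cfg 0).U i) % A.NN
          = A.dd i e + A.W1 - A.k0 := by
        rw [emod_congr (b := A.dd i e + A.W1 - A.k0), Int.emod_eq_of_lt
          (by rcases hk0 with ⟨q1, q2⟩ | ⟨q1, q2⟩ <;> rw [q2] <;> omega) (by omega)]
        have := (dvd_neg).2 ce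
        rwa [show -(A.dd i e - ((A.cfg 0).U e - (A.cfg 0).U i))
          = (A.cfg 0).U e + A.W1 - A.k0 - (A.cfg 0).U i - (A.dd i e + A.W1 - A.k0) by ring] at this
      refine ⟨(A.cfg 0).U e + A.W1 - A.k0, ?_, ?_, ?_, ?_⟩
      · rw [sub_add_cancel]
        exact dvd_add (A.U_dvd 0 e) A.p_W1
      · apply ph_of_lt
        rw [show (A.cfg 0).U e + A.W1 - A.k0 - (A.cfg 0).U e = A.W1 - A.k0 by ring, hNe,
          Int.emod_eq_of_lt]
        · rcases hk0 with ⟨q1, q2⟩ | ⟨q1, q2⟩ <;> rw [q2] <;> rw [q1] at b6 <;> omega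
        · rcases hk0 with ⟨q1, q2⟩ | ⟨q1, q2⟩ <;> rw [q2] <;> omega
        · rcases hk0 with ⟨q1, q2⟩ | ⟨q1, q2⟩ <;> rw [q2] <;> omega
      · rw [e7]
        rcases hk0 with ⟨q1, q2⟩ | ⟨q1, q2⟩ <;> rw [q2] <;> rw [q1] at b6 <;> omega
      · rw [e7]; exact hc
    · have e7 : ((A.cfg 0).U (i + A.h - T.sig) - A.k0 - (A.cfg 0).U i) % A.NN
          = A.dd i (i + A.h - T.sig) - A.k0 := by
        rw [emod_congr (b := A.dd i (i + A.h - T.sig) - A.k0), Int.emod_eq_of_lt
          (by rcases hk0 with ⟨q1, q2⟩ | ⟨q1, q2⟩ <;> rw [q2] <;> omega)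
          (by rcases hk0 with ⟨q1, q2⟩ | ⟨q1, q2⟩ <;> rw [q2] <;> omega)]
        have := (dvd_neg).2 ci
        rwa [show -(A.dd i (i + A.h - T.sig)
          - ((A.cfg 0).U (i + A.h - T.sig) - (A.cfg 0).U i))
          = (A.cfg 0).U (i + A.h - T.sig) - A.k0 - (A.cfg 0).U i
            - (A.dd i (i + A.h - T.sig) - A.k0) by ring] at this
      refine ⟨(A.cfg 0).U (i + A.h - T.sig) - A.k0, ?_, ?_, ?_, ?_⟩
      · rw [sub_add_cancel]
        exact A.U_dvd 0 _
      · apply ph_of_lt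
        rw [hNe, emod_congr (b := A.dd i (i + A.h - T.sig) - A.k0 - A.dd i e),
          Int.emod_eq_of_lt]
        · rcases hk0 with ⟨q1, q2⟩ | ⟨q1, q2⟩ <;> rw [q2] at hc ⊢ <;> rw [q1] at b6 <;> omega
        · rcases hk0 with ⟨q1, q2⟩ | ⟨q1, q2⟩ <;> rw [q2] <;> omega
        · rcases hk0 with ⟨q1, q2⟩ | ⟨q1, q2⟩ <;> rw [q2] <;> omega
        · have := dvd_sub ce ci
          rwa [show A.dd i e - ((A.cfg 0).U e - (A.cfg 0).U i)
            - (A.dd i (i + A.h - T.sig) - ((A.cfg 0).U (i + A.h - T.sig) - (A.cfg 0).U i))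
            = (A.cfg 0).U (i + A.h - T.sig) - A.k0 - (A.cfg 0).U e
              - (A.dd i (i + A.h - T.sig) - A.k0 - A.dd i e) by ring] at this
      · rw [e7]
        rcases hk0 with ⟨q1, q2⟩ | ⟨q1, q2⟩ <;> rw [q2] <;> rw [q1] at b6 <;> omega
      · rw [e7]
        rcases hk0 with ⟨q1, q2⟩ | ⟨q1, q2⟩ <;> rw [q2] <;> omega
  have hg : (A.cfg 0).g y u = 0 := by
    apply h.g_zero hG y (s := i - y) (by omega) (by omega)
    · rw [show y + (i - y) = i by ring]; exact hu3
    · rw [show y + (i - y) = i by ring]; exact hu4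
  -- the row
  have ve := Int.emod_add_mul_ediv ((A.cfg 0).V e - (A.cfg 0).V k) A.NN
  set x := ((A.cfg 0).V e - (A.cfg 0).V k) % A.NN with hx
  obtain ⟨v, hv1, hv2⟩ : ∃ v, (A.cfg 0).ver e v = 1 ∧
      ph (A.cfg 0).N ((A.cfg 0).V k) ((A.cfg 0).ell k) v = 1 := by
    by_cases hc : x ≤ (A.cfg 0).H
    · refine ⟨(A.cfg 0).V k, ?_, ?_⟩
      · unfold Cfg.ver
        rw [ph_at (t := (A.cfg 0).H - x) ?_ (by omega) (by omega), if_pos (by omega)]
        rw [hNe]
        exact ⟨-(((A.cfg 0).V e - (A.cfg 0).V k) / A.NN), by linear_combination ve⟩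
      · rw [ph_at (t := 0) (by simp) le_rfl (by omega), if_pos]
        rw [el]
        have := (h.dat cp).X_pos k
        rwa [h.dat_X cp] at this
    · refine ⟨(A.cfg 0).V e - (A.cfg 0).H, ?_, ?_⟩
      · unfold Cfg.ver
        rw [ph_at (t := 0) (by simp) le_rfl (by omega), if_pos (by omega)]
      · rw [ph_at (t := x - (A.cfg 0).H) ?_ (by omega) (by omega), if_pos (by omega)]
        rw [hNe]
        exact ⟨((A.cfg 0).V e - (A.cfg 0).V k) / A.NN, by linear_combination -ve⟩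
  have hR := (A.cfg 0).R_pos_of_In (k := e) (u := u) (v := v) ⟨hu2, hv1⟩
  have hf : 1 ≤ (A.cfg 0).f y v := by
    have e8 : ((k - y).toNat : ℤ) = k - y := Int.toNat_of_nonneg (by omega)
    have e9 : ph (A.cfg 0).N ((A.cfg 0).V (y + ((k - y).toNat : ℤ)))
        ((A.cfg 0).ell (y + ((k - y).toNat : ℤ))) v = 1 := by
      rw [e8, show y + (k - y) = k by ring]; exact hv2
    rw [← e9]
    unfold Cfg.f
    exact Finset.single_le_sum (f := fun i : ℕ => ph (A.cfg 0).N ((A.cfg 0).V (y + i))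
      ((A.cfg 0).ell (y + i)) v) (fun _ _ => ph_nonneg _ _ _ _)
      (Finset.mem_range.2 (by change _ < A.w; omega))
  have := h.fl u v y hu1
  rw [hg, abs_le] at this
  omega

/-- **lev** -/
theorem lev (h : VR A T) {j : ℤ} (h1 : 0 < ((A.cfg 0).V (j + 1) - (A.cfg 0).V j) % A.NN)
    (h2 : ((A.cfg 0).V (j + 1) - (A.cfg 0).V j) % A.NN < A.q * A.h) :
    A.W1 ≤ A.dd j (j + 1) ∧ A.dd j (j + 1) ≤ A.NN - A.W1 := by
  obtain ⟨hn, b1, b2, b3, b4, b5, b6, b7, b8⟩ := h.basic
  have q6 := A.q6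
  have p5 := A.p5
  have w := A.W1_bd
  have hN := A.NN_pos
  have hH : (A.cfg 0).H = A.q * A.h := rfl
  have hNe : (A.cfg 0).N = A.NN := rfl
  have hHl := (A.cfg 0).H_lt
  have S := T.sc h.nov
  have g0 := A.dd_dvd j (j + 1)
  have d0 := A.dd_nonneg j (j + 1)
  have d1 := A.dd_lt j (j + 1)
  have cj := A.dd_cong j (j + 1)
  have ve := Int.emod_add_mul_ediv ((A.cfg 0).V (j + 1) - (A.cfg 0).V j) A.NN
  set x := ((A.cfg 0).V (j + 1) - (A.cfg 0).V j) % A.NN with hx
  have v1 : (A.cfg 0).ver j ((A.cfg 0).V j - 1) = 1 := by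
    unfold Cfg.ver
    rw [ph_at (t := (A.cfg 0).H - 1) (by
      rw [show (A.cfg 0).V j - 1 - ((A.cfg 0).V j - (A.cfg 0).H + ((A.cfg 0).H - 1)) = 0 by ring]
      simp) (by omega) (by omega), if_pos (by omega)]
  have v2 : (A.cfg 0).ver (j + 1) ((A.cfg 0).V j - 1) = 1 := by
    unfold Cfg.ver
    rw [ph_at (t := (A.cfg 0).H - 1 - x) ?_ (by omega) (by omega), if_pos (by omega)]
    rw [hNe]
    exact ⟨-(((A.cfg 0).V (j + 1) - (A.cfg 0).V j) / A.NN), by linear_combination ve⟩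
  have nd : ¬ (A.p : ℤ) ∣ (j + 1) - j := by
    rw [add_sub_cancel_left]
    exact nd_small (by norm_num) (by omega) (by omega)
  have nd1 : ¬ (A.p : ℤ) ∣ 1 := by
    rwa [add_sub_cancel_left] at nd
  -- overlap in two consecutive columns
  have key : ∀ c : ℤ, (A.cfg 0).hor j c = 1 → (A.cfg 0).hor j (c + 1) = 1 →
      (A.cfg 0).hor (j + 1) c = 1 → (A.cfg 0).hor (j + 1) (c + 1) = 1 → False := by
    intro c c1 c2 c3 c4
    have s1 := (S.dj (j + 1) j c _ nd ⟨c3, v2⟩ ⟨c1, v1⟩).2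
    have s2 := (S.dj (j + 1) j (c + 1) _ nd ⟨c4, v2⟩ ⟨c2, v1⟩).2
    apply nd1
    have := dvd_sub s2 s1
    rw [add_sub_cancel_left] at this
    exact this
  constructor
  · by_contra hc
    have g1 : A.dd j (j + 1) + A.p ≤ A.W1 := by
      have := Int.le_of_dvd (by omega) (dvd_sub A.p_W1 g0)
      omega
    apply key ((A.cfg 0).U (j + 1))
    · unfold Cfg.hor
      rw [ph_at (t := A.dd j (j + 1)) ?_ (by omega) (by omega), if_pos
        (by rcases b8 with h | h <;> rw [h] at b6 <;> omega)]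
      rw [hNe]
      have := (dvd_neg).2 cj
      rwa [show -(A.dd j (j + 1) - ((A.cfg 0).U (j + 1) - (A.cfg 0).U j))
        = (A.cfg 0).U (j + 1) - ((A.cfg 0).U j + A.dd j (j + 1)) by ring] at this
    · unfold Cfg.hor
      rw [ph_at (t := A.dd j (j + 1) + 1) ?_ (by omega) (by omega), if_pos
        (by rcases b8 with h | h <;> rw [h] at b6 <;> omega)]
      rw [hNe]
      have := (dvd_neg).2 cj
      rwa [show -(A.dd j (j + 1) - ((A.cfg 0).U (j + 1) - (A.cfg 0).U j))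
        = (A.cfg 0).U (j + 1) + 1 - ((A.cfg 0).U j + (A.dd j (j + 1) + 1)) by ring] at this
    · unfold Cfg.hor
      rw [ph_at (t := 0) (by simp) le_rfl (by omega), if_pos (by omega)]
    · unfold Cfg.hor
      rw [ph_at (t := 1) (by simp) (by omega) (by omega), if_pos
        (by rcases b8 with h | h <;> rw [h] at b6 <;> omega)]
  · by_contra hc
    have g1 : A.NN - A.dd j (j + 1) + A.p ≤ A.W1 := by
      have := Int.le_of_dvd (by omega) (dvd_sub A.p_W1 (dvd_sub A.p_NN g0))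
      omega
    apply key ((A.cfg 0).U j)
    · unfold Cfg.hor
      rw [ph_at (t := 0) (by simp) le_rfl (by omega), if_pos (by omega)]
    · unfold Cfg.hor
      rw [ph_at (t := 1) (by simp) (by omega) (by omega), if_pos
        (by rcases b8 with h | h <;> rw [h] at b6 <;> omega)]
    · unfold Cfg.hor
      rw [ph_at (t := A.NN - A.dd j (j + 1)) ?_ (by omega) (by omega), if_pos
        (by rcases b8 with h | h <;> rw [h] at b6 <;> omega)]
      rw [hNe]
      have := dvd_sub cj (dvd_refl A.NN)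
      rwa [show A.dd j (j + 1) - ((A.cfg 0).U (j + 1) - (A.cfg 0).U j) - A.NN
        = (A.cfg 0).U j - ((A.cfg 0).U (j + 1) + (A.NN - A.dd j (j + 1))) by ring] at this
    · unfold Cfg.hor
      rw [ph_at (t := A.NN - A.dd j (j + 1) + 1) ?_ (by omega) (by omega), if_pos
        (by rcases b8 with h | h <;> rw [h] at b6 <;> omega)]
      rw [hNe]
      have := dvd_sub cj (dvd_refl A.NN)
      rwa [show A.dd j (j + 1) - ((A.cfg 0).U (j + 1) - (A.cfg 0).U j) - A.NN
        = (A.cfg 0).U j + 1 - ((A.cfg 0).U (j + 1) + (A.NN - A.dd j (j + 1) + 1)) by ring] at this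

theorem dat_V' (h : VR A T) (cp : IsCoprime T.sig (A.h : ℤ)) (k : ℤ) :
    (h.dat cp).V k = (A.cfg 0).V k := h.dat_V cp k

theorem ok (h : VR A T) (hG : A.GC) : (h.dat (h.cop hG)).Ok where
  inU := by
    intro k j hkj
    rw [h.dat_U, h.dat_U] at hkj
    exact (A.cfg_gen 0).UU k j hkj
  inV := by
    intro k j hkj
    rw [h.dat_V, h.dat_V] at hkj
    exact (A.cfg_gen 0).VV k j hkj
  C1 := h.C1 (h.cop hG) hG
  C2 := h.C2 (h.cop hG) hG
  C3 := h.C3 (h.cop hG) hG
  B1 := by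
    intro i e k h1 h2 h3 h4 h5 h6
    rw [h.dat_U, h.dat_U] at h1
    rw [h.dat_U, h.dat_U, h.dat_U] at h2
    rw [h.dat_V, h.dat_V] at h5
    rw [h.dat_V, h.dat_V, h.dat_V] at h6
    exact h.B1 (h.cop hG) hG h1 h2 h3 h4 h5 h6
  ht := by
    change 0 < A.ix T.sig
    rw [h.ix_sig]
    exact T.t0
  lev := by
    intro j h1 h2
    rw [h.dat_V, h.dat_V] at h1 h2
    rw [h.dat_U, h.dat_U]
    exact h.lev h1 h2
  cop := h.cop hG

/-- **the two-valued case** -/
theorem tv (h : VR A T) (hG : ∀ s, 0 ≤ s → s < A.nn → A.Gam s = A.Gam 0) : False :=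
  (h.ok hG).contra

end VR

end TAp

end Pool.Agent.H78.Tie
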