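import Pool.Agent.H42.Tie.TVfin
import Pool.Agent.H98.Tie.VNon2

/-!
# Region `x < 0`, `w + |x| ≤ h`, `ep = -1` is impossible (given `NoOv`, `NoPass`)
-/

namespace Pool.Agent.H78.Tie.TAp

variable {A : TAp} {T : A.Tie}

theorem VR.false (h : VR A T) : False := h.tv (fun s s0 s1 => h.nonTV s0 s1)

end Pool.Agent.H78.Tie.TAp
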